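import Pool.Agent.Lib.MP_8a3537_gt.AU.Spec
import Pool.Agent.Lib.MP_8a3537_gt.UV.EMV
import Pool.Agent.Lib.MP_8a3537_gt.UV.TAT
import Pool.Agent.Lib.MP_8a3537_gt.UV.SWP

/-!
# AU, module GDS: a surgery does not change the class
-/

namespace Pool.Agent.Lib.MP8a3537.AU

open Matrix Pool.Agent.Lib.MP8a3537.UV
open Pool.Agent.Lib.MP8a3537.UO (ext)

namespace GDSAux

/-! ### Reindexing -/

section Reindex

variable {A : Type} [Ring A] [StarRing A] {ι κ : Type} [Fintype ι] [DecidableEq ι] [Fintype κ]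
  [DecidableEq κ]

theorem sh_of_equiv (ε : ℤˣ) (e : κ ≃ ι) (Ψ : Matrix ι ι A)
    (h : StablyHyperbolic ε (Ψ.submatrix e e)) : StablyHyperbolic ε Ψ :=
  SWPAux.stab_of_isom (EMVAux.iso_equiv ε Ψ (Ψ.submatrix e e) e rfl) h

theorem sh_equiv (ε : ℤˣ) (e : κ ≃ ι) (Ψ : Matrix ι ι A)
    (h : StablyHyperbolic ε Ψ) : StablyHyperbolic ε (Ψ.submatrix e e) := by
  refine sh_of_equiv ε e.symm _ ?_
  rw [submatrix_submatrix]
  simpa using h

theorem UF_equiv (e : κ ≃ ι) (ψ μ χ : Matrix ι ι A) :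
    (UF ψ μ χ).submatrix (Equiv.sumCongr e e) (Equiv.sumCongr e e) =
      UF (ψ.submatrix e e) (μ.submatrix e e) (χ.submatrix e e) := by
  unfold UF
  ext i j
  rcases i with i | i <;> rcases j with j | j <;>
    simp [Matrix.one_apply, e.injective.eq_iff]

theorem shUF_of_equiv (ε : ℤˣ) (e : κ ≃ ι) (ψ μ χ : Matrix ι ι A)
    (h : StablyHyperbolic ε (UF (ψ.submatrix e e) (μ.submatrix e e) (χ.submatrix e e))) :
    StablyHyperbolic ε (UF ψ μ χ) := by
  rw [← UF_equiv] at h
  exact sh_of_equiv ε _ _ h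

theorem shUF_equiv (ε : ℤˣ) (e : κ ≃ ι) (ψ μ χ : Matrix ι ι A)
    (h : StablyHyperbolic ε (UF ψ μ χ)) :
    StablyHyperbolic ε (UF (ψ.submatrix e e) (μ.submatrix e e) (χ.submatrix e e)) := by
  rw [← UF_equiv]
  exact sh_equiv ε _ _ h

/-- EMV for arbitrary finite index types. -/
theorem emv_any (ε : ℤˣ) (ψ : Matrix κ κ A) (m' : Matrix ι κ A) (χ : Matrix ι ι A)
    (p : Matrix κ ι A) (h : StablyHyperbolic ε (UF ψ (p * m') (p * χ * pᴴ))) :
    StablyHyperbolic ε (UF (pᴴ * ψ * p) (m' * p) χ) := by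
  have e : Fin (Fintype.card ι) ≃ ι := (Fintype.equivFin ι).symm
  have e' : Fin (Fintype.card κ) ≃ κ := (Fintype.equivFin κ).symm
  have h1 := shUF_equiv ε e' _ _ _ h
  have e1 : (p * m').submatrix e' e' = p.submatrix e' e * m'.submatrix e e' := by
    rw [submatrix_mul_equiv]
  have e2 : (p * χ * pᴴ).submatrix e' e' =
      p.submatrix e' e * χ.submatrix e e * (p.submatrix e' e)ᴴ := by
    rw [conjTranspose_submatrix, submatrix_mul_equiv, submatrix_mul_equiv]
  rw [e1, e2] at h1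
  have h2 := specEmv A ε _ _ _ _ _ _ h1
  refine shUF_of_equiv ε e _ _ _ ?_
  have e3 : (pᴴ * ψ * p).submatrix e e =
      (p.submatrix e' e)ᴴ * ψ.submatrix e' e' * p.submatrix e' e := by
    rw [conjTranspose_submatrix, submatrix_mul_equiv, submatrix_mul_equiv]
  have e4 : (m' * p).submatrix e e = m'.submatrix e e' * p.submatrix e' e := by
    rw [submatrix_mul_equiv]
  rw [e3, e4]
  exact h2

/-- The change of the form for arbitrary finite index types. -/
theorem change_any (ε : ℤˣ) (ψ μ χ c : Matrix ι ι A)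
    (h : StablyHyperbolic ε (UF ψ μ χ)) :
    StablyHyperbolic ε (UF (ψ + c - (ε : ℤ) • cᴴ) μ χ) := by
  have e : Fin (Fintype.card ι) ≃ ι := (Fintype.equivFin ι).symm
  refine shUF_of_equiv ε e _ _ _ ?_
  have h1 := (specSwp A ε _ (ψ.submatrix e e) (μ.submatrix e e) (χ.submatrix e e)).2.1
    (c.submatrix e e) 0 (shUF_equiv ε e _ _ _ h)
  rw [conjTranspose_submatrix, conjTranspose_zero, smul_zero, sub_zero, add_zero] at h1
  exact h1

end Reindex

/-- TAT for arbitrary finite index types. -/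
theorem tat_any {R G : Type} [Ring R] [StarRing R] [Group G] (X : Set G) (δ : ℤˣ) {ι : Type}
    [Fintype ι] (d : Matrix ι ι (MonoidAlgebra R G)) (hX : ∀ x ∈ X, x⁻¹ ∈ X)
    (hX' : ∀ x ∈ X, x⁻¹ ≠ x) (hd : SuppIn X d) (h : d = (δ : ℤ) • dᴴ) :
    ∃ c : Matrix ι ι (MonoidAlgebra R G), SuppIn X c ∧ d = c + (δ : ℤ) • cᴴ := by
  classical
  have e : ι ≃ Fin (Fintype.card ι) := Fintype.equivFin ι
  obtain ⟨c, hc, hdc⟩ := specTat R G X δ _ (d.submatrix e.symm e.symm) hX hX'
    (fun i j g hg => hd _ _ g hg) (by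
      conv_lhs => rw [h]
      rfl)
  refine ⟨c.submatrix e e, fun i j g hg => hc _ _ g hg, ?_⟩
  have h1 := congrArg (fun M : Matrix _ _ (MonoidAlgebra R G) => M.submatrix e e) hdc
  simp only [submatrix_submatrix, Equiv.symm_comp_self, submatrix_id_id] at h1
  rw [h1]
  rfl

/-! ### The matrix of an injective map -/

section Proj

variable {A : Type} [Ring A] [StarRing A] {n n' : Type} [Fintype n] [DecidableEq n] [Fintype n']
  [DecidableEq n']

/-- The matrix of the map `ι`. -/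
def pm (A : Type) [Ring A] {n n' : Type} [DecidableEq n'] (ι : n → n') : Matrix n' n A :=
  (1 : Matrix n' n' A).submatrix id ι

omit [StarRing A] [Fintype n] [DecidableEq n] in
theorem mul_pm {l : Type} (ι : n → n') (M : Matrix l n' A) : M * pm A ι = M.submatrix id ι := by
  ext i j
  simp [pm, mul_apply, one_apply]

omit [Fintype n] [DecidableEq n] in
theorem pm_form (ι : n → n') (M : Matrix n' n' A) :
    (pm A ι)ᴴ * M * pm A ι = M.submatrix ι ι := by
  rw [mul_pm]
  ext i j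
  simp [pm, mul_apply, one_apply]

omit [StarRing A] [Fintype n'] [DecidableEq n] in
theorem pm_mul_apply {l : Type} (ι : n → n') (hι : Function.Injective ι) (M : Matrix n l A)
    (i : n) (j : l) : (pm A ι * M) (ι i) j = M i j := by
  classical
  rw [mul_apply, Finset.sum_eq_single i]
  · simp [pm, one_apply]
  · intro b _ hb
    have : ι i ≠ ι b := fun h => hb (hι h).symm
    simp [pm, one_apply, this]
  · simp

omit [StarRing A] [Fintype n'] [DecidableEq n] in
theorem pm_mul_zero {l : Type} (ι : n → n') (M : Matrix n l A)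
    (i : n') (hi : ∀ k, i ≠ ι k) (j : l) : (pm A ι * M) i j = 0 := by
  rw [mul_apply]
  refine Finset.sum_eq_zero fun b _ => ?_
  simp [pm, one_apply, hi b]

omit [Fintype n'] [DecidableEq n] in
theorem mul_pmH_apply {l : Type} (ι : n → n') (hι : Function.Injective ι) (M : Matrix l n A)
    (i : l) (j : n) : (M * (pm A ι)ᴴ) i (ι j) = M i j := by
  classical
  rw [mul_apply, Finset.sum_eq_single j]
  · simp [pm, one_apply, conjTranspose_apply]
  · intro b _ hb
    have : ι j ≠ ι b := fun h => hb (hι h).symm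
    simp [pm, one_apply, this, conjTranspose_apply]
  · simp

omit [Fintype n'] [DecidableEq n] in
theorem mul_pmH_zero {l : Type} (ι : n → n') (M : Matrix l n A)
    (i : l) (j : n') (hj : ∀ k, j ≠ ι k) : (M * (pm A ι)ᴴ) i j = 0 := by
  rw [mul_apply]
  refine Finset.sum_eq_zero fun b _ => ?_
  simp [pm, one_apply, hj b, conjTranspose_apply]

end Proj

end GDSAux

open GDSAux in
/-- **GDS**: a surgery does not change the class. -/
theorem specGDS : SpecGDS := by
  classical
  intro R G _ _ _ H X1 X2 X3 ε C J a μ b k Z g f f' t h hinv hne hNF hEX hgood ψ χ hψ hχ ha hb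
  -- the inclusion of the index types
  let ι : {i // C.deg i = 0} → {i // (cone C J g h.gg h.cg).deg i = 0} :=
    fun i => ⟨Sum.inl i.1, i.2⟩
  have hι : Function.Injective ι := by
    intro i j hij
    have : (Sum.inl i.1 : C.I ⊕ J.I) = Sum.inl j.1 := congrArg Subtype.val hij
    exact Subtype.ext (Sum.inl.inj this)
  have hr : ∀ (j : J.I) (hj : (cone C J g h.gg h.cg).deg (Sum.inr j) = 0)
      (l : {i // C.deg i = 0}), (⟨Sum.inr j, hj⟩ :
        {i // (cone C J g h.gg h.cg).deg i = 0}) ≠ ι l := by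
    intro j hj l hl
    have : (Sum.inr j : C.I ⊕ J.I) = Sum.inl l.1 := congrArg Subtype.val hl
    cases this
  -- the form on the cone
  have hsa : SuppIn X1 ((newa ε a f t).submatrix Subtype.val Subtype.val :
      Matrix {i // (cone C J g h.gg h.cg).deg i = 0} {i // (cone C J g h.gg h.cg).deg i = 0}
        (MonoidAlgebra R G)) := by
    rintro ⟨i | i, hi⟩ ⟨j | j, hj⟩ x hx
    · exact hNF.sa i j x hx
    · exact hEX.sf i j x hx
    · have hx' : ((ε : ℤ) • star (f j i)).coeff x ≠ 0 := hx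
      rw [TATAux.coeff_smul_star] at hx'
      have h1 : (f j i).coeff x⁻¹ ≠ 0 := by
        intro h0
        apply hx'
        rw [h0, star_zero, smul_zero]
      have := hinv _ (hEX.sf j i _ h1)
      rwa [inv_inv] at this
    · exact hEX.st i j x hx
  have hnew : newa ε a f t = (ε : ℤ) • (newa ε a f t)ᴴ := by
    unfold newa
    rw [fromBlocks_conjTranspose, fromBlocks_smul, ← hNF.ha, ← hEX.ht]
    congr 1
    rcases Int.units_eq_one_or ε with h1 | h1 <;> simp [h1]
  obtain ⟨ψ', hψ', hA⟩ := tat_any X1 ε ((newa ε a f t).submatrix Subtype.val Subtype.val :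
      Matrix {i // (cone C J g h.gg h.cg).deg i = 0} {i // (cone C J g h.gg h.cg).deg i = 0}
        (MonoidAlgebra R G)) hinv hne hsa (by
      conv_lhs => rw [hnew]
      rfl)
  -- the second form
  let p : Matrix {i // (cone C J g h.gg h.cg).deg i = 0} {i // C.deg i = 0}
    (MonoidAlgebra R G) := pm (MonoidAlgebra R G) ι
  have hχ' : SuppIn X2 (p * χ * pᴴ) := by
    rintro ⟨i | i, hi⟩ ⟨j | j, hj⟩ x hx
    · have h1 : (p * χ * pᴴ) (ι ⟨i, hi⟩) (ι ⟨j, hj⟩) = χ ⟨i, hi⟩ ⟨j, hj⟩ := by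
        rw [mul_pmH_apply ι hι, pm_mul_apply ι hι]
      exact hχ ⟨i, hi⟩ ⟨j, hj⟩ x (by rw [← h1]; exact hx)
    · exact absurd (by rw [mul_pmH_zero ι _ _ _ (hr j hj)]; simp) hx
    · exact absurd (by rw [Matrix.mul_assoc, pm_mul_zero ι _ _ (hr i hi)]; simp) hx
    · exact absurd (by rw [mul_pmH_zero ι _ _ _ (hr j hj)]; simp) hx
  have hB : p * χ * pᴴ + (ε : ℤ) • (p * χ * pᴴ)ᴴ =
      (fromBlocks b 0 0 0).submatrix Subtype.val Subtype.val := by
    have h1 : p * χ * pᴴ + (ε : ℤ) • (p * χ * pᴴ)ᴴ = p * (χ + (ε : ℤ) • χᴴ) * pᴴ := by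
      simp only [conjTranspose_mul, conjTranspose_conjTranspose, Matrix.mul_add, Matrix.add_mul,
        Matrix.mul_smul, Matrix.smul_mul, Matrix.mul_assoc]
    rw [h1, hb]
    ext1 i j
    rcases i with ⟨i | i, hi⟩ <;> rcases j with ⟨j | j, hj⟩
    · change (p * (b.submatrix Subtype.val Subtype.val : Matrix {i // C.deg i = 0}
        {i // C.deg i = 0} (MonoidAlgebra R G)) * pᴴ) (ι ⟨i, hi⟩) (ι ⟨j, hj⟩) = _
      rw [mul_pmH_apply ι hι, pm_mul_apply ι hι]
      rfl
    · rw [mul_pmH_zero ι _ _ _ (hr j hj)]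
      rfl
    · rw [Matrix.mul_assoc, pm_mul_zero ι _ _ (hr i hi)]
      rfl
    · rw [mul_pmH_zero ι _ _ _ (hr j hj)]
      rfl
  -- the middle matrix
  let m' : Matrix {i // C.deg i = 0} {i // (cone C J g h.gg h.cg).deg i = 0}
    (MonoidAlgebra R G) := (fromCols μ f').submatrix Subtype.val Subtype.val
  have hpm : ((fromBlocks μ f' 0 0).submatrix Subtype.val Subtype.val :
      Matrix {i // (cone C J g h.gg h.cg).deg i = 0} {i // (cone C J g h.gg h.cg).deg i = 0}
        (MonoidAlgebra R G)) = p * m' := by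
    ext1 i j
    rcases i with ⟨i | i, hi⟩
    · change _ = (p * m') (ι ⟨i, hi⟩) j
      rw [pm_mul_apply ι hι]
      rcases j with ⟨j | j, hj⟩ <;> rfl
    · rw [pm_mul_zero ι _ _ (hr i hi)]
      rcases j with ⟨j | j, hj⟩ <;> rfl
  have h2 : StablyHyperbolic ε (UF ψ' (p * m') (p * χ * pᴴ)) := by
    rw [← hpm]
    exact hgood ψ' (p * χ * pᴴ) hψ' hχ' hA.symm hB
  have h3 := emv_any ε ψ' m' χ p h2
  have h4 : m' * p = μ.submatrix Subtype.val Subtype.val := by
    rw [mul_pm]
    rfl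
  have h5 : pᴴ * ψ' * p = ψ'.submatrix ι ι := pm_form ι ψ'
  rw [h4, h5] at h3
  -- the change of the first form
  have hc0 : SuppIn X1 (ψ - ψ'.submatrix ι ι) := by
    intro i j x hx
    by_cases h0 : (ψ i j).coeff x = 0
    · refine hψ' (ι i) (ι j) x ?_
      intro h1
      apply hx
      rw [Matrix.sub_apply, submatrix_apply, MonoidAlgebra.coeff_sub, Finsupp.sub_apply, h0, h1,
        sub_zero]
    · exact hψ i j x h0
  have hsub : ψ'.submatrix ι ι + (ε : ℤ) • (ψ'.submatrix ι ι)ᴴ =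
      a.submatrix Subtype.val Subtype.val := by
    have h6 := congrArg (fun M : Matrix {i // (cone C J g h.gg h.cg).deg i = 0}
      {i // (cone C J g h.gg h.cg).deg i = 0} (MonoidAlgebra R G) => M.submatrix ι ι) hA
    exact h6.symm
  obtain ⟨c, -, hc⟩ := tat_any X1 (-ε) (ψ - ψ'.submatrix ι ι) hinv hne hc0 (by
    rw [Units.val_neg, neg_smul, conjTranspose_sub, smul_sub]
    have h7 := ha.trans hsub.symm
    rw [neg_sub, sub_eq_sub_iff_add_eq_add, h7]
    abel)
  have h8 := change_any ε _ _ _ c h3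
  have h9 : ψ'.submatrix ι ι + c - (ε : ℤ) • cᴴ = ψ := by
    rw [Units.val_neg, neg_smul] at hc
    rw [add_sub_assoc, sub_eq_add_neg c, ← hc]
    abel
  rw [h9] at h8
  exact h8

end Pool.Agent.Lib.MP8a3537.AU
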