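import Pool.Agent.Lib.MP_8a3537_gt.AU.Spec
import Pool.Agent.Lib.MP_8a3537_gt.UV.IND
import Pool.Agent.Lib.MP_8a3537_gt.UV.RES

/-!
# AU, module EXF: extension of the forms to the cone
-/

namespace Pool.Agent.Lib.MP8a3537.AU

open Matrix Pool.Agent.Lib.MP8a3537.UV
open Pool.Agent.Lib.MP8a3537.UO (ext)

namespace EXFAux

section Gen

variable {R G : Type} [Ring R] [Group G] {H : Subgroup G}

theorem ext_mul {l m n : Type} [Fintype m] (M : Matrix l m (MonoidAlgebra R H))
    (N : Matrix m n (MonoidAlgebra R H)) : ext (G := G) (M * N) = ext M * ext N :=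
  Matrix.map_mul

theorem ext_add {m n : Type} (M N : Matrix m n (MonoidAlgebra R H)) :
    ext (G := G) (M + N) = ext M + ext N :=
  Matrix.map_add _ (fun x y => map_add _ x y) M N

theorem ext_zero {m n : Type} : ext (G := G) (0 : Matrix m n (MonoidAlgebra R H)) = 0 :=
  Matrix.map_zero _ (map_zero _)

theorem supp_ext {m n : Type} (M : Matrix m n (MonoidAlgebra R H)) :
    SuppIn (H : Set G) (ext (G := G) M) :=
  fun i j g hg => RESAux.mem_of_emb_ne H (M i j) g hg

theorem ext_ne {m n : Type} (M : Matrix m n (MonoidAlgebra R H)) (i : m) (j : n)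
    (h : ext (G := G) M i j ≠ 0) : M i j ≠ 0 := by
  intro h0
  apply h
  change MonoidAlgebra.mapDomainRingHom R H.subtype (M i j) = 0
  rw [h0, map_zero]

/-- the elements supported in `X` -/
def VX (R : Type) {G : Type} [Ring R] [Group G] (X : Set G) : AddSubgroup (MonoidAlgebra R G) where
  carrier := {y | ∀ g, y.coeff g ≠ 0 → g ∈ X}
  zero_mem' := by
    intro g hg
    exact absurd rfl hg
  add_mem' := by
    intro x y hx hy g hg
    by_contra hc
    apply hg
    rw [MonoidAlgebra.coeff_add, Finsupp.add_apply]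
    have h1 : x.coeff g = 0 := by
      by_contra h
      exact hc (hx g h)
    have h2 : y.coeff g = 0 := by
      by_contra h
      exact hc (hy g h)
    rw [h1, h2, add_zero]
  neg_mem' := by
    intro x hx g hg
    apply hx g
    intro h
    apply hg
    simp [h]

open Classical in
/-- the part supported in `X` -/
noncomputable def rho (X : Set G) (y : MonoidAlgebra R G) : MonoidAlgebra R G :=
  .ofCoeff (y.coeff.filter (fun g => g ∈ X))

theorem rho_in (X : Set G) (y : MonoidAlgebra R G) (g : G) (hg : g ∈ X) :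
    (rho X y).coeff g = y.coeff g := by
  classical
  exact Finsupp.filter_apply_pos _ _ hg

theorem rho_out (X : Set G) (y : MonoidAlgebra R G) (g : G) (hg : g ∉ X) :
    (rho X y).coeff g = 0 := by
  classical
  exact Finsupp.filter_apply_neg _ _ hg

theorem rho_add (X : Set G) (y z : MonoidAlgebra R G) : rho X (y + z) = rho X y + rho X z := by
  ext g
  rw [MonoidAlgebra.coeff_add, Finsupp.add_apply]
  by_cases hg : g ∈ X
  · rw [rho_in X _ g hg, rho_in X _ g hg, rho_in X _ g hg, MonoidAlgebra.coeff_add,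
      Finsupp.add_apply]
  · rw [rho_out X _ g hg, rho_out X _ g hg, rho_out X _ g hg, add_zero]

theorem rho_zero (X : Set G) : rho X (0 : MonoidAlgebra R G) = 0 := by
  ext g
  by_cases hg : g ∈ X
  · rw [rho_in X _ g hg]
  · rw [rho_out X _ g hg]
    rfl

theorem rho_sum {ι : Type*} (s : Finset ι) (X : Set G) (f : ι → MonoidAlgebra R G) :
    rho X (∑ i ∈ s, f i) = ∑ i ∈ s, rho X (f i) := by
  classical
  induction s using Finset.induction_on with
  | empty => simp [rho_zero]
  | insert a s ha ih => rw [Finset.sum_insert ha, Finset.sum_insert ha, rho_add, ih]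

theorem rho_emb_mul (X : Set G) (hX : ∀ h ∈ H, ∀ x ∈ X, h * x ∈ X) (s : MonoidAlgebra R H)
    (y : MonoidAlgebra R G) : rho X (emb R H s * y) = emb R H s * rho X y := by
  induction s using MonoidAlgebra.induction_linear with
  | zero => rw [map_zero, zero_mul, zero_mul, rho_zero]
  | add x z hx hz => rw [map_add, add_mul, rho_add, hx, hz, add_mul]
  | single h r =>
    ext g
    rw [RESAux.emb_single, MonoidAlgebra.coeff_single_mul_apply]
    by_cases hg : g ∈ X
    · have h1 : (h : G)⁻¹ * g ∈ X := hX _ (H.inv_mem h.2) g hg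
      rw [rho_in X _ g hg, rho_in X _ _ h1, MonoidAlgebra.coeff_single_mul_apply]
    · have h1 : (h : G)⁻¹ * g ∉ X := by
        intro h1
        apply hg
        have := hX _ h.2 _ h1
        rwa [mul_inv_cancel_left] at this
      rw [rho_out X _ g hg, rho_out X _ _ h1, mul_zero]

theorem rho_id (X : Set G) (y : MonoidAlgebra R G) (hy : ∀ g, y.coeff g ≠ 0 → g ∈ X) :
    rho X y = y := by
  ext g
  by_cases hg : g ∈ X
  · exact rho_in X y g hg
  · rw [rho_out X y g hg]
    by_contra h
    exact hg (hy g (Ne.symm h))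

theorem rho_supp (X : Set G) (y : MonoidAlgebra R G) (g : G) (h : (rho X y).coeff g ≠ 0) :
    g ∈ X := by
  by_contra hg
  exact h (rho_out X y g hg)

/-- a homogeneous solution with supports in `X` -/
theorem sol (T : FC (MonoidAlgebra R H)) (q : ℤ) (X : Set G) (hX : ∀ h ∈ H, ∀ x ∈ X, h * x ∈ X)
    (x : T.I → MonoidAlgebra R G) (hx : ∀ i g, (x i).coeff g ≠ 0 → g ∈ X)
    (hxd : ∀ i, x i ≠ 0 → T.deg i = q + 1) (u : T.I → MonoidAlgebra R G)
    (hu : x = ext T.d *ᵥ u) :
    ∃ v : T.I → MonoidAlgebra R G, (∀ i, v i ∈ VX R X) ∧ (∀ i, v i ≠ 0 → T.deg i = q) ∧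
      x = ext T.d *ᵥ v := by
  refine ⟨fun i => if T.deg i = q then rho X (u i) else 0, ?_, ?_, ?_⟩
  · intro i
    by_cases h : T.deg i = q
    · simp only [h, if_true]
      exact fun g hg => rho_supp X (u i) g hg
    · simp only [h, if_false]
      exact AddSubgroup.zero_mem _
  · intro i hi
    by_contra h
    exact hi (if_neg h)
  · funext i
    have h1 : (ext T.d *ᵥ fun i => rho X (u i)) i = x i := by
      rw [← rho_id X (x i) (hx i), hu]
      change ∑ j, emb R H (T.d i j) * rho X (u j) = rho X (∑ j, emb R H (T.d i j) * u j)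
      rw [rho_sum]
      exact Finset.sum_congr rfl fun j _ => (rho_emb_mul X hX (T.d i j) (u j)).symm
    by_cases hi : T.deg i = q + 1
    · rw [← h1]
      apply Finset.sum_congr rfl
      intro j _
      change emb R H (T.d i j) * rho X (u j) =
        emb R H (T.d i j) * (if T.deg j = q then rho X (u j) else 0)
      by_cases hj : T.deg j = q
      · rw [if_pos hj]
      · have h0 : T.d i j = 0 := by
          by_contra h0
          have := T.hd i j h0
          omega
        rw [h0, map_zero, zero_mul, zero_mul]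
    · have h2 : x i = 0 := by
        by_contra h
        exact hi (hxd i h)
      rw [h2]
      symm
      apply Finset.sum_eq_zero
      intro j _
      change emb R H (T.d i j) * (if T.deg j = q then rho X (u j) else 0) = 0
      by_cases hj : T.deg j = q
      · have h0 : T.d i j = 0 := by
          by_contra h0
          have := T.hd i j h0
          omega
        rw [h0, map_zero, zero_mul]
      · rw [if_neg hj, mul_zero]

theorem mul_mem_VX (X : Set G) (hX : ∀ h ∈ H, ∀ x ∈ X, x * h ∈ X) (v : MonoidAlgebra R G)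
    (hv : v ∈ VX R X) (x : MonoidAlgebra R H) : v * emb R H x ∈ VX R X := by
  have h1 : SuppIn X (Matrix.of fun (_ _ : Unit) => v) := fun _ _ g hg => hv g hg
  have h2 : SuppIn (H : Set G) (Matrix.of fun (_ _ : Unit) => emb R H x) :=
    fun _ _ g hg => RESAux.mem_of_emb_ne H x g hg
  have h3 := INDAux.supp_mul h1 h2 (Z := X) (fun x hx h hh => hX h hh x hx)
  intro g hg
  apply h3 () () g
  rw [Matrix.mul_apply]
  simpa using hg

/-- E1 and E2 -/
theorem extend (hDES : SpecDES) (hFLT : SpecFLT) (T J : FC (MonoidAlgebra R H)) (k : ℤ)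
    (X : Set G) (hXr : ∀ h ∈ H, ∀ x ∈ X, x * h ∈ X) (hXl : ∀ h ∈ H, ∀ x ∈ X, h * x ∈ X)
    (hT : T.ExBelow k) (M : Matrix T.I J.I (MonoidAlgebra R G)) (hM : SuppIn X M)
    (hMd : ∀ i j, M i j ≠ 0 → T.deg i = J.deg j) (hdk : ∀ j, J.deg j ≤ k)
    (h0 : ext T.d * M + M * ext J.d = 0)
    (hcol : ∀ j, J.deg j = k → ∃ u, (fun i => M i j) = ext T.d *ᵥ u) :
    ∃ f : Matrix T.I J.I (MonoidAlgebra R G), SuppIn X f ∧
      (∀ i j, f i j ≠ 0 → T.deg i = J.deg j - 1) ∧ ext T.d * f = M + f * ext J.d := by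
  have hc : ∀ j, ∃ v : T.I → MonoidAlgebra R G, (∀ i, v i ∈ VX R X) ∧
      (∀ i, v i ≠ 0 → T.deg i = k - 1) ∧ (J.deg j = k → (fun i => M i j) = ext T.d *ᵥ v) ∧
      (J.deg j ≠ k → v = 0) := by
    intro j
    by_cases hj : J.deg j = k
    · obtain ⟨u, hu⟩ := hcol j hj
      obtain ⟨v, hv1, hv2, hv3⟩ := sol T (k - 1) X hXl (fun i => M i j)
        (fun i g hg => hM i j g hg) (fun i hi => by rw [hMd i j hi, hj]; ring) u hu
      exact ⟨v, hv1, hv2, fun _ => hv3, fun h => absurd hj h⟩
    · exact ⟨0, fun i => AddSubgroup.zero_mem _, fun i hi => absurd rfl hi,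
        fun h => absurd h hj, fun _ => rfl⟩
  choose v hv1 hv2 hv3 hv4 using hc
  obtain ⟨f, hf1, hf2, -, hf4⟩ := hDES (MonoidAlgebra R H) (MonoidAlgebra R G)
    (MonoidAlgebra.mapDomainRingHom R H.subtype) (VX R X) T J (k - 1) (-1) 1 M
    (Matrix.of fun i j => v j i)
    (fun w hw x => mul_mem_VX X hXr w hw x)
    (by
      intro x hx hxd hx0
      obtain ⟨y, hy1, hy2⟩ := hFLT R G H X T k hXl hT x (fun i g hg => hx i g hg)
        (fun i hi => by have := hxd i hi; omega) hx0
      exact ⟨y, fun i g hg => hy1 i g hg, hy2⟩)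
    (fun i j g hg => hM i j g hg)
    (fun i j => hv1 j i)
    (fun i j hij => by have := hMd i j hij; omega)
    (fun i j hij => by
      have h1 : T.deg i = k - 1 := hv2 j i hij
      have h2 : J.deg j = k := by
        by_contra h
        apply hij
        change v j i = 0
        rw [hv4 j h]
        rfl
      omega)
    (by
      rw [Units.val_one, one_smul]
      exact h0)
    (by
      intro i j hj
      have hjk : J.deg j = k := by have := hdk j; omega
      have h1 : (T.d.map (MonoidAlgebra.mapDomainRingHom R H.subtype) *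
          (Matrix.of fun i j => v j i)) i j = M i j := by
        exact (congrFun (hv3 j hjk) i).symm
      have h2 : ((Matrix.of fun i j => v j i) *
          J.d.map (MonoidAlgebra.mapDomainRingHom R H.subtype)) i j = 0 := by
        rw [Matrix.mul_apply]
        apply Finset.sum_eq_zero
        intro l _
        have h3 : J.d l j = 0 := by
          by_contra h3
          have h4 := J.hd l j h3
          have h5 := hdk l
          omega
        rw [Matrix.map_apply, h3, map_zero, mul_zero]
      rw [h1, Matrix.add_apply, Units.val_one, one_smul, h2, add_zero])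
  refine ⟨f, fun i j g hg => hf1 i j g hg, fun i j hij => ?_, ?_⟩
  · have := hf2 i j hij
    omega
  · rw [Units.val_one, one_smul] at hf4
    exact hf4

end Gen

section Star

variable {R G : Type} [Ring R] [StarRing R] [Group G] {H : Subgroup G}

theorem star_emb (s : MonoidAlgebra R H) : star (emb R H s) = emb R H (star s) := by
  ext g
  rw [star_coeff]
  by_cases hg : g ∈ H
  · have h1 := RESAux.emb_coeff_mem H s (⟨g, hg⟩ : H)⁻¹
    have h2 := RESAux.emb_coeff_mem H (star s) ⟨g, hg⟩
    rw [star_coeff] at h2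
    rw [h2, ← h1]
    rfl
  · rw [RESAux.emb_coeff_not_mem H s g⁻¹ (fun h => hg (by simpa using H.inv_mem h)),
      RESAux.emb_coeff_not_mem H (star s) g hg, star_zero]

theorem ext_star {m n : Type} (M : Matrix m n (MonoidAlgebra R H)) :
    (ext (G := G) M)ᴴ = ext Mᴴ := by
  ext1 i j
  exact star_emb (M j i)

/-- E1: the dual version of `extend` -/
theorem extend_dual (hDES : SpecDES) (hFLT : SpecFLT) (C J : FC (MonoidAlgebra R H)) (k : ℤ)
    (X : Set G) (hXr : ∀ h ∈ H, ∀ x ∈ X, x * h ∈ X) (hXl : ∀ h ∈ H, ∀ x ∈ X, h * x ∈ X)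
    (hT : C.dual.ExBelow k) (M : Matrix C.I J.I (MonoidAlgebra R G)) (hM : SuppIn X M)
    (hMd : ∀ i j, M i j ≠ 0 → - C.deg i = J.deg j) (hdk : ∀ j, J.deg j ≤ k)
    (h0 : (ext C.d)ᴴ * M + M * ext J.d = 0)
    (hcol : ∀ j, J.deg j = k → ∃ u, (fun i => M i j) = (ext C.d)ᴴ *ᵥ u) :
    ∃ f : Matrix C.I J.I (MonoidAlgebra R G), SuppIn X f ∧
      (∀ i j, f i j ≠ 0 → - C.deg i = J.deg j - 1) ∧ (ext C.d)ᴴ * f = M + f * ext J.d := by
  rw [ext_star] at h0 ⊢
  rw [ext_star] at hcol
  exact extend hDES hFLT C.dual J k X hXr hXl hT M hM hMd hdk h0 hcol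

theorem ext_mulVec_exv {m n : Type} [Fintype m] (M : Matrix n m (MonoidAlgebra R H))
    (x : m → MonoidAlgebra R H) : exv (G := G) (M *ᵥ x) = ext M *ᵥ exv x := by
  funext i
  change emb R H (∑ j, M i j * x j) = ∑ j, emb R H (M i j) * emb R H (x j)
  rw [map_sum]
  exact Finset.sum_congr rfl fun j _ => map_mul _ _ _

/-- the algebra for `w` -/
theorem w_cocycle {A I K : Type} [Ring A] [StarRing A] [Fintype I] [Fintype K]
    (ε : ℤˣ) (a δ : Matrix I I A) (γ : Matrix K K A) (g f : Matrix I K A)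
    (ha : a = (ε : ℤ) • aᴴ) (hg : δ * g + g * γ = 0) (hf : δᴴ * f = a * g + f * γ) :
    γᴴ * ((ε : ℤ) • (fᴴ * g) - gᴴ * f) + ((ε : ℤ) • (fᴴ * g) - gᴴ * f) * γ = 0 := by
  have h1 : f * γ = δᴴ * f - a * g := by rw [hf]; abel
  have h2 : γᴴ * fᴴ = fᴴ * δ - gᴴ * aᴴ := by
    have := congrArg conjTranspose h1
    rw [conjTranspose_mul, conjTranspose_sub, conjTranspose_mul, conjTranspose_mul,
      conjTranspose_conjTranspose] at this
    exact this
  have h3 : g * γ = -(δ * g) := eq_neg_of_add_eq_zero_right hg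
  have h4 : γᴴ * gᴴ = -(gᴴ * δᴴ) := by
    have := congrArg conjTranspose h3
    rw [conjTranspose_mul, conjTranspose_neg, conjTranspose_mul] at this
    exact this
  have h5 : gᴴ * a * g = (ε : ℤ) • (gᴴ * aᴴ * g) := by
    conv_lhs => rw [ha]
    rw [Matrix.mul_smul, Matrix.smul_mul]
  have e1 : γᴴ * (fᴴ * g) = fᴴ * δ * g - gᴴ * aᴴ * g := by
    rw [← Matrix.mul_assoc, h2, Matrix.sub_mul]
  have e2 : γᴴ * (gᴴ * f) = -(gᴴ * (δᴴ * f)) := by
    rw [← Matrix.mul_assoc, h4, Matrix.neg_mul, Matrix.mul_assoc]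
  have e3 : fᴴ * g * γ = -(fᴴ * δ * g) := by
    rw [Matrix.mul_assoc, h3, Matrix.mul_neg, Matrix.mul_assoc]
  have e4 : gᴴ * f * γ = gᴴ * (δᴴ * f) - gᴴ * a * g := by
    rw [Matrix.mul_assoc, h1, Matrix.mul_sub, Matrix.mul_assoc gᴴ a g]
  rw [Matrix.mul_sub, Matrix.mul_smul, Matrix.sub_mul, Matrix.smul_mul, e1, e2, e3, e4, h5,
    smul_sub, smul_neg]
  abel

theorem w_sym {A I K : Type} [Ring A] [StarRing A] [Fintype I] [Fintype K]
    (ε : ℤˣ) (g f : Matrix I K A) :
    ((ε : ℤ) • (fᴴ * g) - gᴴ * f)ᴴ = -(((1 * ε : ℤˣ) : ℤ) • ((ε : ℤ) • (fᴴ * g) - gᴴ * f)) := by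
  rw [one_mul, conjTranspose_sub, INDAux.star_units, conjTranspose_mul, conjTranspose_mul,
    conjTranspose_conjTranspose, conjTranspose_conjTranspose, smul_sub,
    INDAux.units_smul_smul]
  abel

end Star

end EXFAux

open EXFAux in
/-- **Module EXF**: extension of the forms to the cone. -/
theorem specEXF (hDES : SpecDES) (hFLT : SpecFLT) (hSYM : SpecSYM) : SpecEXF := by
  intro R G _ _ _ H X1 X2 X3 ε C J a μ b k g h1r h1l h1i h1n h3r h3l hNF hC hC' hRD
  have hgH := supp_ext (G := G) g
  have hcg : ext (G := G) C.d * ext g + ext g * ext J.d = 0 := by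
    rw [← ext_mul, ← ext_mul, ← ext_add, hRD.cg, ext_zero]
  -- the columns of degree `k`
  have hker : ∀ j, J.deg j = k → g *ᵥ Pi.single j 1 ∈ Ker C a μ k := by
    intro j hj
    apply hRD.g3
    intro l hl
    by_cases h : l = j
    · rw [h, hj]
    · exact absurd (Pi.single_eq_of_ne h _) hl
  have hcolg : ∀ (M : Matrix C.I C.I (MonoidAlgebra R G)) (j : J.I),
      (M *ᵥ exv (g *ᵥ Pi.single j 1)) = fun i => (M * ext g) i j := by
    intro M j
    have e1 : (exv (G := G) (g *ᵥ Pi.single j (1 : MonoidAlgebra R H))) = fun i => ext g i j := by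
      funext i
      change emb R H ((g *ᵥ Pi.single j 1) i) = emb R H (g i j)
      rw [Matrix.mulVec_single_one]
      rfl
    rw [e1]
    rfl
  -- E1
  obtain ⟨f, hf1, hf2, hf3s⟩ := extend_dual hDES hFLT C J k X1 h1r h1l hC' (a * ext g)
    (INDAux.supp_mul hNF.sa hgH (fun x hx h hh => h1r h hh x hx))
    (by
      intro i j hij
      obtain ⟨l, _, hl⟩ := Finset.exists_ne_zero_of_sum_ne_zero hij
      have e1 := hNF.ga i l (left_ne_zero_of_mul hl)
      have e2 := hRD.gg l j (ext_ne g l j (right_ne_zero_of_mul hl))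
      omega)
    hRD.dk
    (by
      have e2 : (ext (G := G) C.d)ᴴ * (a * ext g) = a * (ext C.d * ext g) := by
        rw [← Matrix.mul_assoc, ← hNF.ca, Matrix.mul_assoc]
      rw [e2, Matrix.mul_assoc a (ext g) (ext J.d), ← Matrix.mul_add, hcg, Matrix.mul_zero])
    (by
      intro j hj
      obtain ⟨-, ⟨u, hu⟩, -⟩ := hker j hj
      refine ⟨u, ?_⟩
      rw [hcolg] at hu
      exact hu)
  -- E2
  obtain ⟨f', hf1', hf2', hf3'⟩ := extend hDES hFLT C J k X3 h3r h3l hC (μ * ext g)
    (INDAux.supp_mul hNF.sm hgH (fun x hx h hh => h3r h hh x hx))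
    (by
      intro i j hij
      obtain ⟨l, _, hl⟩ := Finset.exists_ne_zero_of_sum_ne_zero hij
      have e1 := hNF.gm i l (left_ne_zero_of_mul hl)
      have e2 := hRD.gg l j (ext_ne g l j (right_ne_zero_of_mul hl))
      omega)
    hRD.dk
    (by
      have e2 : ext (G := G) C.d * (μ * ext g) = μ * (ext C.d * ext g) := by
        rw [← Matrix.mul_assoc, ← hNF.cm, Matrix.mul_assoc]
      rw [e2, Matrix.mul_assoc μ (ext g) (ext J.d), ← Matrix.mul_add, hcg, Matrix.mul_zero])
    (by
      intro j hj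
      obtain ⟨-, -, ⟨u, hu⟩⟩ := hker j hj
      refine ⟨u, ?_⟩
      rw [hcolg] at hu
      exact hu)
  -- E3
  obtain ⟨t, ht1, ht2, ht3, ht4⟩ := hSYM R G H X1 J k 1 1 ε
    ((ε : ℤ) • (fᴴ * ext g) - (ext g)ᴴ * f) h1r h1l h1i h1n hRD.dk
    (hFLT R G H X1 J.dual k h1l hRD.g4) le_rfl
    (by
      rw [sub_eq_add_neg]
      refine INDAux.supp_add (INDAux.supp_units ε (INDAux.supp_mul
        (INDAux.supp_star hf1 h1i) hgH (fun x hx h hh => h1r h hh x hx)))
        (INDAux.supp_neg (INDAux.supp_mul (INDAux.supp_star hgH (fun x hx => H.inv_mem hx)) hf1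
          (fun h hh x hx => h1l h hh x hx))))
    (by
      intro i j hij
      have key : ∀ i j, (fᴴ * ext g) i j ≠ 0 → J.deg i + J.deg j = 1 := by
        intro i j hij
        obtain ⟨l, _, hl⟩ := Finset.exists_ne_zero_of_sum_ne_zero hij
        have e1 : f l i ≠ 0 := by
          intro h0
          apply left_ne_zero_of_mul hl
          change star (f l i) = 0
          rw [h0, star_zero]
        have e2 : - C.deg l = J.deg i - 1 := hf2 l i e1
        have e3 := hRD.gg l j (ext_ne g l j (right_ne_zero_of_mul hl))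
        omega
      by_cases h1 : (fᴴ * ext g) i j = 0
      · have h2 : ((ext g)ᴴ * f) i j ≠ 0 := by
          intro h2
          apply hij
          rw [Matrix.sub_apply, Matrix.smul_apply, h1, h2, smul_zero, sub_zero]
        have h3 : (fᴴ * ext g) j i ≠ 0 := by
          intro h3
          apply h2
          have e1 : (ext g)ᴴ * f = (fᴴ * ext g)ᴴ := by
            rw [conjTranspose_mul, conjTranspose_conjTranspose]
          rw [e1, conjTranspose_apply, h3, star_zero]
        have := key j i h3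
        omega
      · exact key i j h1)
    (by
      rw [Units.val_one, one_smul]
      exact w_cocycle ε a (ext C.d) (ext J.d) (ext g) f hNF.ha hcg hf3s)
    (w_sym ε (ext g) f)
  refine ⟨f, f', t, ?_⟩
  exact
    { sf := hf1
      sf' := hf1'
      st := ht1
      gf := fun i j hij => by
        have : - C.deg i = J.deg j - 1 := hf2 i j hij
        omega
      gf' := hf2'
      gt := fun i j hij => by
        have := ht2 i j hij
        omega
      ht := ht3
      cf := hf3s.symm
      cf' := hf3'.symm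
      ct := by
        rw [Units.val_one, one_smul] at ht4
        exact ht4 }

end Pool.Agent.Lib.MP8a3537.AU
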