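import Pool.Agent.Lib.MP_8a3537_gt.AU.Spec
import Pool.Agent.Lib.MP_8a3537_gt.UV.RES

/-!
# AU, module FLT (helper42): flatness of `R[G]` over `R[H]`, with supports
-/

namespace Pool.Agent.Lib.MP8a3537.AU

open Matrix Pool.Agent.Lib.MP8a3537.UV
open Pool.Agent.Lib.MP8a3537.UO (ext)

theorem specFLT : SpecFLT := by
  intro R G _ _ H X T k hX hT x hxX hxk hx0
  classical
  set n := Fintype.card T.I with hn
  let e : T.I ≃ Fin n := Fintype.equivFin T.I
  let p : Matrix (Fin n) (Fin n) (MonoidAlgebra R H) := T.d.submatrix e.symm e.symm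
  let M : Matrix (Fin n) (Fin 1) (MonoidAlgebra R G) := fun i _ => x (e.symm i)
  have hMX : SuppIn X M := fun i _ g hg => hxX (e.symm i) g hg
  have hΘ : ∀ t, ∃ Θ : Matrix (Fin n) (Fin 1) (MonoidAlgebra R H), M.map (lres H t) = p * Θ := by
    intro t
    let xt : T.I → MonoidAlgebra R H := fun i => lres H t (x i)
    have h1 : T.d *ᵥ xt = 0 := by
      funext i
      have h2 : (ext (G := G) T.d *ᵥ x) i = 0 := by rw [hx0]; rfl
      have h3 : (T.d *ᵥ xt) i = lres H t ((ext (G := G) T.d *ᵥ x) i) := by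
        simp only [mulVec, dotProduct]
        rw [RESAux.lres_sum]
        refine Finset.sum_congr rfl fun j _ => ?_
        exact (RESAux.lres_emb_mul H t (x j) (T.d i j)).symm
      rw [h3, h2, RESAux.lres_zero]
      rfl
    have h4 : ∀ i, xt i ≠ 0 → T.deg i < k := by
      intro i hi
      apply hxk i
      intro h0
      apply hi
      show lres H t (x i) = 0
      rw [h0, RESAux.lres_zero]
    obtain ⟨y, hy⟩ := hT xt h4 h1
    refine ⟨fun i _ => y (e.symm i), ?_⟩
    ext1 i j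
    have h5 : xt (e.symm i) = (T.d *ᵥ y) (e.symm i) := by rw [← hy]
    show xt (e.symm i) = ∑ l, T.d (e.symm i) (e.symm l) * y (e.symm l)
    rw [h5, mulVec, dotProduct]
    exact (Equiv.sum_comp e.symm (fun l => T.d (e.symm i) l * y l)).symm
  obtain ⟨θ, hθX, hθ⟩ := RESAux.LF H p M X hX hMX hΘ
  refine ⟨fun i => θ (e i) 0, fun i g hg => hθX (e i) 0 g hg, ?_⟩
  funext i
  have h6 : M (e i) 0 = (p.map (emb R H) * θ) (e i) 0 := by rw [← hθ]
  have h7 : M (e i) 0 = x i := by
    show x (e.symm (e i)) = x i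
    rw [Equiv.symm_apply_apply]
  rw [← h7, h6, Matrix.mul_apply, mulVec, dotProduct]
  rw [← Equiv.sum_comp e]
  refine Finset.sum_congr rfl fun j _ => ?_
  show emb R H (T.d (e.symm (e i)) (e.symm (e j))) * θ (e j) 0 = _
  rw [Equiv.symm_apply_apply, Equiv.symm_apply_apply]
  rfl

end Pool.Agent.Lib.MP8a3537.AU
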