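import Pool.Agent.Lib.MP_8a3537_gt.AU.Spec
import Pool.Agent.Lib.MP_8a3537_gt.UV.IND
import Pool.Agent.Lib.MP_8a3537_gt.UV.RES

/-!
# AU, module LVL: one level
-/

namespace Pool.Agent.Lib.MP8a3537.AU

open Matrix Pool.Agent.Lib.MP8a3537.UV
open Pool.Agent.Lib.MP8a3537.UO (ext)

namespace LVLAux

section Gen

variable {R G : Type} [Ring R] [Group G] {H : Subgroup G}

theorem lres_exv {n : Type} (x : n → MonoidAlgebra R H) (i : n) :
    lres H 1 (exv (G := G) x i) = x i := by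
  ext h
  rw [lres_coeff, mul_one]
  exact RESAux.emb_coeff_mem H (x i) h

theorem lres_ext_mulVec {m n : Type} [Fintype n] (M : Matrix m n (MonoidAlgebra R H))
    (u : n → MonoidAlgebra R G) (i : m) :
    lres H 1 ((ext M *ᵥ u) i) = (M *ᵥ fun j => lres H 1 (u j)) i := by
  change lres H 1 (∑ j, emb R H (M i j) * u j) = ∑ j, M i j * lres H 1 (u j)
  rw [RESAux.lres_sum]
  exact Finset.sum_congr rfl fun j _ => RESAux.lres_emb_mul H 1 (u j) (M i j)

theorem down {m n : Type} [Fintype n] (M : Matrix m n (MonoidAlgebra R H))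
    (x : m → MonoidAlgebra R H) (u : n → MonoidAlgebra R G)
    (h : ∀ i, exv x i = (ext M *ᵥ u) i) : ∃ y, x = M *ᵥ y := by
  refine ⟨fun j => lres H 1 (u j), ?_⟩
  funext i
  rw [← lres_ext_mulVec, ← h i, lres_exv]

theorem step_ex {S : Type} [Ring S] (D : FC S) (k : ℤ) (hB : D.ExBelow k)
    (hk : ∀ x ∈ D.Cy k, ∃ y, x = D.d *ᵥ y) : D.ExBelow (k + 1) := by
  intro x hx hdx
  set xk : D.I → S := fun i => if D.deg i = k then x i else 0 with hxk
  have hxk0 : ∀ i, xk i ≠ 0 → D.deg i = k := by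
    intro i hi
    by_contra hne
    exact hi (if_neg hne)
  have hdk : D.d *ᵥ xk = 0 := by
    funext i
    by_cases hi : D.deg i = k + 1
    · have h1 : (D.d *ᵥ xk) i = (D.d *ᵥ x) i := by
        apply Finset.sum_congr rfl
        intro j _
        by_cases hj : D.deg j = k
        · rw [hxk]
          change D.d i j * (if D.deg j = k then x j else 0) = _
          rw [if_pos hj]
        · have h0 : D.d i j = 0 := by
            by_contra h0
            have := D.hd i j h0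
            omega
          change D.d i j * _ = D.d i j * _
          rw [h0, zero_mul, zero_mul]
      rw [h1, hdx]
    · apply Finset.sum_eq_zero
      intro j _
      change D.d i j * xk j = 0
      by_cases hj : D.deg j = k
      · have h0 : D.d i j = 0 := by
          by_contra h0
          have := D.hd i j h0
          omega
        rw [h0, zero_mul]
      · have : xk j = 0 := if_neg hj
        rw [this, mul_zero]
  obtain ⟨y1, hy1⟩ := hk xk ⟨hxk0, hdk⟩
  have hx' : ∀ i, (x - xk) i ≠ 0 → D.deg i < k := by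
    intro i hi
    have h1 : D.deg i ≠ k := by
      intro h
      apply hi
      change x i - (if D.deg i = k then x i else 0) = 0
      rw [if_pos h, sub_self]
    have h2 : x i ≠ 0 := by
      intro h
      apply hi
      change x i - (if D.deg i = k then x i else 0) = 0
      rw [if_neg h1, h, sub_zero]
    have := hx i h2
    omega
  obtain ⟨y2, hy2⟩ := hB (x - xk) hx' (by rw [mulVec_sub, hdx, hdk, sub_zero])
  refine ⟨y2 + y1, ?_⟩
  rw [mulVec_add, ← hy1, ← hy2, sub_add_cancel]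

end Gen

section Star

variable {R G : Type} [Ring R] [StarRing R] [Group G] {H : Subgroup G}

theorem star_emb (s : MonoidAlgebra R H) : star (emb R H s) = emb R H (star s) := by
  ext g
  rw [star_coeff]
  by_cases hg : g ∈ H
  · have h1 := RESAux.emb_coeff_mem H s (⟨g, hg⟩ : H)⁻¹
    have h2 := RESAux.emb_coeff_mem H (star s) ⟨g, hg⟩
    rw [star_coeff] at h2
    rw [h2, ← h1]
    rfl
  · rw [RESAux.emb_coeff_not_mem H s g⁻¹ (fun h => hg (by simpa using H.inv_mem h)),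
      RESAux.emb_coeff_not_mem H (star s) g hg, star_zero]

theorem ext_star {m n : Type} (M : Matrix m n (MonoidAlgebra R H)) :
    (ext (G := G) M)ᴴ = ext Mᴴ := by
  ext1 i j
  exact star_emb (M j i)

theorem exBelow_dd (C : FC (MonoidAlgebra R H)) (k : ℤ) (h : C.ExBelow k) :
    C.dual.dual.ExBelow k := by
  intro x hx hdx
  have hd : C.dual.dual.d = C.d := conjTranspose_conjTranspose C.d
  rw [hd] at hdx ⊢
  refine h x (fun i hi => ?_) hdx
  have h1 : - - C.deg i < k := hx i hi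
  omega

theorem exv_zero {n : Type} : exv (G := G) (0 : n → MonoidAlgebra R H) = 0 := by
  funext i
  exact map_zero (MonoidAlgebra.mapDomainRingHom R H.subtype)

/-- level `k` is finished if the nil length is zero -/
theorem row_zero (ε : ℤˣ) (C : FC (MonoidAlgebra R H)) (a μ b : Matrix C.I C.I (MonoidAlgebra R G))
    (k : ℤ) (hB : C.ExBelow k) (hB' : C.dual.ExBelow k) (h1 : Row1 ε C a μ b k 0)
    (h2 : Row2 ε C a μ b k 0) : C.ExBelow (k + 1) ∧ C.dual.ExBelow (k + 1) := by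
  constructor
  · apply step_ex C k hB
    intro x hx
    obtain ⟨u, hu⟩ := h1 x hx 0 (Submodule.zero_mem _)
    refine down C.d x u (fun i => ?_)
    rw [← hu i, pow_zero, one_mulVec]
    rfl
  · apply step_ex C.dual k hB'
    intro y hy
    obtain ⟨u, hu⟩ := h2 0 (Submodule.zero_mem _) y hy
    refine down C.dual.d y u (fun i => ?_)
    have h3 := hu i
    rw [ext_star, pow_zero, one_mulVec] at h3
    exact h3

theorem xinv_xinv (X : Set G) : Xinv (Xinv X) = X := by
  ext x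
  change x⁻¹⁻¹ ∈ X ↔ x ∈ X
  rw [inv_inv]

end Star

theorem main (hSTE : SpecSTE) (hSWA : SpecSWA) {R G : Type} [Ring R] [StarRing R] [Group G]
    {H : Subgroup G} {X1 X2 X3 Yp Ym : Set G} (P : PingPong H X1 X2 X3 Yp Ym) (ε : ℤˣ)
    (hA : AuslanderRegular (MonoidAlgebra R H)) (k l : ℕ) :
    ∀ (C : FC (MonoidAlgebra R H)) (a μ b : Matrix C.I C.I (MonoidAlgebra R G)),
    NF H X1 X2 X3 ε C a μ b → C.ExBelow k → C.dual.ExBelow k →
    Row1 ε C a μ b k l → Row2 ε C a μ b k l →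
    ∃ (C' : FC (MonoidAlgebra R H)) (a' μ' b' : Matrix C'.I C'.I (MonoidAlgebra R G)),
      NF H X1 X2 X3 ε C' a' μ' b' ∧ C'.ExBelow (k + 1 : ℕ) ∧ C'.dual.ExBelow (k + 1 : ℕ) ∧
      (Good X1 X2 ε C' a' μ' b' → Good X1 X2 ε C a μ b) := by
  induction l with
  | zero =>
    intro C a μ b hNF hB hB' h1 h2
    obtain ⟨h3, h4⟩ := row_zero ε C a μ b k hB hB' h1 h2
    refine ⟨C, a, μ, b, hNF, ?_, ?_, fun h => h⟩
    · rw [Nat.cast_add, Nat.cast_one]; exact h3
    · rw [Nat.cast_add, Nat.cast_one]; exact h4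
  | succ l ih =>
    intro C a μ b hNF hB hB' h1 h2
    obtain ⟨C1, a1, μ1, b1, hN1, hE1, hE1', r1, r2, r3, -, hG1⟩ :=
      hSTE R G H X1 X2 X3 Yp Ym P ε hA C a μ b k l hNF hB hB' h1 h2
    obtain ⟨hs1, hs2, hs3⟩ := hSWA R G H X1 X2 X3 ε C1 a1 μ1 b1 hN1
    obtain ⟨C2, a2, μ2, b2, hN2, hE2, hE2', -, -, s3, s4, hG2⟩ :=
      hSTE R G H X2 X1 (Xinv X3) Ym Yp (INDAux.pp_swap P) ε hA C1.dual b1 μ1ᴴ a1 k l hs1 hE1'
        (exBelow_dd C1 k hE1) ((hs2 k (l + 1)).1 r2) ((hs2 k (l + 1)).2 r1)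
    have s5 := s4 ((hs2 k l).2 r3)
    obtain ⟨ht1, ht2, ht3⟩ := hSWA R G H X2 X1 (Xinv X3) ε C2 a2 μ2 b2 hN2
    rw [xinv_xinv] at ht1
    obtain ⟨C', a', μ', b', hN', hE', hE'', hG'⟩ :=
      ih C2.dual b2 μ2ᴴ a2 ht1 hE2' (exBelow_dd C2 k hE2) ((ht2 k l).1 s5) ((ht2 k l).2 s3)
    exact ⟨C', a', μ', b', hN', hE', hE'', fun h => hG1 (hs3 (hG2 (ht3 (hG' h))))⟩

end LVLAux

/-- **Module LVL**: one level. -/
theorem specLVL (hSTE : SpecSTE) (hSWA : SpecSWA) : SpecLVL := by
  intro R G _ _ _ H X1 X2 X3 Yp Ym P ε hA C a μ b k hNF hB hB'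
  obtain ⟨l, hl⟩ := hNF.nil
  refine LVLAux.main hSTE hSWA P ε hA k l C a μ b hNF hB hB' ?_ ?_
  · intro x _ y _
    refine ⟨0, fun i => ?_⟩
    rw [hl, zero_mulVec, mulVec_zero]
    rfl
  · intro x _ y _
    refine ⟨0, fun i => ?_⟩
    rw [hl, zero_mulVec, mulVec_zero]
    rfl

end Pool.Agent.Lib.MP8a3537.AU
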