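import Pool.Agent.Lib.MP_8a3537_gt.AU.Spec
import Pool.Agent.Lib.MP_8a3537_gt.UV.TRE
import Pool.Agent.Lib.MP_8a3537_gt.UV.IND
import Pool.Agent.Lib.MP_8a3537_gt.UV.SWP

/-!
# AU, module FNU: the theorem
-/

namespace Pool.Agent.Lib.MP8a3537.AU

open Matrix Pool.Agent.Lib.MP8a3537.UV
open Pool.Agent.Lib.MP8a3537.UO (ext)

namespace FNUAux

section Iso

variable {A : Type} [Ring A] [StarRing A] {ε : ℤˣ}

/-- A form is isometric to the reindexed form. -/
theorem isom_reindex {ι κ : Type} [Fintype ι] [DecidableEq ι] [Fintype κ] [DecidableEq κ]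
    (e : κ ≃ ι) (Ψ : Matrix ι ι A) : Isometric ε Ψ (Ψ.submatrix e e) := by
  refine ⟨(1 : Matrix ι ι A).submatrix id e, (1 : Matrix ι ι A).submatrix e id, 0, ?_, ?_, ?_⟩
  · have h := Matrix.submatrix_mul_equiv (1 : Matrix ι ι A) (1 : Matrix ι ι A) id e id
    rw [Matrix.mul_one, submatrix_id_id] at h
    exact h
  · have h := Matrix.submatrix_mul (1 : Matrix ι ι A) (1 : Matrix ι ι A) e id e
      Function.bijective_id
    rw [Matrix.mul_one, submatrix_one_equiv] at h
    exact h.symm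
  · have h1 : ((1 : Matrix ι ι A).submatrix id e)ᴴ = (1 : Matrix ι ι A).submatrix e id := by
      rw [conjTranspose_submatrix, conjTranspose_one]
    rw [h1, conjTranspose_zero, smul_zero, sub_zero, add_zero]
    ext i j
    simp [Matrix.mul_apply, Matrix.one_apply]

theorem UF_submatrix {n m : Type} [Fintype n] [DecidableEq n] [Fintype m] [DecidableEq m]
    (e : m ≃ n) (ψ μ χ : Matrix n n A) :
    (UF ψ μ χ).submatrix (Equiv.sumCongr e e) (Equiv.sumCongr e e) =
      UF (ψ.submatrix e e) (μ.submatrix e e) (χ.submatrix e e) := by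
  ext i j
  rcases i with i | i <;> rcases j with j | j <;>
    simp [UF, Matrix.one_apply, e.injective.eq_iff]

theorem stab_reindex {n m : Type} [Fintype n] [DecidableEq n] [Fintype m] [DecidableEq m]
    (e : m ≃ n) (ψ μ χ : Matrix n n A)
    (h : StablyHyperbolic ε (UF (ψ.submatrix e e) (μ.submatrix e e) (χ.submatrix e e))) :
    StablyHyperbolic ε (UF ψ μ χ) := by
  rw [← UF_submatrix] at h
  exact SWPAux.stab_of_isom (isom_reindex _ _) h

end Iso

/-- The module `S^n` as a complex in degree `0`. -/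
def C0 (S : Type) [Ring S] (n : ℕ) : FC S where
  I := Fin n
  deg _ := 0
  d := 0
  hd _ _ h := absurd rfl h
  dd := Matrix.zero_mul 0

theorem ext_zero {R G : Type} [Ring R] [Group G] {H : Subgroup G} {m n : Type} :
    ext (G := G) (0 : Matrix m n (MonoidAlgebra R H)) = 0 := by
  funext i j
  exact map_zero (MonoidAlgebra.mapDomainRingHom R H.subtype)

section Zero

variable {n : Type} [Fintype n] {A : Type} [Ring A] [StarRing A]

theorem zero_a (M : Matrix n n A) : M * 0 = (0 : Matrix n n A)ᴴ * M := by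
  rw [Matrix.mul_zero, conjTranspose_zero, Matrix.zero_mul]

omit [StarRing A] in
theorem zero_m (M : Matrix n n A) : M * 0 = (0 : Matrix n n A) * M := by
  rw [Matrix.mul_zero, Matrix.zero_mul]

theorem zero_b (M : Matrix n n A) : M * (0 : Matrix n n A)ᴴ = (0 : Matrix n n A) * M := by
  rw [conjTranspose_zero, Matrix.mul_zero, Matrix.zero_mul]

end Zero

end FNUAux

open FNUAux in
theorem specFNU (hLVL : SpecLVL) (hACY : SpecACY) (hENV : SpecENV) : SpecFNU := by
  intro R G V _ _ _ _ T v w hT hadj hvw hinv htor hreg ε n ψ μ χ hψ hμ hχ hnil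
  obtain ⟨Yp, Ym, P⟩ := specTRE G V T v w hT hadj hvw hinv htor
  set H := MulAction.stabilizer G v ⊓ MulAction.stabilizer G w with hH
  set X1 : Set G := {g | g • v = v ∧ g • w ≠ w} with hX1
  set X2 : Set G := {g | g • w = w ∧ g • v ≠ v} with hX2
  set X3 : Set G := {g | g • v = w} with hX3
  have ha : SuppIn X1 (ψ + (ε : ℤ) • ψᴴ) :=
    INDAux.supp_add hψ (INDAux.supp_units ε (INDAux.supp_star hψ P.X1i))
  have hb : SuppIn X2 (χ + (ε : ℤ) • χᴴ) :=
    INDAux.supp_add hχ (INDAux.supp_units ε (INDAux.supp_star hχ P.X2i))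
  have hd0 : ext (G := G) (C0 (MonoidAlgebra R H) n).d = 0 := ext_zero
  have hNF : NF H X1 X2 X3 ε (C0 (MonoidAlgebra R H) n) (ψ + (ε : ℤ) • ψᴴ) μ
      (χ + (ε : ℤ) • χᴴ) :=
    { sa := ha
      sm := hμ
      sb := hb
      ga := fun i j _ => rfl
      gm := fun i j _ => rfl
      gb := fun i j _ => rfl
      ha := INDAux.sym_of ε ψ
      hb := INDAux.sym_of ε χ
      ca := by
        rw [hd0]
        exact zero_a _
      cm := by
        rw [hd0]
        exact zero_m _
      cb := by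
        rw [hd0]
        exact zero_b _
      nil := hnil }
  have hlev : ∀ k : ℕ, ∃ (C' : FC (MonoidAlgebra R H))
      (a' μ' b' : Matrix C'.I C'.I (MonoidAlgebra R G)),
      NF H X1 X2 X3 ε C' a' μ' b' ∧ C'.ExBelow k ∧ C'.dual.ExBelow k ∧
      (Good X1 X2 ε C' a' μ' b' →
        Good X1 X2 ε (C0 (MonoidAlgebra R H) n) (ψ + (ε : ℤ) • ψᴴ) μ (χ + (ε : ℤ) • χᴴ)) := by
    intro k
    induction k with
    | zero =>
      refine ⟨_, _, _, _, hNF, ?_, ?_, id⟩
      · intro x hx _
        refine ⟨0, ?_⟩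
        rw [mulVec_zero]
        funext i
        by_contra h
        exact absurd (hx i h) (by simp [C0])
      · intro x hx _
        refine ⟨0, ?_⟩
        rw [mulVec_zero]
        funext i
        by_contra h
        have h1 : - (0 : ℤ) < ((0 : ℕ) : ℤ) := hx i h
        simp at h1
    | succ k ih =>
      obtain ⟨C', a', μ', b', h1, h2, h3, h4⟩ := ih
      obtain ⟨C'', a'', μ'', b'', g1, g2, g3, g4⟩ :=
        hLVL R G H X1 X2 X3 Yp Ym P ε hreg C' a' μ' b' k h1 h2 h3
      exact ⟨C'', a'', μ'', b'', g1, g2, g3, fun h => h4 (g4 h)⟩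
  obtain ⟨k, hk⟩ := hACY (MonoidAlgebra R H) hreg
  obtain ⟨C', a', μ', b', h1, h2, h3, h4⟩ := hlev k
  have hgood := h4 (hENV R G H X1 X2 X3 ε C' a' μ' b' P.X1r P.X1l P.X1i P.X1n P.X2r P.X2l P.X2i
    P.X2n h1 (hk C' h2 h3))
  let e : {i // (C0 (MonoidAlgebra R H) n).deg i = 0} ≃ Fin n :=
    { toFun := fun i => i.1
      invFun := fun i => ⟨i, rfl⟩
      left_inv := fun i => rfl
      right_inv := fun i => rfl }
  apply stab_reindex e
  exact hgood (ψ.submatrix e e) (χ.submatrix e e) (fun i j g hg => hψ _ _ g hg)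
    (fun i j g hg => hχ _ _ g hg) rfl rfl

end Pool.Agent.Lib.MP8a3537.AU
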