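import Pool.Agent.Lib.MP_8a3537_gt.AU.Spec

/-!
# Module CNE: exactness of the cone and of its dual
-/

namespace Pool.Agent.Lib.MP8a3537.AU

open Matrix Pool.Agent.Lib.MP8a3537.UV
open Pool.Agent.Lib.MP8a3537.UO (ext)

namespace CNEAux

variable {I J A : Type} [Ring A]

open Classical in
/-- The components of `y` whose degrees satisfy `p`. -/
noncomputable def cut (dg : J → ℤ) (p : ℤ → Prop) (y : J → A) : J → A :=
  fun j => if p (dg j) then y j else 0

theorem cut_supp {dg : J → ℤ} {p : ℤ → Prop} {y : J → A} {j : J} (h : cut dg p y j ≠ 0) :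
    p (dg j) ∧ y j ≠ 0 := by
  unfold cut at h
  split_ifs at h with h1
  · exact ⟨h1, h⟩
  · exact absurd rfl h

theorem cut_neg (dg : J → ℤ) (p : ℤ → Prop) (y : J → A) : cut dg p (-y) = - cut dg p y := by
  funext j
  simp only [cut, Pi.neg_apply]
  split_ifs
  · rfl
  · simp

theorem cut_eq {dg : J → ℤ} {p : ℤ → Prop} {y : J → A} (h : ∀ j, y j ≠ 0 → p (dg j)) :
    cut dg p y = y := by
  funext j
  simp only [cut]
  split_ifs with h1
  · rfl
  · by_contra h2
    exact h1 (h j fun h3 => h2 h3.symm)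

/-- A homogeneous matrix commutes with the cuts. -/
theorem mul_cut [Fintype J] (M : Matrix I J A) (di : I → ℤ) (dj : J → ℤ)
    (p q : ℤ → Prop) (hM : ∀ i j, M i j ≠ 0 → (p (dj j) ↔ q (di i))) (y : J → A) :
    M *ᵥ cut dj p y = cut di q (M *ᵥ y) := by
  funext i
  simp only [cut, mulVec, dotProduct]
  by_cases h : q (di i)
  · rw [if_pos h]
    refine Finset.sum_congr rfl fun j _ => ?_
    by_cases h0 : M i j = 0
    · rw [h0, zero_mul, zero_mul]
    · rw [if_pos ((hM i j h0).2 h)]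
  · rw [if_neg h]
    refine Finset.sum_eq_zero fun j _ => ?_
    by_cases h0 : M i j = 0
    · rw [h0, zero_mul]
    · rw [if_neg fun h1 => h ((hM i j h0).1 h1), mul_zero]

theorem mul_supp [Fintype J] (M : Matrix I J A) {y : J → A} {i : I} (h : (M *ᵥ y) i ≠ 0) :
    ∃ j, M i j ≠ 0 ∧ y j ≠ 0 := by
  simp only [mulVec, dotProduct] at h
  obtain ⟨j, _, hj⟩ := Finset.exists_ne_zero_of_sum_ne_zero h
  exact ⟨j, left_ne_zero_of_mul hj, right_ne_zero_of_mul hj⟩

theorem star_ext {R G : Type} [Ring R] [StarRing R] [Group G] (H : Subgroup G)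
    (s : MonoidAlgebra R H) :
    star (MonoidAlgebra.mapDomainRingHom R H.subtype s) =
      MonoidAlgebra.mapDomainRingHom R H.subtype (star s) := by
  induction s using MonoidAlgebra.induction_linear with
  | zero => simp
  | add f g hf hg => simp only [map_add, star_add, hf, hg]
  | single a r =>
    rw [star_single]
    simp only [MonoidAlgebra.mapDomainRingHom_apply, MonoidAlgebra.mapDomain_single, star_single]
    simp

theorem ext_conj {R G : Type} [Ring R] [StarRing R] [Group G] {H : Subgroup G} {m n : Type}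
    (M : Matrix m n (MonoidAlgebra R H)) :
    (ext Mᴴ : Matrix n m (MonoidAlgebra R G)) = (ext M)ᴴ := by
  refine Matrix.ext fun i j => ?_
  exact (star_ext H (M j i)).symm

theorem exBelow_cone {S : Type} [Ring S] [StarRing S] (C J : FC S) (k : ℤ)
    (Z : Submodule Sᵐᵒᵖ (C.I → S)) (g : Matrix C.I J.I S) (h : RD C k Z J g)
    (hC : C.ExBelow k) : (cone C J g h.gg h.cg).ExBelow k := by
  intro v hv hdv
  set x : C.I → S := v ∘ Sum.inl with hx
  set y : J.I → S := v ∘ Sum.inr with hy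
  have hxd : ∀ i, x i ≠ 0 → C.deg i < k := fun i hi => hv (Sum.inl i) hi
  have hyd : ∀ j, y j ≠ 0 → J.deg j ≤ k := fun j _ => h.dk j
  have h1 : Sum.elim (C.d *ᵥ x + g *ᵥ y) ((0 : Matrix J.I C.I S) *ᵥ x + J.d *ᵥ y) = 0 := by
    exact (fromBlocks_mulVec C.d g 0 J.d v).symm.trans hdv
  have h2 : C.d *ᵥ x + g *ᵥ y = 0 := by
    funext i
    exact congrFun h1 (Sum.inl i)
  have h3 : J.d *ᵥ y = 0 := by
    funext j
    have := congrFun h1 (Sum.inr j)
    simpa using this
  -- the component of degree `k` of `y`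
  set yk := cut J.deg (fun q => q = k) y with hyk
  have hdyk : J.d *ᵥ yk = 0 := by
    funext i
    by_contra hi
    obtain ⟨j, hj, hj'⟩ := mul_supp J.d hi
    have h4 := J.hd i j hj
    have h5 := (cut_supp hj').1
    have h6 := h.dk i
    omega
  have hgyk : g *ᵥ yk = C.d *ᵥ (- cut C.deg (fun q => q + 1 = k) x) := by
    rw [mulVec_neg, hyk, mul_cut g C.deg J.deg (fun q => q = k) (fun q => q = k)
      (fun i j hij => by rw [h.gg i j hij]), mul_cut C.d C.deg C.deg (fun q => q + 1 = k)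
      (fun q => q = k) (fun i j hij => by rw [C.hd i j hij]), ← cut_neg]
    congr 1
    exact eq_neg_of_add_eq_zero_right h2
  obtain ⟨z1, hz1⟩ := h.g2 yk (fun j hj => (cut_supp hj).1) ⟨_, hgyk⟩
  obtain ⟨z2, hz2⟩ := h.g1 (y - yk) (fun j hj => by
    have h4 := h.dk j
    rcases lt_or_eq_of_le h4 with h5 | h5
    · exact h5
    · exfalso
      apply hj
      rw [Pi.sub_apply, hyk]
      simp [cut, h5]) (by rw [mulVec_sub, h3, hdyk, sub_zero])
  set z := cut J.deg (fun q => q < k) (z1 + z2) with hz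
  have hdz : J.d *ᵥ z = y := by
    have h4 : J.d *ᵥ (z1 + z2) = y := by
      rw [mulVec_add, ← hz1, ← hz2]
      abel
    rw [hz, mul_cut J.d J.deg J.deg (fun q => q < k) (fun q => q ≤ k)
      (fun i j hij => by
        have := J.hd i j hij
        constructor <;> intro h5 <;> omega), h4]
    exact cut_eq hyd
  obtain ⟨w, hw⟩ := hC (x - g *ᵥ z) (fun i hi => by
    by_contra hcon
    apply hi
    rw [Pi.sub_apply]
    have h4 : x i = 0 := by
      by_contra h5
      exact hcon (hxd i h5)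
    have h5 : (g *ᵥ z) i = 0 := by
      by_contra h6
      obtain ⟨j, hj, hj'⟩ := mul_supp g h6
      have h7 := (cut_supp hj').1
      have h8 := h.gg i j hj
      omega
    rw [h4, h5, sub_zero]) (by
    rw [mulVec_sub, mulVec_mulVec, eq_neg_of_add_eq_zero_left h.cg, neg_mulVec, ← mulVec_mulVec,
      hdz, sub_neg_eq_add]
    exact h2)
  refine ⟨Sum.elim w z, ?_⟩
  have h4 : (cone C J g h.gg h.cg).d *ᵥ Sum.elim w z =
      Sum.elim (C.d *ᵥ w + g *ᵥ z) ((0 : Matrix J.I C.I S) *ᵥ w + J.d *ᵥ z) :=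
    fromBlocks_mulVec C.d g 0 J.d (Sum.elim w z)
  rw [h4, zero_mulVec, zero_add, hdz, ← hw, sub_add_cancel]
  exact (Sum.elim_comp_inl_inr v).symm

theorem exBelow_cone_dual {S : Type} [Ring S] [StarRing S] (C J : FC S) (k : ℤ)
    (Z : Submodule Sᵐᵒᵖ (C.I → S)) (g : Matrix C.I J.I S) (h : RD C k Z J g)
    (hC : C.dual.ExBelow k) : (cone C J g h.gg h.cg).dual.ExBelow k := by
  intro v hv hdv
  set x : C.I → S := v ∘ Sum.inl with hx
  set y : J.I → S := v ∘ Sum.inr with hy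
  have hxd : ∀ i, x i ≠ 0 → - C.deg i < k := fun i hi => hv (Sum.inl i) hi
  have hyd : ∀ j, y j ≠ 0 → - (J.deg j - 1) < k := fun j hj => hv (Sum.inr j) hj
  have hd : (cone C J g h.gg h.cg).dual.d = fromBlocks C.dᴴ 0 gᴴ J.dᴴ := by
    have : (cone C J g h.gg h.cg).dual.d = (fromBlocks C.d g 0 J.d)ᴴ := rfl
    rw [this, fromBlocks_conjTranspose, conjTranspose_zero]
  have h1 : Sum.elim (C.dᴴ *ᵥ x + (0 : Matrix C.I J.I S) *ᵥ y) (gᴴ *ᵥ x + J.dᴴ *ᵥ y) = 0 := by
    rw [hd] at hdv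
    exact (fromBlocks_mulVec C.dᴴ 0 gᴴ J.dᴴ v).symm.trans hdv
  have h2 : C.dᴴ *ᵥ x = 0 := by
    funext i
    have := congrFun h1 (Sum.inl i)
    simpa using this
  have h3 : gᴴ *ᵥ x + J.dᴴ *ᵥ y = 0 := by
    funext j
    exact congrFun h1 (Sum.inr j)
  obtain ⟨x', hx'⟩ := hC x hxd h2
  have hx' : x = C.dᴴ *ᵥ x' := hx'
  have hCd : ∀ i j, C.dᴴ i j ≠ 0 → C.deg j = C.deg i + 1 := by
    intro i j hij
    apply C.hd j i
    intro h0
    apply hij
    rw [conjTranspose_apply, h0, star_zero]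
  have hgd : ∀ j i, gᴴ j i ≠ 0 → C.deg i = J.deg j := by
    intro j i hij
    apply h.gg i j
    intro h0
    apply hij
    rw [conjTranspose_apply, h0, star_zero]
  set x'' := cut C.deg (fun q => - q < k - 1) x' with hx''
  have hdx : C.dᴴ *ᵥ x'' = x := by
    rw [hx'', mul_cut C.dᴴ C.deg C.deg (fun q => - q < k - 1) (fun q => - q < k)
      (fun i j hij => by
        have := hCd i j hij
        constructor <;> intro h5 <;> omega), ← hx']
    exact cut_eq hxd
  have hcg : J.dᴴ * gᴴ = - (gᴴ * C.dᴴ) := by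
    have h4 := congrArg conjTranspose h.cg
    rw [conjTranspose_add, conjTranspose_mul, conjTranspose_mul, conjTranspose_zero] at h4
    exact eq_neg_of_add_eq_zero_right h4
  obtain ⟨z, hz⟩ := h.g4 (y - gᴴ *ᵥ x'') (fun j hj => by
    show - J.deg j < k
    by_contra hcon
    apply hj
    rw [Pi.sub_apply]
    have h4 : y j = 0 := by
      by_contra h5
      have := hyd j h5
      omega
    have h5 : (gᴴ *ᵥ x'') j = 0 := by
      by_contra h6
      obtain ⟨i, hi, hi'⟩ := mul_supp gᴴ h6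
      have h7 := (cut_supp hi').1
      have h8 := hgd j i hi
      omega
    rw [h4, h5, sub_zero]) (by
    show J.dᴴ *ᵥ (y - gᴴ *ᵥ x'') = 0
    rw [mulVec_sub, mulVec_mulVec, hcg, neg_mulVec, ← mulVec_mulVec, hdx, sub_neg_eq_add, add_comm]
    exact h3)
  have hz : y - gᴴ *ᵥ x'' = J.dᴴ *ᵥ z := hz
  refine ⟨Sum.elim x'' z, ?_⟩
  have h4 : (fromBlocks C.dᴴ 0 gᴴ J.dᴴ) *ᵥ Sum.elim x'' z =
      Sum.elim (C.dᴴ *ᵥ x'' + (0 : Matrix C.I J.I S) *ᵥ z) (gᴴ *ᵥ x'' + J.dᴴ *ᵥ z) :=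
    fromBlocks_mulVec C.dᴴ 0 gᴴ J.dᴴ (Sum.elim x'' z)
  rw [hd]
  refine Eq.trans ?_ h4.symm
  rw [zero_mulVec, add_zero, hdx, ← hz, add_sub_cancel]
  exact (Sum.elim_comp_inl_inr v).symm

theorem part3 {R G : Type} [Ring R] [StarRing R] [Group G] (H : Subgroup G)
    (C J : FC (MonoidAlgebra R H)) (k : ℤ)
    (Z : Submodule (MonoidAlgebra R H)ᵐᵒᵖ (C.I → MonoidAlgebra R H))
    (g : Matrix C.I J.I (MonoidAlgebra R H)) (h : RD C k Z J g)
    (hJ : ExA (G := G) J.dual k Set.univ)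
    (x : C.I → MonoidAlgebra R G) (y : J.I → MonoidAlgebra R G)
    (hxd : ∀ i, x i ≠ 0 → - C.deg i = k) (hyd : ∀ j, y j ≠ 0 → 1 - J.deg j = k)
    (h3 : (ext g)ᴴ *ᵥ x + (ext J.d)ᴴ *ᵥ y = 0) (hx : ∃ u, x = (ext C.d)ᴴ *ᵥ u) :
    ∃ u v, x = (ext C.d)ᴴ *ᵥ u ∧ y = (ext g)ᴴ *ᵥ u + (ext J.d)ᴴ *ᵥ v := by
  obtain ⟨x', hx'⟩ := hx
  have hext : ∀ {m n : Type} (M : Matrix m n (MonoidAlgebra R H)) i j,
      (ext M : Matrix m n (MonoidAlgebra R G)) i j ≠ 0 → M i j ≠ 0 := by
    intro m n M i j hij h0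
    apply hij
    show MonoidAlgebra.mapDomainRingHom R H.subtype (M i j) = 0
    rw [h0, map_zero]
  have hCd : ∀ i j, ((ext C.d)ᴴ : Matrix C.I C.I (MonoidAlgebra R G)) i j ≠ 0 →
      C.deg j = C.deg i + 1 := by
    intro i j hij
    apply C.hd j i
    apply hext
    intro h0
    apply hij
    rw [conjTranspose_apply, h0, star_zero]
  have hgd : ∀ j i, ((ext g)ᴴ : Matrix J.I C.I (MonoidAlgebra R G)) j i ≠ 0 →
      C.deg i = J.deg j := by
    intro j i hij
    apply h.gg i j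
    apply hext
    intro h0
    apply hij
    rw [conjTranspose_apply, h0, star_zero]
  set x'' := cut C.deg (fun q => - q = k - 1) x' with hx''
  have hdx : (ext C.d)ᴴ *ᵥ x'' = x := by
    rw [hx'', mul_cut (ext C.d)ᴴ C.deg C.deg (fun q => - q = k - 1) (fun q => - q = k)
      (fun i j hij => by
        have := hCd i j hij
        constructor <;> intro h5 <;> omega), ← hx']
    exact cut_eq hxd
  have hmul : ∀ {l m n : Type} [Fintype m] (M : Matrix l m (MonoidAlgebra R H))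
      (N : Matrix m n (MonoidAlgebra R H)),
      (ext (M * N) : Matrix l n (MonoidAlgebra R G)) = ext M * ext N := by
    intro l m n _ M N
    exact Matrix.map_mul
  have hcg : (ext J.d : Matrix J.I J.I (MonoidAlgebra R G))ᴴ * (ext g)ᴴ =
      - ((ext g)ᴴ * (ext C.d)ᴴ) := by
    have h4 : (ext C.d : Matrix C.I C.I (MonoidAlgebra R G)) * ext g + ext g * ext J.d = 0 := by
      rw [← hmul, ← hmul]
      have h5 : (ext (C.d * g + g * J.d) : Matrix C.I J.I (MonoidAlgebra R G)) =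
          ext (C.d * g) + ext (g * J.d) := by
        exact Matrix.map_add _ (map_add _) _ _
      rw [← h5, h.cg]
      exact Matrix.map_zero _ (map_zero _)
    have h5 := congrArg conjTranspose h4
    rw [conjTranspose_add, conjTranspose_mul, conjTranspose_mul, conjTranspose_zero] at h5
    exact eq_neg_of_add_eq_zero_right h5
  have hyd' : ∀ j, (y - (ext g)ᴴ *ᵥ x'') j ≠ 0 → - J.deg j < k := by
    intro j hj
    by_contra hcon
    apply hj
    rw [Pi.sub_apply]
    have h4 : y j = 0 := by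
      by_contra h5
      have := hyd j h5
      omega
    have h5 : ((ext g)ᴴ *ᵥ x'') j = 0 := by
      by_contra h6
      obtain ⟨i, hi, hi'⟩ := mul_supp (ext g)ᴴ h6
      have h7 := (cut_supp hi').1
      have h8 := hgd j i hi
      omega
    rw [h4, h5, sub_zero]
  have hde : (ext J.dual.d : Matrix J.I J.I (MonoidAlgebra R G)) = (ext J.d)ᴴ := ext_conj J.d
  have hzero : (ext J.d)ᴴ *ᵥ (y - (ext g)ᴴ *ᵥ x'') = 0 := by
    rw [mulVec_sub, mulVec_mulVec, hcg, neg_mulVec, ← mulVec_mulVec, hdx, sub_neg_eq_add,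
      add_comm]
    exact h3
  obtain ⟨v, -, hv⟩ := hJ (y - (ext g)ᴴ *ᵥ x'') (fun i g _ => Set.mem_univ g) hyd'
    (Eq.trans (congrArg (fun M : Matrix J.I J.I (MonoidAlgebra R G) =>
      M *ᵥ (y - (ext g)ᴴ *ᵥ x'')) hde) hzero)
  have hv' : y - (ext g)ᴴ *ᵥ x'' = (ext J.d)ᴴ *ᵥ v :=
    hv.trans (congrArg (fun M : Matrix J.I J.I (MonoidAlgebra R G) => M *ᵥ v) hde)
  exact ⟨x'', v, hdx.symm, by rw [← hv', add_sub_cancel]⟩

end CNEAux

open CNEAux in
theorem specCNE : SpecCNE :=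
  ⟨fun _ _ _ C J k Z g h h1 h2 => ⟨exBelow_cone C J k Z g h h1, exBelow_cone_dual C J k Z g h h2⟩,
    fun _ _ _ _ _ H C J k Z g h hJ x y hx hy h3 hu => part3 H C J k Z g h hJ x y hx hy h3 hu⟩

end Pool.Agent.Lib.MP8a3537.AU
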