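import Pool.Agent.Lib.MP_8a3537_gt.AU.Spec
import Pool.Agent.Lib.MP_8a3537_gt.UV.NIL

/-!
# The new form on the cone (module CNF)
-/

namespace Pool.Agent.Lib.MP8a3537.AU

open Matrix Pool.Agent.Lib.MP8a3537.UV
open Pool.Agent.Lib.MP8a3537.UO (ext)

namespace CNFAux

section Alg

variable {A : Type} [Ring A] [StarRing A] (ε : ℤˣ) {n r : Type} [Fintype n] [DecidableEq n]
  [Fintype r] [DecidableEq r]

/-- If `a = p^* a' p` and `μ = m' p` then nilpotency passes from `nu ε a μ b` to
`nu ε a' (p m') (p b p^*)`. -/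
theorem nil_move (a μ b : Matrix n n A) (p : Matrix r n A) (a' : Matrix r r A)
    (m' : Matrix n r A) (ha : a = pᴴ * a' * p) (hm : μ = m' * p)
    (h : IsNilpotent (nu ε a μ b)) : IsNilpotent (nu ε a' (p * m') (p * b * pᴴ)) := by
  obtain ⟨l, hl⟩ := h
  set τ : Matrix (n ⊕ n) (r ⊕ n) A := fromBlocks m' ((ε : ℤ) • b) (pᴴ * a') μᴴ with hτ
  set P : Matrix (r ⊕ n) (n ⊕ n) A := fromBlocks p 0 0 1 with hP
  set Q : Matrix (r ⊕ n) (r ⊕ r) A := fromBlocks 1 0 0 pᴴ with hQ
  set ρ : Matrix (r ⊕ r) (r ⊕ n) A := fromBlocks (p * m') ((ε : ℤ) • (p * b)) a' m'ᴴ with hρ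
  have e1 : nu ε a μ b = τ * P := by
    rw [hτ, hP, fromBlocks_multiply]
    simp only [Matrix.mul_zero, Matrix.mul_one, add_zero, zero_add]
    unfold nu
    rw [← hm, ← ha]
  have e2 : Q * nu ε a' (p * m') (p * b * pᴴ) = P * τ * Q := by
    rw [hτ, hP, hQ]
    unfold nu
    rw [fromBlocks_multiply, fromBlocks_multiply, fromBlocks_multiply]
    simp only [Matrix.mul_zero, Matrix.mul_one, Matrix.zero_mul, Matrix.one_mul, add_zero,
      zero_add, Matrix.smul_mul, Matrix.mul_smul, smul_zero]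
    congr 1
    rw [Matrix.conjTranspose_mul, hm, Matrix.conjTranspose_mul, Matrix.mul_assoc]
  have e3 : nu ε a' (p * m') (p * b * pᴴ) = ρ * Q := by
    rw [hρ, hQ]
    unfold nu
    rw [fromBlocks_multiply]
    simp only [Matrix.mul_zero, Matrix.mul_one, add_zero, zero_add, Matrix.smul_mul,
      Matrix.conjTranspose_mul]
  have e4 : ∀ k, (P * τ) ^ (k + 1) = P * (nu ε a μ b) ^ k * τ := by
    intro k
    induction k with
    | zero => simp
    | succ k ih =>
      have e6 : (nu ε a μ b) ^ (k + 1) = (nu ε a μ b) ^ k * (τ * P) := by rw [pow_succ, ← e1]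
      rw [pow_succ, ih, e6]
      simp only [Matrix.mul_assoc]
  have e5 : ∀ k, Q * (nu ε a' (p * m') (p * b * pᴴ)) ^ k = (P * τ) ^ k * Q := by
    intro k
    induction k with
    | zero => simp
    | succ k ih =>
      rw [pow_succ, ← Matrix.mul_assoc, ih, Matrix.mul_assoc, e2, ← Matrix.mul_assoc, pow_succ]
  refine ⟨l + 1 + 1, ?_⟩
  rw [pow_succ']
  nth_rewrite 1 [e3]
  rw [Matrix.mul_assoc, e5, e4, hl, Matrix.mul_zero, Matrix.zero_mul, Matrix.zero_mul,
    Matrix.mul_zero]

end Alg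

section Star

variable {R G : Type} [Ring R] [StarRing R] [Group G]

theorem eps_mul (ε : ℤˣ) : (ε : ℤ) * (ε : ℤ) = 1 := by
  rcases Int.units_eq_one_or ε with h | h <;> simp [h]

theorem conjTranspose_smul_int {l m : Type} (z : ℤ) (M : Matrix l m (MonoidAlgebra R G)) :
    (z • M)ᴴ = z • Mᴴ := by
  ext1 i j
  rw [conjTranspose_apply, Matrix.smul_apply, Matrix.smul_apply, conjTranspose_apply]
  exact map_zsmul (starAddEquiv (R := MonoidAlgebra R G)) z (M j i)

theorem supp_star' {l m : Type} {X : Set G} {M : Matrix l m (MonoidAlgebra R G)}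
    (hX : ∀ x ∈ X, x⁻¹ ∈ X) (hM : SuppIn X M) : SuppIn X Mᴴ :=
  NILAux.supp_mono (NILAux.supp_star hM) (fun x hx => by simpa using hX _ hx)

omit [StarRing R] in
theorem supp_zero {l m : Type} {X : Set G} :
    SuppIn X (0 : Matrix l m (MonoidAlgebra R G)) := by
  intro i j g hg
  exact absurd (by simp) hg

omit [StarRing R] [Group G] in
theorem supp_blocks {l m n o : Type} {X : Set G} {A : Matrix n l (MonoidAlgebra R G)}
    {B : Matrix n m (MonoidAlgebra R G)} {C : Matrix o l (MonoidAlgebra R G)}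
    {D : Matrix o m (MonoidAlgebra R G)} (hA : SuppIn X A) (hB : SuppIn X B) (hC : SuppIn X C)
    (hD : SuppIn X D) : SuppIn X (fromBlocks A B C D) := by
  rintro (i | i) (j | j) g hg
  · exact hA i j g hg
  · exact hB i j g hg
  · exact hC i j g hg
  · exact hD i j g hg

omit [StarRing R] in
theorem ext_blocks {H : Subgroup G} {l m n o : Type} (A : Matrix n l (MonoidAlgebra R H))
    (B : Matrix n m (MonoidAlgebra R H)) (C : Matrix o l (MonoidAlgebra R H))
    (D : Matrix o m (MonoidAlgebra R H)) :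
    ext (G := G) (fromBlocks A B C D) = fromBlocks (ext A) (ext B) (ext C) (ext D) := by
  unfold UO.ext
  rw [fromBlocks_map]

omit [StarRing R] in
theorem ext_zero {H : Subgroup G} {l m : Type} :
    ext (G := G) (0 : Matrix l m (MonoidAlgebra R H)) = 0 := by
  unfold UO.ext
  exact Matrix.map_zero _ (map_zero _)

end Star

end CNFAux

open CNFAux in
theorem specCNF : SpecCNF := by
  intro R G _ _ _ H X1 X2 X3 ε C J a μ b k Z g f f' t h hX1 hN hE
  have hee := eps_mul ε
  have hdd : ext (G := G) (cone C J g h.gg h.cg).d =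
      fromBlocks (ext C.d) (ext g) 0 (ext J.d) := by
    change ext (fromBlocks C.d g 0 J.d) = _
    rw [ext_blocks, ext_zero]
  have hdds : (ext (G := G) (cone C J g h.gg h.cg).d)ᴴ =
      fromBlocks (ext C.d)ᴴ 0 (ext g)ᴴ (ext J.d)ᴴ := by
    rw [hdd]
    exact (fromBlocks_conjTranspose _ _ _ _).trans (by rw [conjTranspose_zero])
  refine ⟨?_, ?_, ?_, ?_, ?_, ?_, ?_, ?_, ?_, ?_, ?_, ?_⟩
  · -- supports
    exact supp_blocks hN.sa hE.sf (NILAux.supp_smul _ (supp_star' hX1 hE.sf)) hE.st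
  · exact supp_blocks hN.sm hE.sf' supp_zero supp_zero
  · exact supp_blocks hN.sb supp_zero supp_zero supp_zero
  · -- degrees
    rintro (i | i) (j | j) hij
    · exact hN.ga i j hij
    · have := hE.gf i j hij
      change C.deg i + (J.deg j - 1) = 0
      omega
    · have hf : f j i ≠ 0 := by
        intro h0
        apply hij
        change (ε : ℤ) • star (f j i) = 0
        rw [h0, star_zero, smul_zero]
      have := hE.gf j i hf
      change (J.deg i - 1) + C.deg j = 0
      omega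
    · have := hE.gt i j hij
      change (J.deg i - 1) + (J.deg j - 1) = 0
      omega
  · rintro (i | i) (j | j) hij
    · exact hN.gm i j hij
    · exact hE.gf' i j hij
    · exact absurd rfl hij
    · exact absurd rfl hij
  · rintro (i | i) (j | j) hij
    · exact hN.gb i j hij
    · exact absurd rfl hij
    · exact absurd rfl hij
    · exact absurd rfl hij
  · -- symmetry
    have e : (newa ε a f t)ᴴ = fromBlocks aᴴ ((ε : ℤ) • f) fᴴ tᴴ := by
      unfold newa
      rw [fromBlocks_conjTranspose]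
      congr 1
      rw [conjTranspose_smul_int, conjTranspose_conjTranspose]
    change newa ε a f t = (ε : ℤ) • (newa ε a f t)ᴴ
    rw [e, fromBlocks_smul, ← hN.ha, ← hE.ht, smul_smul, hee, one_smul]
    rfl
  · have e : (fromBlocks b 0 0 0 : Matrix (C.I ⊕ J.I) (C.I ⊕ J.I) (MonoidAlgebra R G))ᴴ =
        fromBlocks bᴴ 0 0 0 := by
      rw [fromBlocks_conjTranspose]
      simp only [conjTranspose_zero]
    change (fromBlocks b 0 0 0 : Matrix (C.I ⊕ J.I) (C.I ⊕ J.I) (MonoidAlgebra R G)) =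
      (ε : ℤ) • (fromBlocks b 0 0 0)ᴴ
    rw [e, fromBlocks_smul, ← hN.hb]
    simp only [smul_zero]
  · -- a' d' = d'^* a'
    have c1 := hN.ca
    have c2 := hE.cf
    have c3 : (ε : ℤ) • fᴴ * ext C.d = (ext g)ᴴ * a + (ext J.d)ᴴ * ((ε : ℤ) • fᴴ) := by
      have h1 := congrArg (fun M => (ε : ℤ) • Mᴴ) c2
      simp only [conjTranspose_add, conjTranspose_mul, conjTranspose_conjTranspose, smul_add] at h1
      rw [← Matrix.mul_smul, ← hN.ha] at h1
      rw [Matrix.smul_mul, ← h1, Matrix.mul_smul]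
    have c4 : (ε : ℤ) • fᴴ * ext g + t * ext J.d = (ext g)ᴴ * f + (ext J.d)ᴴ * t := by
      have h1 := hE.ct
      rw [Matrix.smul_mul]
      rw [sub_eq_sub_iff_add_eq_add] at h1
      rw [← h1, add_comm]
    have key : (fromBlocks a f ((ε : ℤ) • fᴴ) t :
        Matrix (C.I ⊕ J.I) (C.I ⊕ J.I) (MonoidAlgebra R G)) *
        fromBlocks (ext C.d) (ext g) 0 (ext J.d) =
        fromBlocks (ext C.d)ᴴ 0 (ext g)ᴴ (ext J.d)ᴴ * fromBlocks a f ((ε : ℤ) • fᴴ) t := by
      rw [fromBlocks_multiply, fromBlocks_multiply]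
      simp only [Matrix.mul_zero, Matrix.zero_mul, add_zero]
      rw [c1, c2, c3, c4]
    exact (congrArg (fun M : Matrix (C.I ⊕ J.I) (C.I ⊕ J.I) (MonoidAlgebra R G) =>
      newa ε a f t * M) hdd).trans (key.trans
      (congrArg (fun M : Matrix (C.I ⊕ J.I) (C.I ⊕ J.I) (MonoidAlgebra R G) =>
      M * newa ε a f t) hdds).symm)
  · have key : (fromBlocks μ f' 0 0 :
        Matrix (C.I ⊕ J.I) (C.I ⊕ J.I) (MonoidAlgebra R G)) *
        fromBlocks (ext C.d) (ext g) 0 (ext J.d) =
        fromBlocks (ext C.d) (ext g) 0 (ext J.d) * fromBlocks μ f' 0 0 := by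
      rw [fromBlocks_multiply, fromBlocks_multiply]
      simp only [Matrix.mul_zero, Matrix.zero_mul, add_zero]
      rw [hN.cm, hE.cf']
    exact (congrArg (fun M : Matrix (C.I ⊕ J.I) (C.I ⊕ J.I) (MonoidAlgebra R G) =>
      fromBlocks μ f' 0 0 * M) hdd).trans (key.trans
      (congrArg (fun M : Matrix (C.I ⊕ J.I) (C.I ⊕ J.I) (MonoidAlgebra R G) =>
      M * fromBlocks μ f' 0 0) hdd).symm)
  · have key : (fromBlocks b 0 0 0 :
        Matrix (C.I ⊕ J.I) (C.I ⊕ J.I) (MonoidAlgebra R G)) *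
        fromBlocks (ext C.d)ᴴ 0 (ext g)ᴴ (ext J.d)ᴴ =
        fromBlocks (ext C.d) (ext g) 0 (ext J.d) * fromBlocks b 0 0 0 := by
      rw [fromBlocks_multiply, fromBlocks_multiply]
      simp only [Matrix.mul_zero, Matrix.zero_mul, add_zero]
      rw [hN.cb]
    exact (congrArg (fun M : Matrix (C.I ⊕ J.I) (C.I ⊕ J.I) (MonoidAlgebra R G) =>
      fromBlocks b 0 0 0 * M) hdds).trans (key.trans
      (congrArg (fun M : Matrix (C.I ⊕ J.I) (C.I ⊕ J.I) (MonoidAlgebra R G) =>
      M * fromBlocks b 0 0 0) hdd).symm)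
  · -- nilpotency
    set p : Matrix (C.I ⊕ J.I) C.I (MonoidAlgebra R G) := fromRows 1 0 with hp
    set m' : Matrix C.I (C.I ⊕ J.I) (MonoidAlgebra R G) := fromCols μ f' with hm'
    have hps : pᴴ = fromCols 1 0 := by
      rw [hp]
      ext1 i j
      rcases j with j | j
      · change star ((1 : Matrix C.I C.I (MonoidAlgebra R G)) j i) = (1 : Matrix C.I C.I _) i j
        rw [Matrix.one_apply, Matrix.one_apply]
        by_cases hij : i = j
        · rw [if_pos hij, if_pos hij.symm, star_one]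
        · rw [if_neg hij, if_neg (Ne.symm hij), star_zero]
      · change star (0 : MonoidAlgebra R G) = 0
        rw [star_zero]
    have hP := nil_move ε a μ b p (newa ε a f t) m' (by
      rw [hps, hp]
      unfold newa
      rw [fromCols_mul_fromBlocks, fromCols_mul_fromRows]
      simp) (by
      rw [hm', hp, fromCols_mul_fromRows]
      simp) hN.nil
    have e1 : p * m' = fromBlocks μ f' 0 0 := by
      rw [hp, hm', fromRows_mul_fromCols]
      simp
    have e2 : p * b * pᴴ = fromBlocks b 0 0 0 := by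
      rw [hps, hp, fromRows_mul, fromRows_mul_fromCols]
      simp
    rw [e1, e2] at hP
    exact hP

end Pool.Agent.Lib.MP8a3537.AU
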