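import Pool.Agent.Lib.MP_8a3537_gt.AU.Spec

/-!
# Vanishing of `UNil` over Auslander regular edge rings: module CTR

An exact finite complex of finitely generated free modules is contractible.
-/

namespace Pool.Agent.Lib.MP8a3537.AU

open Matrix

theorem specCTR (hDES : SpecDES) : SpecCTR := by
  intro S _ C hex
  obtain ⟨q0, hq0⟩ : ∃ q0 : ℤ, ∀ i, C.deg i ≤ q0 := by
    obtain ⟨q0, hq0⟩ := (Set.finite_range C.deg).bddAbove
    exact ⟨q0, fun i => hq0 ⟨i, rfl⟩⟩
  have hmap : C.d.map (RingHom.id S) = C.d := by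
    ext i j
    simp
  obtain ⟨h', -, hdeg, -, heq⟩ := hDES S S (RingHom.id S) ⊤ C C q0 (-1) (-1) 1 0
    (fun _ _ _ => AddSubgroup.mem_top _)
    (fun x _ _ hx => by
      rw [hmap] at hx
      obtain ⟨y, hy⟩ := hex x hx
      exact ⟨y, fun _ => AddSubgroup.mem_top _, by rw [hmap]; exact hy⟩)
    (fun _ _ => AddSubgroup.mem_top _) (fun _ _ => AddSubgroup.mem_top _)
    (fun i j hij => by
      by_cases hne : i = j
      · subst hne
        ring
      · exact absurd (Matrix.one_apply_ne hne) hij)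
    (fun i j hij => absurd rfl hij)
    (by rw [hmap]; simp)
    (fun i j hj => absurd (hq0 j) (not_le.mpr hj))
  rw [hmap] at heq
  have heq' : C.d * h' = 1 - h' * C.d := by
    rw [heq]
    simp [sub_eq_add_neg]
  have h1 : C.d * h' * C.d = C.d := by
    rw [heq', sub_mul, one_mul, Matrix.mul_assoc, C.dd, Matrix.mul_zero, sub_zero]
  have h2 : h' * C.d * (h' * C.d) = h' * C.d := by
    rw [Matrix.mul_assoc, ← Matrix.mul_assoc C.d h' C.d, h1]
  have h3 : C.d * h' * (h' * C.d) = 0 := by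
    rw [heq', sub_mul, one_mul, h2, sub_self]
  refine ⟨h' * C.d * h', ?_, ?_, ?_⟩
  · intro i j hij
    rw [Matrix.mul_apply] at hij
    obtain ⟨l, -, hl⟩ := Finset.exists_ne_zero_of_sum_ne_zero hij
    have hlj : h' l j ≠ 0 := right_ne_zero_of_mul hl
    have hil := left_ne_zero_of_mul hl
    rw [Matrix.mul_apply] at hil
    obtain ⟨m, -, hm⟩ := Finset.exists_ne_zero_of_sum_ne_zero hil
    have e1 := hdeg l j hlj
    have e2 := hdeg i m (left_ne_zero_of_mul hm)
    have e3 := C.hd m l (right_ne_zero_of_mul hm)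
    omega
  · have e1 : C.d * (h' * C.d * h') = C.d * h' := by
      rw [← Matrix.mul_assoc, ← Matrix.mul_assoc, h1]
    have e2 : h' * C.d * h' * C.d = h' * C.d := by
      rw [Matrix.mul_assoc (h' * C.d) h' C.d, h2]
    rw [e1, e2, heq']
    abel
  · have e1 : h' * C.d * h' * (h' * C.d * h') = h' * (C.d * h' * (h' * C.d)) * h' := by
      simp only [Matrix.mul_assoc]
    rw [e1, h3, Matrix.mul_zero, Matrix.zero_mul]

end Pool.Agent.Lib.MP8a3537.AU
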