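import Pool.Agent.Lib.MP_8a3537_gt.AU.Spec
import Pool.Agent.Lib.MP_8a3537_gt.UV.IND
import Pool.Agent.Lib.MP_8a3537_gt.UV.TAT
import Pool.Agent.Lib.MP_8a3537_gt.UV.RES

/-!
# AU, module ENV: exact complexes
-/

namespace Pool.Agent.Lib.MP8a3537.AU

open Matrix Pool.Agent.Lib.MP8a3537.UV
open Pool.Agent.Lib.MP8a3537.UO (ext)

namespace ENVAux

section Restr

variable {A : Type} [Ring A]

theorem submat_mul {K N : Type} [Fintype K] [Fintype N] (f : N → K) (hf : Function.Injective f)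
    (M M' : Matrix K K A) (h : ∀ k l, M (f k) l ≠ 0 → ∃ n, f n = l) :
    (M * M').submatrix f f = M.submatrix f f * M'.submatrix f f := by
  ext i j
  rw [submatrix_apply, Matrix.mul_apply, Matrix.mul_apply]
  symm
  apply Fintype.sum_of_injective f hf
  · intro l hl
    have : M (f i) l = 0 := by
      by_contra h0
      exact hl (h i l h0)
    rw [this, zero_mul]
  · intro l
    rfl

theorem submat_pow {K N : Type} [Fintype K] [DecidableEq K] [Fintype N] [DecidableEq N] (f : N → K)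
    (hf : Function.Injective f) (M : Matrix K K A) (h : ∀ k l, M (f k) l ≠ 0 → ∃ n, f n = l)
    (l : ℕ) : (M ^ l).submatrix f f = (M.submatrix f f) ^ l := by
  induction l with
  | zero => rw [pow_zero, pow_zero, submatrix_one f hf]
  | succ l ih => rw [pow_succ', pow_succ', submat_mul f hf M _ h, ih]

theorem sub_zero' {K N : Type} (f : N → K) : (0 : Matrix K K A).submatrix f f = 0 := rfl

theorem sub_add' {K N : Type} (f : N → K) (M M' : Matrix K K A) :
    M.submatrix f f + M'.submatrix f f = (M + M').submatrix f f := rfl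

theorem mul_ne {K L N : Type} [Fintype L] {M : Matrix K L A} {M' : Matrix L N A} {i : K} {j : N}
    (h : (M * M') i j ≠ 0) : ∃ l, M i l ≠ 0 ∧ M' l j ≠ 0 := by
  rw [Matrix.mul_apply] at h
  obtain ⟨l, _, hl⟩ := Finset.exists_ne_zero_of_sum_ne_zero h
  exact ⟨l, left_ne_zero_of_mul hl, right_ne_zero_of_mul hl⟩

end Restr

section Core

variable {A : Type} [Ring A] [StarRing A]

theorem pol {n : Type} [Fintype n] [DecidableEq n] (ε : ℤˣ) (ψ μ χ a b : Matrix n n A)
    (ha : ψ + (ε : ℤ) • ψᴴ = a) (hb : χ + (ε : ℤ) • χᴴ = b) :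
    UF ψ μ χ + (ε : ℤ) • (UF ψ μ χ)ᴴ = INDAux.W n A ε * (1 + nu ε a μ b) := by
  subst ha hb
  unfold UF nu INDAux.W
  rw [fromBlocks_conjTranspose, fromBlocks_smul, fromBlocks_add, ← fromBlocks_one,
    fromBlocks_add, fromBlocks_multiply]
  rcases Int.units_eq_one_or ε with rfl | rfl
  · simp
  · simp
    constructor <;> abel

omit [StarRing A] in
/-- If `F + E = 1`, `F ν E = 0` and `F E = 0`, then `F (-ν)^i E = 0`. -/
theorem stable {N : Type} [Fintype N] [DecidableEq N] (E F ν : Matrix N N A) (h1 : E + F = 1)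
    (h2 : F * ν * E = 0) (h3 : F * E = 0) (i : ℕ) : F * (-ν) ^ i * E = 0 := by
  induction i with
  | zero => rw [pow_zero, Matrix.mul_one, h3]
  | succ i ih =>
    have e1 : F * (-ν) ^ (i + 1) * E =
        -(F * ν * E) * ((-ν) ^ i * E) + F * (-ν) * (F * (-ν) ^ i * E) := by
      have e2 : F * (-ν) ^ (i + 1) * E = F * (-ν) * (E + F) * ((-ν) ^ i * E) := by
        rw [h1, Matrix.mul_one, pow_succ']
        simp only [Matrix.mul_assoc]
      rw [e2]
      noncomm_ring
    rw [e1, h2, ih]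
    simp

theorem core (hLAG : SpecLAG) (ε : ℤˣ) {n P1 Q1 P2 Q2 : Type} [Fintype n] [DecidableEq n]
    [Fintype P1] [DecidableEq P1] [Fintype Q1] [DecidableEq Q1] [Fintype P2] [DecidableEq P2]
    [Fintype Q2] [DecidableEq Q2] (ψ μ χ a b e e' : Matrix n n A)
    (ha : ψ + (ε : ℤ) • ψᴴ = a) (hb : χ + (ε : ℤ) • χᴴ = b) (hnil : IsNilpotent (nu ε a μ b))
    (he : e * e = e) (hee : e + e' = 1) (h1 : eᴴ * (a * e) = 0) (h2 : e' * (b * e'ᴴ) = 0)
    (h3 : e' * (μ * e) = 0) (hc1 : ∃ c, eᴴ * ψ * e = c - (ε : ℤ) • cᴴ)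
    (hc2 : ∃ c, e' * χ * e'ᴴ = c - (ε : ℤ) • cᴴ)
    (α1 : Matrix (n ⊕ P1) Q1 A) (β1 : Matrix Q1 (n ⊕ P1) A) (k1 : α1 * β1 = fromBlocks e 0 0 1)
    (k1' : β1 * α1 = 1)
    (α2 : Matrix (n ⊕ P2) Q2 A) (β2 : Matrix Q2 (n ⊕ P2) A) (k2 : α2 * β2 = fromBlocks e' 0 0 1)
    (k2' : β2 * α2 = 1) : StablyHyperbolic ε (UF ψ μ χ) := by
  have he' : e' = 1 - e := by rw [← hee]; abel
  have hze : e' * e = 0 := by rw [he', Matrix.sub_mul, he, Matrix.one_mul, sub_self]
  have hez : e * e' = 0 := by rw [he', Matrix.mul_sub, he, Matrix.mul_one, sub_self]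
  have hzz : e' * e' = e' := by
    have : e' * e' = e' - e * e' := by
      conv_lhs => rw [he']
      rw [Matrix.sub_mul, Matrix.one_mul]
      rw [← he']
    rw [this, hez, sub_zero]
  set ν := nu ε a μ b with hν
  set E : Matrix (n ⊕ n) (n ⊕ n) A := fromBlocks e 0 0 e'ᴴ with hE
  set F : Matrix (n ⊕ n) (n ⊕ n) A := fromBlocks e' 0 0 eᴴ with hF
  have hEF : E + F = 1 := by
    rw [hE, hF, fromBlocks_add, hee, ← conjTranspose_add, add_comm e' e, hee,
      conjTranspose_one, add_zero, fromBlocks_one]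
  have hEE : E * E = E := by
    rw [hE, fromBlocks_multiply, he, ← conjTranspose_mul, hzz]
    simp
  have hFE : F * E = 0 := by
    rw [hE, hF, fromBlocks_multiply, hze, ← conjTranspose_mul, hze]
    simp
  have hFνE : F * ν * E = 0 := by
    have e4 : eᴴ * μᴴ * e'ᴴ = 0 := by
      rw [← conjTranspose_mul, ← conjTranspose_mul, h3, conjTranspose_zero]
    rw [hE, hF, hν]
    unfold nu
    rw [fromBlocks_multiply, fromBlocks_multiply]
    simp only [Matrix.zero_mul, Matrix.mul_zero, add_zero, zero_add]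
    rw [Matrix.mul_assoc, h3, Matrix.mul_assoc eᴴ a e, h1, e4, Matrix.mul_smul, Matrix.smul_mul,
      Matrix.mul_assoc, h2, smul_zero, fromBlocks_zero]
  obtain ⟨m, hm⟩ := hnil
  set v : Matrix (n ⊕ n) (n ⊕ n) A := ∑ i ∈ Finset.range m, (-ν) ^ i with hv
  have hmm : (-ν) ^ m = 0 := by rw [neg_pow, hm, mul_zero]
  have hv1 : v * (1 + ν) = 1 := by
    have := geom_sum_mul_neg (-ν) m
    rw [hmm, sub_zero, sub_neg_eq_add] at this
    exact this
  have hv2 : (1 + ν) * v = 1 := by
    have := mul_neg_geom_sum (-ν) m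
    rw [hmm, sub_zero, sub_neg_eq_add] at this
    exact this
  have hFvE : F * v * E = 0 := by
    rw [hv, Finset.mul_sum, Finset.sum_mul]
    exact Finset.sum_eq_zero fun i _ => stable E F ν hEF hFνE hFE i
  have hpol := pol ε ψ μ χ a b ha hb
  have hEW : Eᴴ * INDAux.W n A ε = INDAux.W n A ε * F := by
    rw [hE, hF]
    unfold INDAux.W
    rw [fromBlocks_conjTranspose, fromBlocks_multiply, fromBlocks_multiply]
    simp only [Matrix.mul_zero, Matrix.zero_mul, add_zero, zero_add, Matrix.mul_one,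
      Matrix.one_mul, Matrix.mul_smul, Matrix.smul_mul, conjTranspose_conjTranspose,
      conjTranspose_zero, smul_zero]
  refine hLAG A ε (n ⊕ n) (P1 ⊕ P2) (Q1 ⊕ Q2) (UF ψ μ χ) (v * INDAux.W' n A ε) E
    ((fromBlocks α1 0 0 β2ᴴ).submatrix (Equiv.sumSumSumComm n n P1 P2) (Equiv.refl _))
    ((fromBlocks β1 0 0 α2ᴴ).submatrix (Equiv.refl _) (Equiv.sumSumSumComm n n P1 P2))
    ?_ ?_ hEE ?_ ?_ ?_ ?_
  · rw [hpol]
    calc INDAux.W n A ε * (1 + ν) * (v * INDAux.W' n A ε)
        = INDAux.W n A ε * ((1 + ν) * v) * INDAux.W' n A ε := by simp only [Matrix.mul_assoc]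
      _ = 1 := by rw [hv2, Matrix.mul_one, INDAux.W_mul_W']
  · rw [hpol]
    calc v * INDAux.W' n A ε * (INDAux.W n A ε * (1 + ν))
        = v * (INDAux.W' n A ε * INDAux.W n A ε) * (1 + ν) := by simp only [Matrix.mul_assoc]
      _ = 1 := by rw [INDAux.W'_mul_W, Matrix.mul_one, hv1]
  · obtain ⟨c1, hc1⟩ := hc1
    obtain ⟨c2, hc2⟩ := hc2
    refine ⟨fromBlocks c1 0 0 c2, ?_⟩
    have e5 : eᴴ * (1 + μᴴ) * e'ᴴ = 0 := by
      have : eᴴ * (1 + μᴴ) * e'ᴴ = (e' * (1 + μ) * e)ᴴ := by
        simp only [conjTranspose_mul, conjTranspose_add, conjTranspose_one, Matrix.mul_assoc]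
      rw [this, Matrix.mul_add, Matrix.add_mul, Matrix.mul_one, hze, Matrix.mul_assoc, h3,
        add_zero, conjTranspose_zero]
    rw [hE]
    unfold UF
    rw [fromBlocks_conjTranspose, conjTranspose_conjTranspose, fromBlocks_multiply,
      fromBlocks_multiply, fromBlocks_conjTranspose, fromBlocks_smul, sub_eq_add_neg,
      fromBlocks_neg, fromBlocks_add]
    simp only [Matrix.zero_mul, Matrix.mul_zero, add_zero, zero_add, conjTranspose_zero,
      smul_zero, neg_zero]
    rw [hc1, hc2, e5, sub_eq_add_neg, sub_eq_add_neg]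
  · intro x hx
    rw [hpol, mulVec_mulVec, ← Matrix.mul_assoc, hEW] at hx
    have hx1 : (F * (1 + ν)) *ᵥ x = 0 := by
      have h5 := congrArg (fun y => INDAux.W' n A ε *ᵥ y) hx
      simp only [mulVec_mulVec, mulVec_zero] at h5
      rwa [Matrix.mul_assoc (INDAux.W n A ε), ← Matrix.mul_assoc, INDAux.W'_mul_W,
        Matrix.one_mul] at h5
    have hx2 : F *ᵥ x = 0 := by
      have h6 : F = F * v * E * (1 + ν) + F * v * (F * (1 + ν)) := by
        calc F = F * (v * (1 + ν)) := by rw [hv1, Matrix.mul_one]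
          _ = F * v * (E + F) * (1 + ν) := by
            rw [hEF, Matrix.mul_one]
            simp only [Matrix.mul_assoc]
          _ = _ := by noncomm_ring
      rw [hFvE, Matrix.zero_mul, zero_add] at h6
      rw [h6, ← mulVec_mulVec, hx1, mulVec_zero]
    calc x = (E + F) *ᵥ x := by rw [hEF, one_mulVec]
      _ = E *ᵥ x := by rw [add_mulVec, hx2, add_zero]
  · rw [submatrix_mul_equiv, fromBlocks_multiply, k1, ← conjTranspose_mul, k2,
      fromBlocks_conjTranspose, conjTranspose_zero, conjTranspose_one]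
    ext i j
    rcases i with (i | i) | (i | i) <;> rcases j with (j | j) | (j | j) <;>
      simp [hE, Matrix.one_apply]
  · rw [submatrix_mul_equiv, fromBlocks_multiply, k1', ← conjTranspose_mul, k2']
    simp

theorem tat {R G : Type} [Ring R] [StarRing R] [Group G] {n : Type} [Fintype n] (X : Set G)
    (δ : ℤˣ) (d : Matrix n n (MonoidAlgebra R G)) (hinv : ∀ x ∈ X, x⁻¹ ∈ X)
    (hne : ∀ x ∈ X, x⁻¹ ≠ x) (hd : SuppIn X d) (hs : d = (δ : ℤ) • dᴴ) :
    ∃ c : Matrix n n (MonoidAlgebra R G), d = c + (δ : ℤ) • cᴴ := by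
  classical
  let e := Fintype.equivFin n
  obtain ⟨c, _, hc⟩ := specTat R G X δ (Fintype.card n) (d.submatrix e.symm e.symm) hinv hne
    (fun i j => hd _ _) (by
      ext1 i j
      have h1 := congrFun (congrFun hs (e.symm i)) (e.symm j)
      rw [Matrix.smul_apply, conjTranspose_apply] at h1 ⊢
      exact h1)
  refine ⟨c.submatrix e e, ?_⟩
  ext1 i j
  have h1 := congrFun (congrFun hc (e i)) (e j)
  rw [Matrix.add_apply, Matrix.smul_apply, conjTranspose_apply, submatrix_apply,
    e.symm_apply_apply, e.symm_apply_apply] at h1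
  rw [Matrix.add_apply, Matrix.smul_apply, conjTranspose_apply, submatrix_apply, submatrix_apply]
  exact h1

end Core

section Ext

variable {R G : Type} [Ring R] [Group G] {H : Subgroup G}

theorem ext_mul {l m n : Type} [Fintype m] (M : Matrix l m (MonoidAlgebra R H))
    (N : Matrix m n (MonoidAlgebra R H)) :
    (ext (M * N) : Matrix l n (MonoidAlgebra R G)) = ext M * ext N := by
  unfold Pool.Agent.Lib.MP8a3537.UO.ext
  exact Matrix.map_mul

theorem ext_one {n : Type} [DecidableEq n] :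
    (ext (1 : Matrix n n (MonoidAlgebra R H)) : Matrix n n (MonoidAlgebra R G)) = 1 := by
  unfold Pool.Agent.Lib.MP8a3537.UO.ext
  exact Matrix.map_one _ (map_zero _) (map_one _)

theorem ext_add {m n : Type} (M N : Matrix m n (MonoidAlgebra R H)) :
    (ext (M + N) : Matrix m n (MonoidAlgebra R G)) = ext M + ext N := by
  unfold Pool.Agent.Lib.MP8a3537.UO.ext
  exact Matrix.map_add _ (fun a b => map_add _ a b) M N

theorem ext_zero {m n : Type} :
    (ext (0 : Matrix m n (MonoidAlgebra R H)) : Matrix m n (MonoidAlgebra R G)) = 0 := by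
  unfold Pool.Agent.Lib.MP8a3537.UO.ext
  exact Matrix.map_zero _ (map_zero _)

theorem ext_ne {m n : Type} {M : Matrix m n (MonoidAlgebra R H)} {i : m} {j : n}
    (h : (ext M : Matrix m n (MonoidAlgebra R G)) i j ≠ 0) : M i j ≠ 0 := by
  intro h0
  apply h
  change MonoidAlgebra.mapDomainRingHom R H.subtype (M i j) = 0
  rw [h0, map_zero]

theorem ext_blocks {l m n o : Type} (A : Matrix n l (MonoidAlgebra R H))
    (B : Matrix n m (MonoidAlgebra R H)) (C : Matrix o l (MonoidAlgebra R H))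
    (D : Matrix o m (MonoidAlgebra R H)) :
    (ext (fromBlocks A B C D) : Matrix _ _ (MonoidAlgebra R G)) =
      fromBlocks (ext A) (ext B) (ext C) (ext D) := by
  unfold Pool.Agent.Lib.MP8a3537.UO.ext
  exact fromBlocks_map A B C D _

theorem supp_ext {m n : Type} (M : Matrix m n (MonoidAlgebra R H)) :
    SuppIn (H : Set G) (ext M : Matrix m n (MonoidAlgebra R G)) := by
  intro i j g hg
  exact RESAux.mem_of_emb_ne H _ _ hg

end Ext

end ENVAux

open ENVAux in
theorem specENV (hCTR : SpecCTR) (hSTF : SpecSTF) (hLAG : SpecLAG) : SpecENV := by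
  classical
  intro R G _ _ _ H X1 X2 X3 ε C a μ b h1r h1l h1i h1n h2r h2l h2i h2n hN hex ψ χ hψ hχ hψa hχb
  obtain ⟨h, hh, hdh, hh2⟩ := hCTR _ C hex
  obtain ⟨⟨P1, Q1, _, _, _, _, α1, β1, k1, k1'⟩, ⟨P2, Q2, _, _, _, _, α2, β2, k2, k2'⟩⟩ :=
    hSTF _ C h hh hdh hh2
  set δ : Matrix C.I C.I (MonoidAlgebra R G) := ext C.d with hδ
  set η : Matrix C.I C.I (MonoidAlgebra R G) := ext h with hη
  have hδη : δ * η + η * δ = 1 := by
    rw [hδ, hη, ← ext_mul, ← ext_mul, ← ext_add, hdh, ext_one]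
  have hδδ : δ * δ = 0 := by rw [hδ, ← ext_mul, C.dd, ext_zero]
  have hηη : η * η = 0 := by rw [hη, ← ext_mul, hh2, ext_zero]
  have dδ : ∀ i j, δ i j ≠ 0 → C.deg i = C.deg j + 1 := fun i j hij => C.hd i j (ext_ne hij)
  have dη : ∀ i j, η i j ≠ 0 → C.deg i = C.deg j - 1 := fun i j hij => hh i j (ext_ne hij)
  set f : {i // C.deg i = 0} → C.I := Subtype.val with hf
  have finj : Function.Injective f := Subtype.val_injective
  have rf : ∀ l, C.deg l = 0 → ∃ n, f n = l := fun l hl => ⟨⟨l, hl⟩, rfl⟩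
  have fd : ∀ n, C.deg (f n) = 0 := fun n => n.2
  have ce : ∀ k l, (δ * η) (f k) l ≠ 0 → ∃ n, f n = l := by
    intro k l hkl
    obtain ⟨q, h5, h6⟩ := mul_ne hkl
    have := dδ _ _ h5
    have := dη _ _ h6
    have := fd k
    exact rf l (by omega)
  have ce' : ∀ k l, (η * δ) (f k) l ≠ 0 → ∃ n, f n = l := by
    intro k l hkl
    obtain ⟨q, h5, h6⟩ := mul_ne hkl
    have := dη _ _ h5
    have := dδ _ _ h6
    have := fd k
    exact rf l (by omega)
  have ceH : ∀ k l, (δ * η)ᴴ (f k) l ≠ 0 → ∃ n, f n = l := by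
    intro k l hkl
    rw [conjTranspose_apply] at hkl
    have h5 : (δ * η) l (f k) ≠ 0 := fun h0 => hkl (by rw [h0, star_zero])
    obtain ⟨q, h6, h7⟩ := mul_ne h5
    have := dδ _ _ h6
    have := dη _ _ h7
    have := fd k
    exact rf l (by omega)
  have ca : ∀ k l, a (f k) l ≠ 0 → ∃ n, f n = l := by
    intro k l hkl
    have := hN.ga _ _ hkl
    have := fd k
    exact rf l (by omega)
  have cb : ∀ k l, b (f k) l ≠ 0 → ∃ n, f n = l := by
    intro k l hkl
    have := hN.gb _ _ hkl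
    have := fd k
    exact rf l (by omega)
  have cμ : ∀ k l, μ (f k) l ≠ 0 → ∃ n, f n = l := by
    intro k l hkl
    have := hN.gm _ _ hkl
    have := fd k
    exact rf l (by omega)
  have hca : a * δ = δᴴ * a := hN.ca
  have hcb : b * δᴴ = δ * b := hN.cb
  have hcm : μ * δ = δ * μ := hN.cm
  have key1 : (δ * η)ᴴ * (a * (δ * η)) = 0 := by
    calc (δ * η)ᴴ * (a * (δ * η)) = ηᴴ * ((δᴴ * a) * δ) * η := by
          rw [conjTranspose_mul]; simp only [Matrix.mul_assoc]
      _ = ηᴴ * (a * (δ * δ)) * η := by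
          rw [← hca]; simp only [Matrix.mul_assoc]
      _ = 0 := by rw [hδδ]; simp
  have key2 : (η * δ) * (b * (η * δ)ᴴ) = 0 := by
    calc (η * δ) * (b * (η * δ)ᴴ) = η * ((δ * b) * δᴴ) * ηᴴ := by
          rw [conjTranspose_mul]; simp only [Matrix.mul_assoc]
      _ = η * (b * (δ * δ)ᴴ) * ηᴴ := by
          rw [← hcb, conjTranspose_mul]; simp only [Matrix.mul_assoc]
      _ = 0 := by rw [hδδ]; simp
  have key3 : (η * δ) * (μ * (δ * η)) = 0 := by
    calc (η * δ) * (μ * (δ * η)) = η * ((δ * μ) * δ) * η := by simp only [Matrix.mul_assoc]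
      _ = η * (μ * (δ * δ)) * η := by
          rw [← hcm]; simp only [Matrix.mul_assoc]
      _ = 0 := by rw [hδδ]; simp
  have heh : (δ * η).submatrix f f * (δ * η).submatrix f f = (δ * η).submatrix f f := by
    rw [← submat_mul f finj _ _ ce]
    congr 1
    calc δ * η * (δ * η) = δ * η * (δ * η) + δ * (η * η) * δ := by rw [hηη]; simp
      _ = δ * η * (δ * η + η * δ) := by noncomm_ring
      _ = δ * η := by rw [hδη, Matrix.mul_one]
  have hee : (δ * η).submatrix f f + (η * δ).submatrix f f = 1 := by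
    rw [sub_add', hδη, submatrix_one f finj]
  have h1 : ((δ * η).submatrix f f)ᴴ * (a.submatrix f f * (δ * η).submatrix f f) = 0 := by
    rw [← submat_mul f finj _ _ ca, conjTranspose_submatrix, ← submat_mul f finj _ _ ceH, key1, sub_zero']
  have h2 : (η * δ).submatrix f f * (b.submatrix f f * ((η * δ).submatrix f f)ᴴ) = 0 := by
    rw [conjTranspose_submatrix, ← submat_mul f finj _ _ cb, ← submat_mul f finj _ _ ce', key2, sub_zero']
  have h3 : (η * δ).submatrix f f * (μ.submatrix f f * (δ * η).submatrix f f) = 0 := by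
    rw [← submat_mul f finj _ _ cμ, ← submat_mul f finj _ _ ce', key3, sub_zero']
  have hnil : IsNilpotent (nu ε (a.submatrix f f) (μ.submatrix f f) (b.submatrix f f)) := by
    obtain ⟨m, hm⟩ := hN.nil
    refine ⟨m, ?_⟩
    have e1 : nu ε (a.submatrix f f) (μ.submatrix f f) (b.submatrix f f) =
        (nu ε a μ b).submatrix (Sum.map f f) (Sum.map f f) := by
      unfold nu
      ext1 i j
      rcases i with i | i <;> rcases j with j | j <;> rfl
    rw [e1, ← submat_pow _ (Sum.map_injective.2 ⟨finj, finj⟩), hm]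
    · exact sub_zero' _
    · rintro (k | k) (l | l) hkl
      · obtain ⟨n, hn⟩ := cμ k l hkl
        exact ⟨Sum.inl n, by rw [Sum.map_inl, hn]⟩
      · have : b (f k) l ≠ 0 := by
          intro h0
          apply hkl
          change ((ε : ℤ) • b) (f k) l = 0
          rw [Matrix.smul_apply, h0, smul_zero]
        obtain ⟨n, hn⟩ := cb k l this
        exact ⟨Sum.inr n, by rw [Sum.map_inr, hn]⟩
      · obtain ⟨n, hn⟩ := ca k l hkl
        exact ⟨Sum.inl n, by rw [Sum.map_inl, hn]⟩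
      · have : μ l (f k) ≠ 0 := by
          intro h0
          apply hkl
          change μᴴ (f k) l = 0
          rw [conjTranspose_apply, h0, star_zero]
        have := hN.gm _ _ this
        have := fd k
        obtain ⟨n, hn⟩ := rf l (by omega)
        exact ⟨Sum.inr n, by rw [Sum.map_inr, hn]⟩
  have sE : SuppIn (H : Set G) ((δ * η).submatrix f f) := by
    intro i j
    have : SuppIn (H : Set G) (δ * η) := by
      rw [hδ, hη, ← ext_mul]
      exact supp_ext _
    exact this _ _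
  have sE' : SuppIn (H : Set G) ((η * δ).submatrix f f) := by
    intro i j
    have : SuppIn (H : Set G) (η * δ) := by
      rw [hδ, hη, ← ext_mul]
      exact supp_ext _
    exact this _ _
  have hHi : ∀ x ∈ (H : Set G), x⁻¹ ∈ (H : Set G) := fun x hx => H.inv_mem hx
  refine core hLAG ε ψ (μ.submatrix f f) χ (a.submatrix f f) (b.submatrix f f)
    ((δ * η).submatrix f f) ((η * δ).submatrix f f) hψa hχb hnil heh hee h1 h2 h3 ?_ ?_
    (ext α1) (ext β1) ?_ ?_ (ext α2) (ext β2) ?_ ?_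
  · obtain ⟨c, hc⟩ := tat X1 (-ε) (((δ * η).submatrix f f)ᴴ * ψ * (δ * η).submatrix f f) h1i h1n
      (INDAux.supp_mul (INDAux.supp_mul (INDAux.supp_star sE hHi) hψ (fun x hx y hy => h1l x hx y hy))
        sE (fun x hx y hy => h1r y hy x hx)) (by
        rw [INDAux.neg_units, eq_neg_iff_add_eq_zero, ← h1, ← hψa]
        simp only [conjTranspose_mul, conjTranspose_conjTranspose, Matrix.mul_assoc,
          Matrix.add_mul, Matrix.mul_add, Matrix.smul_mul, Matrix.mul_smul])
    exact ⟨c, by rw [hc, INDAux.neg_units, sub_eq_add_neg]⟩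
  · obtain ⟨c, hc⟩ := tat X2 (-ε) ((η * δ).submatrix f f * χ * ((η * δ).submatrix f f)ᴴ) h2i h2n
      (INDAux.supp_mul (INDAux.supp_mul sE' hχ (fun x hx y hy => h2l x hx y hy))
        (INDAux.supp_star sE' hHi) (fun x hx y hy => h2r y hy x hx)) (by
        rw [INDAux.neg_units, eq_neg_iff_add_eq_zero, ← h2, ← hχb]
        simp only [conjTranspose_mul, conjTranspose_conjTranspose, Matrix.mul_assoc,
          Matrix.add_mul, Matrix.mul_add, Matrix.smul_mul, Matrix.mul_smul])
    exact ⟨c, by rw [hc, INDAux.neg_units, sub_eq_add_neg]⟩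
  · rw [← ext_mul, k1, ext_blocks, ext_zero, ext_zero, ext_one, hδ, hη, ← ext_mul]
    rfl
  · rw [← ext_mul, k1', ext_one]
  · rw [← ext_mul, k2, ext_blocks, ext_zero, ext_zero, ext_one, hδ, hη, ← ext_mul]
    rfl
  · rw [← ext_mul, k2', ext_one]

end Pool.Agent.Lib.MP8a3537.AU
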