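import Pool.Agent.Lib.MP_8a3537_gt.AU.Spec

/-! # AU, module LAG (helper47): a form with a stably free Lagrangian is stably hyperbolic -/

set_option autoImplicit false

namespace Pool.Agent.Lib.MP8a3537.AU

open Matrix Pool.Agent.Lib.MP8a3537.UV

namespace LAGAux

variable {A : Type} [Ring A] [StarRing A]

/-- A Lagrangian with a retraction. -/
theorem lagr (e : ℤ) (hee : e * e = 1) {W Q : Type} [Fintype W] [DecidableEq W] [Fintype Q]
    [DecidableEq Q]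
    (Ψ Φi : Matrix W W A) (h1 : (Ψ + e • Ψᴴ) * Φi = 1) (i : Matrix W Q A)
    (j : Matrix Q W A) (hji : j * i = 1) (Z : Matrix Q Q A)
    (hZ : iᴴ * Ψ * i = Z - e • Zᴴ)
    (hmax : ∀ x : W → A, iᴴ *ᵥ ((Ψ + e • Ψᴴ) *ᵥ x) = 0 → ∃ y, x = i *ᵥ y) :
    ∃ (u : Matrix W (Q ⊕ Q) A) (v : Matrix (Q ⊕ Q) W A) (Z : Matrix (Q ⊕ Q) (Q ⊕ Q) A),
    u * v = 1 ∧ v * u = 1 ∧ hyp Q A = uᴴ * Ψ * u + Z - e • Zᴴ := by
  obtain ⟨Φ, hΦ⟩ : ∃ Φ : Matrix W W A, Φ = Ψ + e • Ψᴴ := ⟨_, rfl⟩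
  rw [← hΦ] at h1
  simp only [← hΦ] at hmax
  have hst : ∀ {a b : Type} (M : Matrix a b A), (e • M)ᴴ = e • Mᴴ := fun M =>
    conjTranspose_zsmul e M
  have hee' : ∀ {a b : Type} (M : Matrix a b A), e • e • M = M := fun M => by
    rw [smul_smul, hee, one_smul]
  have hsub : ∀ {a b : Type} (M T : Matrix a b A),
      (M - e • T)ᴴ = Mᴴ - e • Tᴴ := fun M T => by rw [conjTranspose_sub, hst]
  have hΦs : Φᴴ = e • Φ := by
    rw [hΦ, conjTranspose_add, hst, conjTranspose_conjTranspose, smul_add, hee', add_comm]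
  have hexp : ∀ {a b : Type} [Fintype a] [Fintype b] (x : Matrix W a A) (y : Matrix W b A),
      xᴴ * Φ * y = xᴴ * Ψ * y + e • (yᴴ * Ψ * x)ᴴ := by
    intro a b _ _ x y
    rw [hΦ, Matrix.mul_add, Matrix.add_mul, Matrix.mul_smul, Matrix.smul_mul,
      conjTranspose_mul, conjTranspose_mul, conjTranspose_conjTranspose, Matrix.mul_assoc xᴴ Ψᴴ y]
  have hiΦi : iᴴ * Φ * i = 0 := by
    rw [hexp, hZ, hsub, conjTranspose_conjTranspose, smul_sub, hee']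
    abel
  obtain ⟨k, hk⟩ : ∃ k : Matrix W Q A, k = Φi * jᴴ := ⟨_, rfl⟩
  have hik : iᴴ * Φ * k = 1 := by
    rw [hk, Matrix.mul_assoc, ← Matrix.mul_assoc Φ, h1, Matrix.one_mul, ← conjTranspose_mul, hji,
      conjTranspose_one]
  obtain ⟨m, hm⟩ : ∃ m : Matrix Q Q A, m = kᴴ * Ψ * k := ⟨_, rfl⟩
  obtain ⟨s, hs⟩ : ∃ s : Matrix Q Q A, s = iᴴ * Ψ * k := ⟨_, rfl⟩
  obtain ⟨t, ht⟩ : ∃ t : Matrix Q Q A, t = kᴴ * Ψ * i := ⟨_, rfl⟩
  have hst1 : s + e • tᴴ = 1 := by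
    rw [← hik, hexp, ← hs, ← ht]
  obtain ⟨k', hk'⟩ : ∃ k' : Matrix W Q A, k' = k - i * mᴴ := ⟨_, rfl⟩
  have hk'H : k'ᴴ = kᴴ - m * iᴴ := by
    rw [hk', conjTranspose_sub, conjTranspose_mul, conjTranspose_conjTranspose]
  have hik' : iᴴ * Φ * k' = 1 := by
    rw [hk', Matrix.mul_sub, hik, ← Matrix.mul_assoc, hiΦi, Matrix.zero_mul, sub_zero]
  obtain ⟨Y, hY⟩ : ∃ Y : Matrix Q Q A, Y = m * Z * mᴴ - t * mᴴ := ⟨_, rfl⟩
  have hk'k' : k'ᴴ * Ψ * k' = Y - e • Yᴴ := by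
    have e0 : k'ᴴ * Ψ * k' = kᴴ * Ψ * k - m * (iᴴ * Ψ * k) - kᴴ * Ψ * i * mᴴ +
        m * (iᴴ * Ψ * i) * mᴴ := by
      rw [hk'H, hk']
      simp only [Matrix.sub_mul, Matrix.mul_sub, Matrix.mul_assoc]
      abel
    rw [← hm, ← hs, ← ht, hZ] at e0
    have e2 : m * s = m - e • (m * tᴴ) := by
      have : s = 1 - e • tᴴ := by rw [← hst1]; abel
      rw [this, Matrix.mul_sub, Matrix.mul_one, Matrix.mul_smul]
    have e3 : Yᴴ = m * Zᴴ * mᴴ - m * tᴴ := by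
      rw [hY, conjTranspose_sub, conjTranspose_mul, conjTranspose_mul, conjTranspose_mul,
        conjTranspose_conjTranspose, Matrix.mul_assoc]
    rw [e0, e2, e3, hY, Matrix.mul_sub, Matrix.sub_mul, Matrix.mul_smul, Matrix.smul_mul,
      smul_sub]
    abel
  obtain ⟨b, hb⟩ : ∃ b : Matrix Q Q A, b = iᴴ * Ψ * k' := ⟨_, rfl⟩
  obtain ⟨c, hc⟩ : ∃ c : Matrix Q Q A, c = k'ᴴ * Ψ * i := ⟨_, rfl⟩
  have hbc : b + e • cᴴ = 1 := by
    rw [← hik', hexp, ← hb, ← hc]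
  obtain ⟨u, hu⟩ : ∃ u : Matrix W (Q ⊕ Q) A, u = fromCols i k' := ⟨_, rfl⟩
  have huH : uᴴ = fromRows iᴴ k'ᴴ := by
    rw [hu, conjTranspose_fromCols_eq_fromRows_conjTranspose]
  have hform : ∀ X : Matrix W W A, uᴴ * X * u =
      fromBlocks (iᴴ * X * i) (iᴴ * X * k') (k'ᴴ * X * i) (k'ᴴ * X * k') := by
    intro X
    rw [huH, fromRows_mul, hu, fromRows_mul_fromCols]
  have hJ : uᴴ * Φ * u =
      (fromBlocks 0 1 (e • (1 : Matrix Q Q A)) 0 : Matrix (Q ⊕ Q) (Q ⊕ Q) A) := by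
    rw [hform, hiΦi, hik']
    have e1 : k'ᴴ * Φ * i = e • 1 := by
      have e2 : (iᴴ * Φ * k')ᴴ = 1 := by rw [hik', conjTranspose_one]
      rw [conjTranspose_mul, conjTranspose_mul, conjTranspose_conjTranspose, hΦs,
        Matrix.smul_mul, Matrix.mul_smul, ← Matrix.mul_assoc] at e2
      rw [← e2, hee']
    have e3 : k'ᴴ * Φ * k' = 0 := by
      rw [hexp, hk'k', hsub, conjTranspose_conjTranspose, smul_sub, hee']
      abel
    rw [e1, e3]
  obtain ⟨v, hv⟩ : ∃ v : Matrix (Q ⊕ Q) W A, v =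
      (fromBlocks 0 (e • (1 : Matrix Q Q A)) 1 0 : Matrix (Q ⊕ Q) (Q ⊕ Q) A) * (uᴴ * Φ) :=
    ⟨_, rfl⟩
  have hvu : v * u = 1 := by
    rw [hv, Matrix.mul_assoc, hJ, fromBlocks_multiply]
    simp only [Matrix.zero_mul, Matrix.mul_zero, Matrix.one_mul, Matrix.mul_one, zero_add,
      add_zero, Matrix.smul_mul, hee', fromBlocks_one]
  have hright : ∃ r : Matrix (Q ⊕ Q) W A, u * r = 1 := by
    obtain ⟨X, hX⟩ : ∃ X : Matrix W W A, X = 1 - k' * (iᴴ * Φ) := ⟨_, rfl⟩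
    have hX0 : iᴴ * Φ * X = 0 := by
      rw [hX, Matrix.mul_sub, Matrix.mul_one, ← Matrix.mul_assoc, hik', Matrix.one_mul, sub_self]
    have hcol : ∀ w : W, ∃ y : Q → A, (fun a => X a w) = i *ᵥ y := by
      intro w
      apply hmax
      rw [mulVec_mulVec]
      ext q
      have := congrFun (congrFun hX0 q) w
      exact this
    choose y hy using hcol
    refine ⟨fromRows (Matrix.of fun q w => y w q) (iᴴ * Φ), ?_⟩
    rw [hu, fromCols_mul_fromRows]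
    have e1 : i * (Matrix.of fun q w => y w q) = X := by
      ext a w
      have := congrFun (hy w) a
      rw [this]
      rfl
    rw [e1, hX, sub_add_cancel]
  obtain ⟨r, hr⟩ := hright
  have huv : u * v = 1 := by
    have : v = r := by
      calc v = v * (u * r) := by rw [hr, Matrix.mul_one]
        _ = v * u * r := by rw [Matrix.mul_assoc]
        _ = r := by rw [hvu, Matrix.one_mul]
    rw [this, hr]
  refine ⟨u, v, fromBlocks (-Z) 0 (-c) (-Y), huv, hvu, ?_⟩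
  rw [hform, hZ, hk'k', ← hb, ← hc, fromBlocks_conjTranspose, fromBlocks_smul, fromBlocks_add,
    sub_eq_add_neg, fromBlocks_neg, fromBlocks_add]
  unfold hyp
  have e1 : b = 1 - e • cᴴ := by rw [← hbc]; abel
  rw [e1]
  simp only [conjTranspose_neg, conjTranspose_zero, smul_neg, smul_zero]
  congr 1 <;> abel

theorem lag0 (ε : ℤˣ) {N P Q : Type} [Fintype N] [DecidableEq N]
    [Fintype P] [DecidableEq P] [Fintype Q] [DecidableEq Q] (Ψ Φi E : Matrix N N A)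
    (α : Matrix (N ⊕ P) Q A) (β : Matrix Q (N ⊕ P) A)
    (h1 : (Ψ + (ε : ℤ) • Ψᴴ) * Φi = 1)
    (hZ : ∃ Z, Eᴴ * Ψ * E = Z - (ε : ℤ) • Zᴴ)
    (hmax : ∀ x : N → A, Eᴴ *ᵥ ((Ψ + (ε : ℤ) • Ψᴴ) *ᵥ x) = 0 → x = E *ᵥ x)
    (hαβ : α * β = fromBlocks E 0 0 1) (hβα : β * α = 1) :
    Isometric ε (fromBlocks Ψ 0 0 (hyp P A)) (hyp Q A) := by
  obtain ⟨Z, hZ⟩ := hZ
  obtain ⟨αN, αP, rfl⟩ : ∃ αN αP, α = fromRows αN αP := ⟨_, _, (fromRows_toRows α).symm⟩
  obtain ⟨βN, βP, rfl⟩ : ∃ βN βP, β = fromCols βN βP := ⟨_, _, (fromCols_toCols β).symm⟩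
  have hα : E * αN = αN := by
    have e1 : (fromBlocks E 0 0 1 : Matrix (N ⊕ P) (N ⊕ P) A) * fromRows αN αP =
        fromRows αN αP := by
      rw [← hαβ, Matrix.mul_assoc, hβα, Matrix.mul_one]
    rw [fromBlocks_mul_fromRows] at e1
    have e2 := congrArg toRows₁ e1
    rw [toRows₁_fromRows, toRows₁_fromRows, Matrix.zero_mul, add_zero] at e2
    exact e2
  have hee : (ε : ℤ) * ε = 1 := Int.units_coe_mul_self ε
  have hpol : fromBlocks Ψ 0 0 (hyp P A) + (ε : ℤ) • (fromBlocks Ψ 0 0 (hyp P A))ᴴ =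
      fromBlocks (Ψ + (ε : ℤ) • Ψᴴ) 0 0 (fromBlocks 0 1 ((ε : ℤ) • 1) 0) := by
    unfold hyp
    rw [fromBlocks_conjTranspose, fromBlocks_conjTranspose, fromBlocks_smul, fromBlocks_smul,
      fromBlocks_add, fromBlocks_add]
    simp
  refine lagr (ε : ℤ) hee _ (fromBlocks Φi 0 0 (fromBlocks 0 ((ε : ℤ) • 1) 1 0)) ?_
    (fromRows αN (fromRows αP 0)) (fromCols βN (fromCols βP 0)) ?_ (αNᴴ * Z * αN) ?_ ?_
  · rw [hpol, fromBlocks_multiply, fromBlocks_multiply]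
    simp only [Matrix.zero_mul, Matrix.mul_zero, Matrix.one_mul, Matrix.mul_one, zero_add,
      add_zero, h1, Matrix.smul_mul, smul_smul, hee, one_smul, fromBlocks_one]
  · rw [fromCols_mul_fromRows, fromCols_mul_fromRows, Matrix.zero_mul, add_zero,
      ← fromCols_mul_fromRows, hβα]
  · rw [conjTranspose_fromRows_eq_fromCols_conjTranspose,
      conjTranspose_fromRows_eq_fromCols_conjTranspose, Matrix.mul_assoc,
      fromBlocks_mul_fromRows]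
    unfold hyp
    rw [fromBlocks_mul_fromRows]
    simp only [Matrix.zero_mul, Matrix.mul_zero, zero_add, add_zero, fromCols_mul_fromRows]
    have e1 : αNᴴ * (Ψ * αN) = αNᴴ * (Eᴴ * Ψ * E) * αN := by
      conv_lhs => rw [← hα]
      rw [conjTranspose_mul]
      simp only [Matrix.mul_assoc]
    rw [e1, hZ, Matrix.mul_sub, Matrix.sub_mul, Matrix.mul_smul,
      Matrix.smul_mul, conjTranspose_mul, conjTranspose_mul, conjTranspose_conjTranspose]
    simp only [Matrix.mul_assoc]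
  · intro x hx
    rw [hpol] at hx
    obtain ⟨xN, x1, x2, rfl⟩ : ∃ xN x1 x2, x = Sum.elim xN (Sum.elim x1 x2) :=
      ⟨x ∘ Sum.inl, x ∘ Sum.inr ∘ Sum.inl, x ∘ Sum.inr ∘ Sum.inr, by
        ext (a | a | a) <;> rfl⟩
    have hx' : (fromRows αN αP)ᴴ *ᵥ Sum.elim ((Ψ + (ε : ℤ) • Ψᴴ) *ᵥ xN) x2 = 0 := by
      rw [← hx, conjTranspose_fromRows_eq_fromCols_conjTranspose,
        conjTranspose_fromRows_eq_fromCols_conjTranspose,
        conjTranspose_fromRows_eq_fromCols_conjTranspose, fromBlocks_mulVec, fromCols_mulVec]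
      simp only [Sum.elim_comp_inl, Sum.elim_comp_inr, Matrix.zero_mulVec, zero_add, add_zero,
        fromCols_mulVec, fromBlocks_mulVec, Matrix.one_mulVec, conjTranspose_zero]
    have h2 : (fromBlocks E 0 0 (1 : Matrix P P A))ᴴ *ᵥ
        Sum.elim ((Ψ + (ε : ℤ) • Ψᴴ) *ᵥ xN) x2 = 0 := by
      rw [← hαβ, conjTranspose_mul, ← mulVec_mulVec, hx', mulVec_zero]
    rw [fromBlocks_conjTranspose, fromBlocks_mulVec] at h2
    simp only [Sum.elim_comp_inl, Sum.elim_comp_inr, conjTranspose_zero, Matrix.zero_mulVec,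
      zero_add, add_zero, conjTranspose_one, Matrix.one_mulVec] at h2
    have h3 : Eᴴ *ᵥ ((Ψ + (ε : ℤ) • Ψᴴ) *ᵥ xN) = 0 := by
      ext a
      exact congrFun h2 (Sum.inl a)
    have h4 : x2 = 0 := by
      ext a
      exact congrFun h2 (Sum.inr a)
    have h5 := hmax xN h3
    have h6 : fromRows αN αP *ᵥ (fromCols βN βP *ᵥ Sum.elim xN x1) = Sum.elim xN x1 := by
      rw [mulVec_mulVec, hαβ, fromBlocks_mulVec]
      simp only [Sum.elim_comp_inl, Sum.elim_comp_inr, Matrix.zero_mulVec, zero_add, add_zero,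
        Matrix.one_mulVec, ← h5]
    refine ⟨fromCols βN βP *ᵥ Sum.elim xN x1, ?_⟩
    rw [fromRows_mulVec] at h6
    rw [fromRows_mulVec, fromRows_mulVec, h4]
    have h7 : αN *ᵥ (fromCols βN βP *ᵥ Sum.elim xN x1) = xN := by
      ext a
      exact congrFun h6 (Sum.inl a)
    have h8 : αP *ᵥ (fromCols βN βP *ᵥ Sum.elim xN x1) = x1 := by
      ext a
      exact congrFun h6 (Sum.inr a)
    rw [h7, h8, Matrix.zero_mulVec]

end LAGAux

open LAGAux in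
/-- **LAG.** -/
theorem specLAG : SpecLAG := by
  intro A _ _ ε N P Q _ _ _ _ _ _ Ψ Φi E α β h1 _ _ hZ hmax hαβ hβα
  let eP := Fintype.equivFin P
  let eQ := Fintype.equivFin Q
  let eN : N ⊕ P ≃ N ⊕ Fin (Fintype.card P) := Equiv.sumCongr (Equiv.refl N) eP
  refine ⟨Fintype.card P, Fintype.card Q, ?_⟩
  refine lag0 ε Ψ Φi E (α.submatrix eN.symm eQ.symm) (β.submatrix eQ.symm eN.symm) h1 hZ hmax
    ?_ ?_
  · rw [submatrix_mul_equiv, hαβ]
    ext (a | a) (b | b)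
    · rfl
    · rfl
    · rfl
    · show (1 : Matrix P P A) (eP.symm a) (eP.symm b) = (1 : Matrix _ _ A) a b
      rw [Matrix.one_apply, Matrix.one_apply]
      simp only [EmbeddingLike.apply_eq_iff_eq]
  · rw [submatrix_mul_equiv, hβα, submatrix_one_equiv]

end Pool.Agent.Lib.MP8a3537.AU
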