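import Pool.Agent.Lib.MP_8a3537_gt.AU.Spec

/-!
# LIF: lifting of a chain map
-/

namespace Pool.Agent.Lib.MP8a3537.AU

open Matrix

/-- **LIF**: lifting of a chain map. -/
theorem specLIF (h1 : SpecDES) : SpecLIF := by
  intro S _ C J k g0 hC hJ hg0 hCg hx
  have hY : ∀ j, J.deg j = k - 1 → ∃ y : C.I → S,
      ∀ i, (C.d *ᵥ y) i = - (g0 * J.d) i j := by
    intro j hj
    obtain ⟨y, hy⟩ := hx (Pi.single j (-1)) (by
      intro l hl
      have : l = j := by
        by_contra hne
        exact hl (Pi.single_eq_of_ne hne _)
      rw [this, hj])
    refine ⟨y, fun i => ?_⟩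
    rw [← hy, mulVec_mulVec, mulVec_single]
    simp
  choose! Y hY using hY
  have hid : (C.d.map (RingHom.id S)) = C.d := by
    ext i j
    simp
  have hid' : (J.d.map (RingHom.id S)) = J.d := by
    ext i j
    simp
  obtain ⟨F, hF⟩ : ∃ F : Matrix C.I J.I S, ∀ i j, F i j = if J.deg j = k then g0 i j else
      if J.deg j = k - 1 ∧ C.deg i = k - 1 then Y j i else 0 :=
    ⟨fun i j => if J.deg j = k then g0 i j else
      if J.deg j = k - 1 ∧ C.deg i = k - 1 then Y j i else 0, fun _ _ => rfl⟩
  obtain ⟨f, _, f2, f3, f4⟩ := h1 S S (RingHom.id S) ⊤ C J (k - 2) 0 (-1) 0 F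
    (fun _ _ _ => AddSubgroup.mem_top _)
    (by
      intro x _ hx1 hx2
      rw [hid] at hx2
      obtain ⟨y, hy⟩ := hC x (fun i hi => by have := hx1 i hi; omega) hx2
      exact ⟨y, fun _ => AddSubgroup.mem_top _, by rw [hid]; exact hy⟩)
    (fun _ _ => AddSubgroup.mem_top _) (fun _ _ => AddSubgroup.mem_top _)
    (by intro i j h; exact absurd rfl h)
    (by
      intro i j hij
      rw [hF] at hij
      split_ifs at hij with a b
      · have := hg0 i j hij
        omega
      · omega
      · exact absurd rfl hij)
    (by simp)
    (by
      intro i j hj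
      rw [hid, hid']
      have hjk := hJ j
      by_cases hk : J.deg j = k
      · have e1 : (C.d * F) i j = (C.d * g0) i j := by
          simp only [mul_apply, hF, if_pos hk]
        have e2 : (F * J.d) i j = 0 := by
          rw [mul_apply]
          apply Finset.sum_eq_zero
          intro l _
          by_cases h0 : J.d l j = 0
          · rw [h0, mul_zero]
          · exfalso
            have a1 := J.hd l j h0
            have a2 := hJ l
            omega
        rw [e1, hCg, Matrix.add_apply, Matrix.smul_apply, e2]
        simp
      · have hk1 : J.deg j = k - 1 := by omega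
        have e2 : (F * J.d) i j = (g0 * J.d) i j := by
          simp only [mul_apply]
          apply Finset.sum_congr rfl
          intro l _
          by_cases h0 : J.d l j = 0
          · rw [h0, mul_zero, mul_zero]
          · have a1 := J.hd l j h0
            rw [hF, if_pos (by omega)]
        rw [Matrix.add_apply, Matrix.smul_apply, e2]
        have e3 := hY j hk1 i
        by_cases hi : C.deg i = k
        · have e1 : (C.d * F) i j = (C.d *ᵥ Y j) i := by
            simp only [mul_apply, mulVec, dotProduct, hF, if_neg hk]
            apply Finset.sum_congr rfl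
            intro l _
            by_cases h0 : C.d i l = 0
            · rw [h0, zero_mul, zero_mul]
            · have a1 := C.hd i l h0
              rw [if_pos ⟨hk1, by omega⟩]
          rw [e1, e3]
          simp
        · have e1 : (C.d * F) i j = 0 := by
            simp only [mul_apply, hF, if_neg hk]
            apply Finset.sum_eq_zero
            intro l _
            by_cases h0 : C.d i l = 0
            · rw [h0, zero_mul]
            · have a1 := C.hd i l h0
              rw [if_neg (by rintro ⟨_, a3⟩; omega), mul_zero]
          have e4 : (g0 * J.d) i j = 0 := by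
            rw [mul_apply]
            apply Finset.sum_eq_zero
            intro l _
            by_cases h0 : g0 i l = 0
            · rw [h0, zero_mul]
            · exact absurd (hg0 i l h0).1 hi
          rw [e1, e4]
          simp)
  refine ⟨f, fun i j hij => ?_, fun i j hj => ?_, ?_⟩
  · have := f2 i j hij
    omega
  · have := f3 i j (by omega)
    rw [this, hF, if_pos hj]
  · rw [hid, hid'] at f4
    rw [f4]
    simp

end Pool.Agent.Lib.MP8a3537.AU
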