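import Pool.Agent.Lib.MP_8a3537_gt.AU.Spec

/-!
AU, module NOE: submodules of `S^m` are generated by the columns of a matrix.
-/

namespace Pool.Agent.Lib.MP8a3537.AU

open Matrix

namespace NOEAux

/-- The right module `S` is the left module `Sᵐᵒᵖ` over `Sᵐᵒᵖ`. -/
def opEquiv (S : Type) [Ring S] : S ≃ₗ[Sᵐᵒᵖ] Sᵐᵒᵖ where
  toFun := MulOpposite.op
  invFun := MulOpposite.unop
  left_inv _ := rfl
  right_inv _ := rfl
  map_add' _ _ := rfl
  map_smul' s x := by
    simp [MulOpposite.smul_eq_mul_unop]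

end NOEAux

open NOEAux in
theorem specNOE : SpecNOE := by
  intro S _ _ m _ hN Z
  have h1 : IsNoetherianRing Sᵐᵒᵖ := isNoetherianRing_of_ringEquiv S starRingEquiv
  have h2 : IsNoetherian Sᵐᵒᵖ S := isNoetherian_of_linearEquiv (opEquiv S).symm
  have h3 : IsNoetherian Sᵐᵒᵖ (m → S) := inferInstance
  obtain ⟨r, s, hs⟩ := Submodule.fg_iff_exists_fin_generating_family.1
    (IsNoetherian.noetherian Z)
  refine ⟨r, Matrix.of fun i j => s j i, ?_⟩
  have key : ∀ y : Fin r → S, (Matrix.of fun i j => s j i : Matrix m (Fin r) S) *ᵥ y =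
      ∑ j, MulOpposite.op (y j) • s j := by
    intro y
    ext i
    simp [Matrix.mulVec, dotProduct, Finset.sum_apply]
  ext x
  rw [← hs, Submodule.mem_span_range_iff_exists_fun]
  constructor
  · rintro ⟨c, hc⟩
    refine ⟨fun j => (c j).unop, ?_⟩
    rw [key]
    simp [hc]
  · rintro ⟨y, hy⟩
    refine ⟨fun j => MulOpposite.op (y j), ?_⟩
    rw [hy, key]

end Pool.Agent.Lib.MP8a3537.AU
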