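import Pool.Agent.Lib.MP_8a3537_gt.AU.Spec

/-!
# MP_8a3537_gt, folder AU: module RSP, the resolution of a submodule of `H^k(C)` for `k ≥ 1`
-/

namespace Pool.Agent.Lib.MP8a3537.AU

open Matrix

namespace RSPAux

variable {S : Type} [Ring S]

/-- Extension by zero along `ρ`. -/
noncomputable def ez {I K : Type} (ρ : I → K) (x : I → S) : K → S := Function.extend ρ x 0

theorem ez_apply {I K : Type} {ρ : I → K} (hρ : Function.Injective ρ) (x : I → S) (l : I) :
    ez ρ x (ρ l) = x l := hρ.extend_apply x 0 l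

theorem ez_of_not {I K : Type} {ρ : I → K} (x : I → S) (i : K) (h : ¬ ∃ l, ρ l = i) :
    ez ρ x i = 0 := by
  unfold ez
  rw [Function.extend_apply' _ _ _ h]
  rfl

theorem ez_comp {I K : Type} {ρ : I → K} (hρ : Function.Injective ρ) (x : I → S) :
    ez ρ x ∘ ρ = x := by
  funext l
  exact ez_apply hρ x l

theorem ez_restrict {I K : Type} {ρ : I → K} (hρ : Function.Injective ρ) (x : K → S)
    (hx : ∀ i, x i ≠ 0 → ∃ l, ρ l = i) : ez ρ (x ∘ ρ) = x := by
  funext i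
  by_cases h : ∃ l, ρ l = i
  · obtain ⟨l, rfl⟩ := h
    rw [ez_apply hρ]
    rfl
  · rw [ez_of_not _ _ h]
    by_contra h0
    exact h (hx i (fun h1 => h0 h1.symm))

theorem ez_sub {I K : Type} {ρ : I → K} (hρ : Function.Injective ρ) (x y : I → S) :
    ez ρ (x - y) = ez ρ x - ez ρ y := by
  funext i
  by_cases h : ∃ l, ρ l = i
  · obtain ⟨l, rfl⟩ := h
    rw [Pi.sub_apply, ez_apply hρ, ez_apply hρ, ez_apply hρ]
    rfl
  · rw [Pi.sub_apply, ez_of_not _ _ h, ez_of_not _ _ h, ez_of_not _ _ h, sub_zero]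

/-- The extension by zero of the rows of a matrix. -/
noncomputable def em {I K J : Type} (ρ : I → K) (q : Matrix I J S) : Matrix K J S :=
  fun i j => ez ρ (fun l => q l j) i

theorem em_mulVec {I K J : Type} [Fintype J] {ρ : I → K} (hρ : Function.Injective ρ)
    (q : Matrix I J S) (y : J → S) : em ρ q *ᵥ y = ez ρ (q *ᵥ y) := by
  funext i
  by_cases h : ∃ l, ρ l = i
  · obtain ⟨l, rfl⟩ := h
    rw [ez_apply hρ]
    simp only [mulVec, dotProduct, em]
    refine Finset.sum_congr rfl fun j _ => ?_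
    rw [ez_apply hρ]
  · rw [ez_of_not _ _ h]
    simp only [mulVec, dotProduct, em]
    refine Finset.sum_eq_zero fun j _ => ?_
    rw [ez_of_not _ _ h, zero_mul]

/-- The shift of degrees. -/
def shift (Q : FC S) (k : ℤ) : FC S where
  I := Q.I
  deg i := Q.deg i + k
  d := Q.d
  hd i j h := by
    have := Q.hd i j h
    omega
  dd := Q.dd

theorem mulVec_congr {m n : Type} [Fintype n] (M M' : Matrix m n S) (y : n → S)
    (h : ∀ i j, y j ≠ 0 → M i j = M' i j) : M *ᵥ y = M' *ᵥ y := by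
  funext i
  simp only [mulVec, dotProduct]
  refine Finset.sum_congr rfl fun j _ => ?_
  by_cases h0 : y j = 0
  · rw [h0, mul_zero, mul_zero]
  · rw [h i j h0]

end RSPAux

open RSPAux in
theorem specRSP (h1 : SpecLIF) (h2 : SpecTRU) : SpecRSP := by
  intro S _ _ hS C k hk hC hCd Z hBZ hZC
  obtain ⟨P, ρ, hP, hρ, hPdeg, hsurj, hPd, hcy, hbd⟩ := h2 S C k hCd
  -- degrees of the dual of `P`
  have hPdd : ∀ i, P.dual.deg i = C.deg (ρ i) + k := by
    intro i
    have := hPdeg i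
    change - P.deg i = _
    omega
  -- the restriction of `Z`
  let Z' : Submodule Sᵐᵒᵖ (P.dual.I → S) := Z.map (LinearMap.funLeft Sᵐᵒᵖ S ρ)
  have hmemZ' : ∀ x' : P.dual.I → S, x' ∈ Z' ↔ ∃ x ∈ Z, x ∘ ρ = x' := by
    intro x'
    rfl
  have hsuppZ : ∀ x ∈ Z, ∀ i, x i ≠ 0 → C.deg i = k := fun x hx => (hZC hx).1
  have hrange : ∀ x : C.I → S, (∀ i, x i ≠ 0 → C.deg i = k) → ∀ i, x i ≠ 0 → ∃ l, ρ l = i := by
    intro x hx i hi
    apply hsurj
    have := hx i hi
    omega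
  -- (A)
  have hA : ∀ x' ∈ Z', ez ρ x' ∈ Z := by
    intro x' hx'
    obtain ⟨x, hx, rfl⟩ := (hmemZ' x').1 hx'
    rw [ez_restrict hρ x (hrange x (hsuppZ x hx))]
    exact hx
  -- (B)
  have hB : ∀ x' ∈ P.dual.Bd ((2 * k : ℕ) : ℤ), ez ρ x' ∈ C.Bd k := by
    rintro x' ⟨hx', y, hy⟩
    have hs : ∀ i, ez ρ x' i ≠ 0 → C.deg i = k := by
      intro i hi
      by_cases h : ∃ l, ρ l = i
      · obtain ⟨l, rfl⟩ := h
        rw [ez_apply hρ] at hi
        have h3 := hx' l hi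
        have h4 := hPdd l
        push_cast at h3
        omega
      · exact absurd (ez_of_not _ _ h) hi
    refine ⟨hs, ?_⟩
    refine (hbd k (by omega) (ez ρ x') (fun i hi => (hs i hi).ge)).2 ⟨y, ?_⟩
    rw [ez_comp hρ]
    exact hy
  -- (B')
  have hB' : ∀ x : C.I → S, (∀ i, x i ≠ 0 → C.deg i = k) → (∃ y, x = C.d *ᵥ y) →
      x ∘ ρ ∈ P.dual.Bd ((2 * k : ℕ) : ℤ) := by
    intro x hx hy
    refine ⟨?_, ?_⟩
    · intro l hl
      have h3 := hx (ρ l) hl
      have h4 := hPdd l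
      push_cast
      omega
    · exact (hbd k (by omega) x (fun i hi => (hx i hi).ge)).1 hy
  have hBZ' : P.dual.Bd ((2 * k : ℕ) : ℤ) ≤ Z' := by
    intro x' hx'
    refine (hmemZ' x').2 ⟨ez ρ x', hBZ (hB x' hx'), ez_comp hρ x'⟩
  have hZC' : Z' ≤ P.dual.Cy ((2 * k : ℕ) : ℤ) := by
    intro x' hx'
    obtain ⟨x, hx, rfl⟩ := (hmemZ' x').1 hx'
    have h3 := hZC hx
    refine ⟨?_, ?_⟩
    · intro l hl
      have h4 := h3.1 (ρ l) hl
      have h5 := hPdd l
      push_cast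
      omega
    · exact (hcy k (by omega) x (fun i hi => (h3.1 i hi).ge)).1 h3.2
  obtain ⟨Q, q, hQ, hQd⟩ := hS.auslander P hP (2 * k) Z' hBZ' hZC'
  obtain ⟨hQres, hqsupp, hqmem, hqonto, hqim, hqker⟩ := hQ
  -- the extended matrix
  have hg0 : ∀ y, em ρ q *ᵥ y = ez ρ (q *ᵥ y) := fun y => em_mulVec hρ q y
  have hg0Z : ∀ y, em ρ q *ᵥ y ∈ Z := by
    intro y
    rw [hg0]
    exact hA _ (hqmem y)
  have hcol : ∀ i j, (em ρ q) i j = (em ρ q *ᵥ Pi.single j 1) i := by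
    intro i j
    rw [mulVec_single_one]
    rfl
  have hsupp0 : ∀ (i : C.I) (j : (shift Q k).I), em ρ q i j ≠ 0 →
      C.deg i = k ∧ (shift Q k).deg j = k := by
    intro i j hij
    refine ⟨?_, ?_⟩
    · rw [hcol] at hij
      exact hsuppZ _ (hg0Z _) i hij
    · by_cases h : ∃ l, ρ l = i
      · obtain ⟨l, rfl⟩ := h
        have h3 : q l j ≠ 0 := by
          intro h4
          apply hij
          change ez ρ (fun l => q l j) (ρ l) = 0
          rw [ez_apply hρ]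
          exact h4
        have h5 := hqsupp l j h3
        change Q.deg j + k = k
        omega
      · exact absurd (ez_of_not _ _ h) hij
  have hCg0 : C.d * (em ρ q : Matrix C.I (shift Q k).I S) = 0 := by
    funext i j
    have h3 : C.d *ᵥ (em ρ q *ᵥ Pi.single j 1) = 0 := (hZC (hg0Z _)).2
    rw [mulVec_mulVec, mulVec_single_one] at h3
    exact congrFun h3 i
  have hJdeg : ∀ j, (shift Q k).deg j ≤ k := by
    intro j
    have := hQres.1 j
    change Q.deg j + k ≤ k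
    omega
  obtain ⟨g, hg1, hg2, hg3⟩ := h1 S C (shift Q k) k (em ρ q) hC hJdeg hsupp0 hCg0 (by
    intro x _
    have h3 : ez ρ (q *ᵥ (Q.d *ᵥ x)) ∈ C.Bd k := hB _ (hqim x)
    obtain ⟨_, y, hy⟩ := h3
    refine ⟨y, ?_⟩
    rw [← hy]
    exact hg0 (Q.d *ᵥ x))
  -- on the vectors of degree `k`, `g` is `g0`
  have hgg0 : ∀ y : (shift Q k).I → S, (∀ j, y j ≠ 0 → (shift Q k).deg j = k) →
      g *ᵥ y = em ρ q *ᵥ y := by
    intro y hy
    exact mulVec_congr _ _ _ fun i j hj => hg2 i j (hy j hj)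
  refine ⟨shift Q k, g, hJdeg, hg1, hg3, ?_, ?_, ?_, ?_, ?_⟩
  · -- (g1)
    intro x hx hx0
    refine hQres.2 x (fun i hi => ?_) hx0
    have h3 : Q.deg i + k < k := hx i hi
    omega
  · -- (g2)
    rintro y hy ⟨x, hx⟩
    rw [hgg0 y hy] at hx
    refine hqker y (fun j hj => ?_) ?_
    · have h3 : Q.deg j + k = k := hy j hj
      omega
    · have h3 : (em ρ q *ᵥ y) ∘ ρ = q *ᵥ y := by
        funext l
        change (em ρ q *ᵥ y) (ρ l) = (q *ᵥ y) l
        rw [hg0]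
        exact ez_apply hρ _ l
      rw [← h3]
      exact hB' _ (hsuppZ _ (hg0Z y)) ⟨x, hx⟩
  · -- (g3)
    intro y hy
    rw [hgg0 y hy]
    exact hg0Z y
  · -- (g3')
    intro z hz
    obtain ⟨y, hy⟩ := hqonto (z ∘ ρ) ((hmemZ' _).2 ⟨z, hz, rfl⟩)
    classical
    let y0 : Q.I → S := fun j => if Q.deg j = 0 then y j else 0
    have hy0 : q *ᵥ y0 = q *ᵥ y := by
      funext i
      simp only [mulVec, dotProduct]
      refine Finset.sum_congr rfl fun j _ => ?_
      by_cases h0 : q i j = 0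
      · rw [h0, zero_mul, zero_mul]
      · have h5 : y0 j = y j := if_pos (hqsupp i j h0)
        rw [h5]
    have hy0k : ∀ j, y0 j ≠ 0 → (shift Q k).deg j = k := by
      intro j hj
      by_cases h0 : Q.deg j = 0
      · change Q.deg j + k = k
        omega
      · exact absurd (if_neg h0) hj
    refine ⟨y0, hy0k, ?_⟩
    rw [← hy0] at hy
    obtain ⟨_, x, hx⟩ := hB _ hy
    refine ⟨x, ?_⟩
    let zr : P.dual.I → S := z ∘ ρ
    have h5 : ez ρ (zr - q *ᵥ y0) = z - ez ρ (q *ᵥ y0) := by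
      have h6 : ez ρ (zr - q *ᵥ y0) = ez ρ zr - ez ρ (q *ᵥ y0) :=
        @ez_sub S _ P.I C.I ρ hρ zr (q *ᵥ y0)
      have h9 : ez ρ zr = z := ez_restrict hρ z (hrange z (hsuppZ z hz))
      rw [h9] at h6
      exact h6
    have h7 : g *ᵥ y0 = ez ρ (q *ᵥ y0) := (hgg0 y0 hy0k).trans (hg0 y0)
    have h8 : z - ez ρ (q *ᵥ y0) = C.d *ᵥ x := h5.symm.trans hx
    calc z = ez ρ (q *ᵥ y0) + (z - ez ρ (q *ᵥ y0)) := by abel
      _ = g *ᵥ y0 + C.d *ᵥ x := by rw [h8, h7]
  · -- (g4)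
    intro x hx hx0
    refine hQd x (fun i hi => ?_) hx0
    have h3 : -(Q.deg i + k) < k := hx i hi
    change - Q.deg i < _
    push_cast
    omega

end Pool.Agent.Lib.MP8a3537.AU
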