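import Pool.Agent.Lib.MP_8a3537_gt.AU.Spec

/-!
# Vanishing of `UNil` over Auslander regular edge rings: module `RSZ`

The resolution of a submodule `Z / B` of `H^0(C)` and its map to `C` (the case `k = 0`).
-/

namespace Pool.Agent.Lib.MP8a3537.AU

open Matrix

namespace RSZAux

variable {S : Type} [Ring S]

/-- The columns of `z` belong to `rng z`. -/
theorem col_mem {m n : Type} [Fintype n] [DecidableEq n] (z : Matrix m n S) (l : n) :
    (fun i => z i l) ∈ rng z := by
  refine ⟨Pi.single l 1, ?_⟩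
  funext i
  rw [mulVec_single_one]
  rfl

/-- `z *ᵥ y` belongs to `rng z`. -/
theorem mulVec_mem {m n : Type} [Fintype n] (z : Matrix m n S) (y : n → S) :
    z *ᵥ y ∈ rng z := ⟨y, rfl⟩

/-- The preimage of a submodule under a matrix. -/
def pre {m n : Type} [Fintype n] (z : Matrix m n S) (B : Submodule Sᵐᵒᵖ (m → S)) :
    Submodule Sᵐᵒᵖ (n → S) where
  carrier := {y | z *ᵥ y ∈ B}
  zero_mem' := by
    change z *ᵥ 0 ∈ B
    rw [mulVec_zero]
    exact B.zero_mem
  add_mem' := by
    intro x y hx hy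
    change z *ᵥ (x + y) ∈ B
    rw [mulVec_add]
    exact B.add_mem hx hy
  smul_mem' := by
    intro s x hx
    change z *ᵥ (s • x) ∈ B
    rw [mulVec_smul]
    exact B.smul_mem s hx

/-- Two matrices which agree on the support of `y` have the same product with `y`. -/
theorem mulVec_congr {m n : Type} [Fintype n] (f g : Matrix m n S) (y : n → S)
    (h : ∀ i j, y j ≠ 0 → f i j = g i j) : f *ᵥ y = g *ᵥ y := by
  funext i
  change ∑ j, f i j * y j = ∑ j, g i j * y j
  refine Finset.sum_congr rfl fun j _ => ?_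
  by_cases hj : y j = 0
  · rw [hj, mul_zero, mul_zero]
  · rw [h i j hj]

/-- Restricting a vector to the indices where the matrix is not zero. -/
theorem mulVec_restrict {m n : Type} [Fintype n] (p : n → Prop) [DecidablePred p]
    (q : Matrix m n S) (y : n → S) (h : ∀ i j, q i j ≠ 0 → p j) :
    q *ᵥ (fun j => if p j then y j else 0) = q *ᵥ y := by
  funext i
  change ∑ j, q i j * (if p j then y j else 0) = ∑ j, q i j * y j
  refine Finset.sum_congr rfl fun j _ => ?_
  by_cases hj : p j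
  · rw [if_pos hj]
  · have h0 : q i j = 0 := by
      by_contra h1
      exact hj (h i j h1)
    rw [if_neg hj, h0, zero_mul, zero_mul]

end RSZAux

open RSZAux

theorem specRSZ (hN : SpecNOE) (hL : SpecLIF) : SpecRSZ := by
  intro S _ _ hS C hC Z hBZ hZC
  obtain ⟨r, z, hz⟩ := hN S C.I hS.noeth Z
  obtain ⟨m, M, hM⟩ := hN S (Fin r) hS.noeth (pre z (C.Bd 0))
  obtain ⟨J, q, hq⟩ := hS.ffr r m M
  have hzZ : ∀ y, z *ᵥ y ∈ Z := by
    intro y
    rw [hz]
    exact mulVec_mem z y
  have hcol : ∀ l, (fun i => z i l) ∈ C.Cy 0 := by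
    intro l
    apply hZC
    rw [hz]
    exact col_mem z l
  have hzdeg : ∀ i l, z i l ≠ 0 → C.deg i = 0 := fun i l h => (hcol l).1 i h
  have hdz : C.d * z = 0 := by
    ext i l
    exact congrFun (hcol l).2 i
  have hK : ∀ y, y ∈ rng M ↔ z *ᵥ y ∈ C.Bd 0 := by
    intro y
    rw [← hM]
    rfl
  have hqdeg : ∀ l j, q l j ≠ 0 → J.deg j = 0 := hq.supp
  have h0 : ∀ i j, (z * q) i j ≠ 0 → C.deg i = 0 ∧ J.deg j = 0 := by
    intro i j h
    rw [mul_apply] at h
    obtain ⟨l, _, hl⟩ := Finset.exists_ne_zero_of_sum_ne_zero h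
    exact ⟨hzdeg i l (left_ne_zero_of_mul hl), hqdeg l j (right_ne_zero_of_mul hl)⟩
  obtain ⟨g, hg1, hg2, hg3⟩ := hL S C J 0 (z * q) hC hq.res.1 h0
    (by rw [← Matrix.mul_assoc, hdz, Matrix.zero_mul])
    (by
      intro x _
      have h1 := (hK _).1 (hq.im x)
      obtain ⟨_, y, hy⟩ := h1
      exact ⟨y, by rw [← mulVec_mulVec, hy]⟩)
  have hgq : ∀ y : J.I → S, (∀ j, y j ≠ 0 → J.deg j = 0) → g *ᵥ y = z *ᵥ (q *ᵥ y) := by
    intro y hy
    rw [mulVec_mulVec]
    exact mulVec_congr _ _ _ fun i j hj => hg2 i j (hy j hj)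
  refine ⟨J, g, ?_⟩
  refine
    { dk := hq.res.1
      gg := hg1
      cg := hg3
      g1 := hq.res.2
      g2 := ?_
      g3 := ?_
      g3' := ?_
      g4 := ?_ }
  · rintro y hy ⟨x, hx⟩
    apply hq.ker y hy
    rw [hK]
    refine ⟨(hZC (hzZ _)).1, x, ?_⟩
    rw [← hgq y hy, hx]
  · intro y hy
    rw [hgq y hy]
    exact hzZ _
  · intro z0 hz0
    rw [hz] at hz0
    obtain ⟨c, hc⟩ := hz0
    obtain ⟨y, hy⟩ := hq.onto c trivial
    obtain ⟨_, x, hx⟩ := (hK _).1 hy
    classical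
    refine ⟨fun j => if J.deg j = 0 then y j else 0, ?_, x, ?_⟩
    · intro j hj
      by_contra h1
      exact hj (if_neg h1)
    · rw [hgq, mulVec_restrict (fun j => J.deg j = 0) q y hqdeg, ← hx, mulVec_sub, hc]
      · abel
      · intro j hj
        by_contra h1
        exact hj (if_neg h1)
  · intro x hx _
    refine ⟨0, ?_⟩
    rw [mulVec_zero]
    funext i
    by_contra h1
    have h2 : - J.deg i < 0 := hx i h1
    have h3 := hq.res.1 i
    omega

end Pool.Agent.Lib.MP8a3537.AU
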