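import Pool.Agent.Lib.MP_8a3537_gt.AU.Spec

/-!
# Vanishing of `UNil` over Auslander regular edge rings: module STF

The cocycles of degree `0` of a contractible complex are stably free.
-/

namespace Pool.Agent.Lib.MP8a3537.AU

open Matrix

namespace STFAux

theorem sum_range {S X I : Type} [AddCommMonoid S] [Fintype X] [Fintype I] (ρ : X → I)
    (hρ : Function.Injective ρ) (g : I → S) (h : ∀ i, g i ≠ 0 → ∃ x, ρ x = i) :
    ∑ x, g (ρ x) = ∑ i, g i :=
  Fintype.sum_of_injective ρ hρ (fun x => g (ρ x)) g
    (fun i hi => by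
      by_contra h0
      exact hi (h i h0))
    (fun _ => rfl)

theorem main (S I N : Type) [Ring S] [Fintype I] [DecidableEq I] [Fintype N] (ν : N → I)
    (hν : Function.Injective ν) (deg : I → ℤ) (hN : ∀ n, deg (ν n) = 0)
    (hN' : ∀ i, deg i = 0 → ∃ n, ν n = i) (u v : Matrix I I S)
    (hu : ∀ i j, u i j ≠ 0 → deg i = deg j + 1) (hv : ∀ i j, v i j ≠ 0 → deg i = deg j - 1)
    (h1 : u * v + v * u = 1) (huu : u * u = 0) (hvv : v * v = 0) :
    ∃ (P Q : Type) (_ : Fintype P) (_ : DecidableEq P) (_ : Fintype Q) (_ : DecidableEq Q)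
      (α : Matrix (N ⊕ P) Q S) (β : Matrix Q (N ⊕ P) S),
      α * β = fromBlocks ((u * v).submatrix ν ν) 0 0 1 ∧ β * α = 1 := by
  classical
  have hD : ∀ i j, (u + v) i j ≠ 0 → deg i = deg j + 1 ∨ deg i = deg j - 1 := by
    intro i j hij
    by_cases h0 : u i j = 0
    · right
      apply hv
      intro h0'
      apply hij
      rw [Matrix.add_apply, h0, h0', add_zero]
    · exact Or.inl (hu i j h0)
  have hDD : (u + v) * (u + v) = 1 := by
    rw [add_mul, mul_add, mul_add, huu, hvv, zero_add, add_zero, h1]
  let P : Type := {i : I // deg i < 0 ∧ deg i % 2 = 0}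
  let Q : Type := {i : I // deg i < 0 ∧ deg i % 2 = 1}
  let ρ : N ⊕ P → I := Sum.elim ν Subtype.val
  have hρ : Function.Injective ρ := by
    rintro (n | p) (n' | p') hh
    · exact congrArg Sum.inl (hν hh)
    · exfalso
      have h2 : ν n = p'.1 := hh
      have h3 := p'.2.1
      rw [← h2, hN] at h3
      exact absurd h3 (lt_irrefl _)
    · exfalso
      have h2 : p.1 = ν n' := hh
      have h3 := p.2.1
      rw [h2, hN] at h3
      exact absurd h3 (lt_irrefl _)
    · exact congrArg Sum.inr (Subtype.ext hh)
  refine ⟨P, Q, inferInstance, inferInstance, inferInstance, inferInstance,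
    (u + v).submatrix ρ Subtype.val, (u + v).submatrix Subtype.val ρ, ?_, ?_⟩
  · have huv : ∀ i j, (u * v) i j ≠ 0 → deg i = deg j := by
      intro i j hij
      rw [Matrix.mul_apply] at hij
      obtain ⟨l, -, hl⟩ := Finset.exists_ne_zero_of_sum_ne_zero hij
      have e1 := hu i l (left_ne_zero_of_mul hl)
      have e2 := hv l j (right_ne_zero_of_mul hl)
      omega
    have hcase1 : ∀ (i : I) (n : N), ∑ q : Q, (u + v) i q.1 * (u + v) q.1 (ν n) =
        (u * v) i (ν n) := by
      intro i n
      have e1 : ∀ q : Q, (u + v) i q.1 * (u + v) q.1 (ν n) =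
          (fun l => (u + v) i l * v l (ν n)) q.1 := by
        intro q
        have : u q.1 (ν n) = 0 := by
          by_contra h0
          have := hu _ _ h0
          have h2 := q.2.1
          have h3 := hN n
          omega
        show (u + v) i q.1 * (u q.1 (ν n) + v q.1 (ν n)) = _
        rw [this, zero_add]
      refine (Finset.sum_congr rfl (fun q _ => e1 q)).trans
        ((sum_range (Subtype.val : Q → I) Subtype.val_injective
          (fun l => (u + v) i l * v l (ν n)) ?_).trans ?_)
      · intro l hl
        have h2 := hv _ _ (right_ne_zero_of_mul hl)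
        have h3 := hN n
        exact ⟨⟨l, by omega, by omega⟩, rfl⟩
      · have e2 : ∑ l, (u + v) i l * v l (ν n) = ((u + v) * v) i (ν n) := by
          rw [Matrix.mul_apply]
        rw [e2, add_mul, hvv, add_zero]
    have hcase2 : ∀ (i : I) (p : P), ∑ q : Q, (u + v) i q.1 * (u + v) q.1 p.1 =
        (1 : Matrix I I S) i p.1 := by
      intro i p
      refine (sum_range (Subtype.val : Q → I) Subtype.val_injective
        (fun l => (u + v) i l * (u + v) l p.1) ?_).trans ?_
      · intro l hl
        have h2 := hD _ _ (right_ne_zero_of_mul hl)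
        have h3 := p.2
        exact ⟨⟨l, by omega, by omega⟩, rfl⟩
      · rw [← hDD, Matrix.mul_apply]
    ext x y
    rw [Matrix.mul_apply]
    rcases y with n | p
    · have e1 : ∑ j : Q, (u + v).submatrix ρ Subtype.val x j *
          (u + v).submatrix Subtype.val ρ j (Sum.inl n) = (u * v) (ρ x) (ν n) := hcase1 (ρ x) n
      rw [e1]
      rcases x with n' | p'
      · rfl
      · show (u * v) p'.1 (ν n) = 0
        by_contra h0
        have h2 := huv _ _ h0
        have h3 := p'.2.1
        have h4 := hN n
        omega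
    · have e1 : ∑ j : Q, (u + v).submatrix ρ Subtype.val x j *
          (u + v).submatrix Subtype.val ρ j (Sum.inr p) = (1 : Matrix I I S) (ρ x) p.1 :=
        hcase2 (ρ x) p
      rw [e1]
      rcases x with n' | p'
      · show (1 : Matrix I I S) (ν n') p.1 = 0
        apply Matrix.one_apply_ne
        intro h0
        have h3 := p.2.1
        rw [← h0, hN] at h3
        exact absurd h3 (lt_irrefl _)
      · show (1 : Matrix I I S) p'.1 p.1 = (1 : Matrix P P S) p' p
        by_cases hpp : p' = p
        · rw [hpp, Matrix.one_apply_eq, Matrix.one_apply_eq]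
        · rw [Matrix.one_apply_ne hpp, Matrix.one_apply_ne]
          intro h0
          exact hpp (Subtype.ext h0)
  · ext q q'
    rw [Matrix.mul_apply]
    have e1 : ∑ j : N ⊕ P, (u + v).submatrix Subtype.val ρ q j *
        (u + v).submatrix ρ Subtype.val j q' =
        ∑ j : N ⊕ P, (fun l => (u + v) q.1 l * (u + v) l q'.1) (ρ j) := rfl
    refine e1.trans ((sum_range ρ hρ (fun l => (u + v) q.1 l * (u + v) l q'.1) ?_).trans ?_)
    rotate_left
    · have e2 : ∑ l, (u + v) q.1 l * (u + v) l q'.1 = ((u + v) * (u + v)) q.1 q'.1 := by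
        rw [Matrix.mul_apply]
      refine e2.trans ?_
      rw [hDD]
      by_cases hqq : q = q'
      · rw [hqq, Matrix.one_apply_eq, Matrix.one_apply_eq]
      · rw [Matrix.one_apply_ne hqq, Matrix.one_apply_ne]
        intro h0
        exact hqq (Subtype.ext h0)
    · intro l hl
      have h2 := hD _ _ (right_ne_zero_of_mul hl)
      have h3 := q'.2
      by_cases h0 : deg l = 0
      · obtain ⟨n, hn⟩ := hN' l h0
        exact ⟨Sum.inl n, hn⟩
      · exact ⟨Sum.inr ⟨l, by omega, by omega⟩, rfl⟩

end STFAux

theorem specSTF : SpecSTF := by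
  intro S _ C h hh h1 h2
  refine ⟨?_, ?_⟩
  · exact STFAux.main S C.I {i // C.deg i = 0} Subtype.val Subtype.val_injective C.deg
      (fun n => n.2) (fun i hi => ⟨⟨i, hi⟩, rfl⟩) C.d h C.hd hh h1 C.dd h2
  · exact STFAux.main S C.I {i // C.deg i = 0} Subtype.val Subtype.val_injective
      (fun i => - C.deg i) (fun n => by simp [n.2])
      (fun i hi => ⟨⟨i, by simpa using hi⟩, rfl⟩) h C.d
      (fun i j hij => by have := hh i j hij; omega)
      (fun i j hij => by have := C.hd i j hij; omega)
      (by rw [add_comm]; exact h1) h2 C.dd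

end Pool.Agent.Lib.MP8a3537.AU
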