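import Pool.Agent.Lib.MP_8a3537_gt.AU.Spec
import Pool.Agent.Lib.MP_8a3537_gt.UV.IND
import Pool.Agent.Lib.MP_8a3537_gt.UV.SWP

/-!
# AU, module SWA: the exchanged form
-/

namespace Pool.Agent.Lib.MP8a3537.AU

open Matrix Pool.Agent.Lib.MP8a3537.UV
open Pool.Agent.Lib.MP8a3537.UO (ext)

namespace SWAAux

section Iso

variable {A : Type} [Ring A] [StarRing A] {ε : ℤˣ}

/-- A form is isometric to the reindexed form. -/
theorem isom_reindex {ι κ : Type} [Fintype ι] [DecidableEq ι] [Fintype κ] [DecidableEq κ]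
    (e : κ ≃ ι) (Ψ : Matrix ι ι A) : Isometric ε Ψ (Ψ.submatrix e e) := by
  refine ⟨(1 : Matrix ι ι A).submatrix id e, (1 : Matrix ι ι A).submatrix e id, 0, ?_, ?_, ?_⟩
  · have h := Matrix.submatrix_mul_equiv (1 : Matrix ι ι A) (1 : Matrix ι ι A) id e id
    rw [Matrix.mul_one, submatrix_id_id] at h
    exact h
  · have h := Matrix.submatrix_mul (1 : Matrix ι ι A) (1 : Matrix ι ι A) e id e
      Function.bijective_id
    rw [Matrix.mul_one, submatrix_one_equiv] at h
    exact h.symm
  · have h1 : ((1 : Matrix ι ι A).submatrix id e)ᴴ = (1 : Matrix ι ι A).submatrix e id := by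
      rw [conjTranspose_submatrix, conjTranspose_one]
    rw [h1, conjTranspose_zero, smul_zero, sub_zero, add_zero]
    ext i j
    simp [Matrix.mul_apply, Matrix.one_apply]

/-- The exchange of the summands. -/
theorem isom_swap {n : Type} [Fintype n] [DecidableEq n] (ψ μ χ : Matrix n n A) :
    Isometric ε (UF ψ μ χ) (UF χ μᴴ ψ) := by
  refine ⟨fromBlocks 0 ((ε : ℤ) • 1) 1 0, fromBlocks 0 1 ((ε : ℤ) • 1) 0,
    fromBlocks 0 (1 + μ) 0 0, ?_, ?_, ?_⟩
  · rw [fromBlocks_multiply]
    rcases Int.units_eq_one_or ε with h | h <;> simp [h, fromBlocks_one]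
  · rw [fromBlocks_multiply]
    rcases Int.units_eq_one_or ε with h | h <;> simp [h, fromBlocks_one]
  · unfold UF
    rw [fromBlocks_conjTranspose, fromBlocks_conjTranspose, fromBlocks_multiply,
      fromBlocks_multiply, fromBlocks_smul, fromBlocks_add, sub_eq_add_neg, fromBlocks_neg,
      fromBlocks_add]
    rcases Int.units_eq_one_or ε with h | h
    · simp [h]
    · simp [h]
      abel

theorem UF_submatrix {n m : Type} [Fintype n] [DecidableEq n] [Fintype m] [DecidableEq m]
    (e : m ≃ n) (ψ μ χ : Matrix n n A) :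
    (UF ψ μ χ).submatrix (Equiv.sumCongr e e) (Equiv.sumCongr e e) =
      UF (ψ.submatrix e e) (μ.submatrix e e) (χ.submatrix e e) := by
  ext i j
  rcases i with i | i <;> rcases j with j | j <;>
    simp [UF, Matrix.one_apply, e.injective.eq_iff]

theorem stab_reindex {n m : Type} [Fintype n] [DecidableEq n] [Fintype m] [DecidableEq m]
    (e : m ≃ n) (ψ μ χ : Matrix n n A)
    (h : StablyHyperbolic ε (UF (ψ.submatrix e e) (μ.submatrix e e) (χ.submatrix e e))) :
    StablyHyperbolic ε (UF ψ μ χ) := by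
  rw [← UF_submatrix] at h
  exact SWPAux.stab_of_isom (isom_reindex _ _) h

end Iso

section Ext

variable {R G : Type} [Ring R] [StarRing R] [Group G] {H : Subgroup G}

theorem emb_star (x : MonoidAlgebra R H) :
    MonoidAlgebra.mapDomainRingHom R H.subtype (star x) =
      star (MonoidAlgebra.mapDomainRingHom R H.subtype x) := by
  induction x using MonoidAlgebra.induction_linear with
  | zero => simp
  | add f g hf hg => simp only [star_add, map_add, hf, hg]
  | single a r => simp [star_single]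

theorem ext_star {m n : Type} (M : Matrix m n (MonoidAlgebra R H)) :
    ext (G := G) Mᴴ = (ext M)ᴴ := by
  funext i j
  change MonoidAlgebra.mapDomainRingHom R H.subtype (star (M j i)) = _
  rw [emb_star]
  rfl

end Ext

section Rows

variable {R G : Type} [Ring R] [StarRing R] [Group G] {H : Subgroup G} {ε : ℤˣ}

omit [StarRing R] in
theorem exv_units {n : Type} (ε : ℤˣ) (y : n → MonoidAlgebra R H) :
    exv (G := G) ((ε : ℤ) • y) = (ε : ℤ) • exv y := by
  funext i
  change MonoidAlgebra.mapDomainRingHom R H.subtype ((ε : ℤ) • y i) = _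
  rw [map_zsmul]
  rfl

theorem W'_mulVec {n : Type} [Fintype n] [DecidableEq n] {A : Type} [Ring A]
    (x y : n → A) : INDAux.W' n A ε *ᵥ Sum.elim x y = Sum.elim ((ε : ℤ) • y) x := by
  unfold INDAux.W'
  rw [fromBlocks_mulVec]
  simp only [Sum.elim_comp_inl, Sum.elim_comp_inr, zero_mulVec, zero_add, one_mulVec, add_zero,
    smul_mulVec]

theorem W_mulVec {n : Type} [Fintype n] [DecidableEq n] {A : Type} [Ring A]
    (x : n ⊕ n → A) : INDAux.W n A ε *ᵥ x =
      Sum.elim (fun i => x (Sum.inr i)) (fun i => (ε : ℤ) • x (Sum.inl i)) := by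
  unfold INDAux.W
  rw [fromBlocks_mulVec]
  simp only [zero_mulVec, zero_add, one_mulVec, add_zero, smul_mulVec]
  rfl

/-- The powers of the exchanged matrix. -/
theorem pow_mulVec {n : Type} [Fintype n] [DecidableEq n] {A : Type} [Ring A] [StarRing A]
    (a μ b : Matrix n n A) (l : ℕ) (x y : n → A) :
    (nu ε b μᴴ a) ^ l *ᵥ Sum.elim x y =
      Sum.elim (fun i => ((nu ε a μ b) ^ l *ᵥ Sum.elim ((ε : ℤ) • y) x) (Sum.inr i))
        (fun i => (ε : ℤ) • ((nu ε a μ b) ^ l *ᵥ Sum.elim ((ε : ℤ) • y) x) (Sum.inl i)) := by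
  rw [INDAux.nu_swap_pow, ← mulVec_mulVec, ← mulVec_mulVec, W'_mulVec, W_mulVec]

theorem Cy_dual_dual (C : FC (MonoidAlgebra R H)) (k : ℤ) (y : C.I → MonoidAlgebra R H)
    (hy : y ∈ C.dual.dual.Cy k) (ε : ℤˣ) : (ε : ℤ) • y ∈ C.Cy k := by
  have h1 : y ∈ C.Cy k := by
    refine ⟨fun i hi => ?_, ?_⟩
    · have := hy.1 i hi
      have h2 : C.dual.dual.deg i = - - C.deg i := rfl
      rw [h2, neg_neg] at this
      exact this
    · have := hy.2
      have h2 : C.dual.dual.d = C.dᴴᴴ := rfl
      rw [h2, conjTranspose_conjTranspose] at this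
      exact this
  rcases Int.units_eq_one_or ε with rfl | rfl
  · simpa using h1
  · simpa using (C.Cy k).neg_mem h1

end Rows

end SWAAux

open SWAAux in
theorem specSWA : SpecSWA := by
  intro R G _ _ _ H X1 X2 X3 ε C a μ b h
  refine ⟨?_, ?_, ?_⟩
  · exact
    { sa := h.sb
      sm := INDAux.supp_star h.sm (fun x hx => by
        change x⁻¹⁻¹ ∈ X3
        rw [inv_inv]
        exact hx)
      sb := h.sa
      ga := fun i j hij => by
        have := h.gb i j hij
        change - C.deg i + - C.deg j = 0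
        omega
      gm := fun i j hij => by
        have h1 : μ j i ≠ 0 := by
          intro h0
          apply hij
          change star (μ j i) = 0
          rw [h0, star_zero]
        have := h.gm j i h1
        change - C.deg i = - C.deg j
        omega
      gb := fun i j hij => by
        have := h.ga i j hij
        change - C.deg i + - C.deg j = 0
        omega
      ha := h.hb
      hb := h.ha
      ca := by
        change b * ext C.dᴴ = (ext C.dᴴ)ᴴ * b
        rw [ext_star, conjTranspose_conjTranspose]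
        exact h.cb
      cm := by
        change μᴴ * ext C.dᴴ = ext C.dᴴ * μᴴ
        rw [ext_star, ← conjTranspose_mul, ← conjTranspose_mul, h.cm]
      cb := by
        change a * (ext C.dᴴ)ᴴ = ext C.dᴴ * a
        rw [ext_star, conjTranspose_conjTranspose]
        exact h.ca
      nil := by
        obtain ⟨l, hl⟩ := h.nil
        exact ⟨l, INDAux.swap_zero ε a μ b l hl⟩ }
  · intro k l
    constructor
    · intro hr (x : C.I → MonoidAlgebra R H) hx (y : C.I → MonoidAlgebra R H) hy
      obtain ⟨u, hu⟩ := hr ((ε : ℤ) • y) (Cy_dual_dual C k y hy ε) x hx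
      refine ⟨u, fun i => ?_⟩
      have h1 := hu i
      rw [exv_units] at h1
      have h2 : (ext C.dual.d *ᵥ u) i = ((ext C.d)ᴴ *ᵥ u) i := by
        change (ext C.dᴴ *ᵥ u) i = _
        rw [ext_star]
      rw [h2, ← h1]
      exact congrFun (pow_mulVec a μ b l (exv x) (exv y)) (Sum.inl i)
    · intro hr (x : C.I → MonoidAlgebra R H) hx (y : C.I → MonoidAlgebra R H) hy
      obtain ⟨u, hu⟩ := hr ((ε : ℤ) • y) (Cy_dual_dual C k y hy ε) x hx
      refine ⟨(ε : ℤ) • u, fun i => ?_⟩
      have h1 := hu i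
      rw [exv_units] at h1
      have h2 : ((ext C.dual.d)ᴴ *ᵥ ((ε : ℤ) • u)) i = (ε : ℤ) • (ext C.d *ᵥ u) i := by
        change ((ext C.dᴴ)ᴴ *ᵥ ((ε : ℤ) • u)) i = _
        rw [ext_star, conjTranspose_conjTranspose, mulVec_smul]
        rfl
      rw [h2, ← h1]
      exact congrFun (pow_mulVec a μ b l (exv x) (exv y)) (Sum.inr i)
  · intro hg ψ χ hψ hχ ha hb
    apply SWPAux.stab_of_isom (isom_swap ψ _ χ)
    let e : {i // C.dual.deg i = 0} ≃ {i // C.deg i = 0} :=
      Equiv.subtypeEquivRight fun i => by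
        change - C.deg i = 0 ↔ C.deg i = 0
        omega
    apply stab_reindex e
    have h1 : (μ.submatrix Subtype.val Subtype.val)ᴴ.submatrix e e =
        μᴴ.submatrix (Subtype.val : {i // C.dual.deg i = 0} → C.I) Subtype.val := rfl
    rw [h1]
    apply hg
    · exact fun i j g hgg => hχ _ _ g hgg
    · exact fun i j g hgg => hψ _ _ g hgg
    · have h2 : (χ.submatrix e e)ᴴ = χᴴ.submatrix e e := rfl
      rw [h2]
      have h3 : χ.submatrix e e + (ε : ℤ) • χᴴ.submatrix e e =
        (χ + (ε : ℤ) • χᴴ).submatrix e e := rfl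
      rw [h3, hb]
      rfl
    · have h2 : (ψ.submatrix e e)ᴴ = ψᴴ.submatrix e e := rfl
      rw [h2]
      have h3 : ψ.submatrix e e + (ε : ℤ) • ψᴴ.submatrix e e =
        (ψ + (ε : ℤ) • ψᴴ).submatrix e e := rfl
      rw [h3, ha]
      rfl

end Pool.Agent.Lib.MP8a3537.AU
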