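import Pool.Agent.Lib.MP_8a3537_gt.AU.Spec
import Pool.Agent.Lib.MP_8a3537_gt.UV.TAT
import Pool.Agent.Lib.MP_8a3537_gt.UV.STK
import Pool.Agent.Lib.MP_8a3537_gt.UV.IND

/-!
# AU, module SYM (helper87): symmetric solutions
-/

namespace Pool.Agent.Lib.MP8a3537.AU

open Matrix Pool.Agent.Lib.MP8a3537.UV
open Pool.Agent.Lib.MP8a3537.UO (ext)

namespace SYMAux

/-- the elements supported in `X` -/
def VX (R : Type) {G : Type} [Ring R] (X : Set G) : AddSubgroup (MonoidAlgebra R G) where
  carrier := {v | ∀ g, v.coeff g ≠ 0 → g ∈ X}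
  zero_mem' := fun g h => absurd (by simp) h
  add_mem' := by
    intro x y hx hy g hg
    by_cases h0 : x.coeff g = 0
    · apply hy g
      intro h1
      apply hg
      simp [h0, h1]
    · exact hx g h0
  neg_mem' := by
    intro x hx g hg
    apply hx g
    intro h0
    apply hg
    simp [h0]

section

variable {R G : Type} [Ring R] [StarRing R] [Group G] {H : Subgroup G}

theorem ext_star {m n : Type} (M : Matrix m n (MonoidAlgebra R H)) :
    (ext M : Matrix m n (MonoidAlgebra R G))ᴴ = ext Mᴴ :=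
  STKAux.conjTranspose_map_emb H M

theorem ext_mul {m n l : Type} [Fintype n] (M : Matrix m n (MonoidAlgebra R H))
    (N : Matrix n l (MonoidAlgebra R H)) :
    (ext (M * N) : Matrix m l (MonoidAlgebra R G)) = ext M * ext N :=
  Matrix.map_mul

theorem ext_supp {m n : Type} (M : Matrix m n (MonoidAlgebra R H)) :
    SuppIn (H : Set G) (ext M : Matrix m n (MonoidAlgebra R G)) := by
  intro i j g hg
  by_contra hc
  exact hg (STKAux.emb_coeff_of_notMem H (M i j) g hc)

theorem VX_mul {X : Set G} (hX : ∀ h ∈ H, ∀ x ∈ X, x * h ∈ X) (v : MonoidAlgebra R G)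
    (hv : v ∈ VX R X) (x : MonoidAlgebra R H) :
    v * MonoidAlgebra.mapDomainRingHom R H.subtype x ∈ VX R X := by
  intro g hg
  have h1 : SuppIn X (fun _ _ => v : Matrix Unit Unit (MonoidAlgebra R G)) :=
    fun _ _ g hg => hv g hg
  have h2 := ext_supp (G := G) (fun _ _ => x : Matrix Unit Unit (MonoidAlgebra R H))
  have h3 := INDAux.supp_mul h1 h2 (Z := X) (fun x hx y hy => hX y hy x hx) () () g
  apply h3
  rw [Matrix.mul_apply]
  simp only [Finset.univ_unique, Finset.sum_singleton]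
  exact hg

/-- TAT for an arbitrary finite index type -/
theorem tat {n : Type} [Fintype n] (X : Set G) (δ : ℤˣ) (d : Matrix n n (MonoidAlgebra R G))
    (h1 : ∀ x ∈ X, x⁻¹ ∈ X) (h2 : ∀ x ∈ X, x⁻¹ ≠ x) (hd : SuppIn X d)
    (hs : d = (δ : ℤ) • dᴴ) :
    ∃ c : Matrix n n (MonoidAlgebra R G), SuppIn X c ∧ d = c + (δ : ℤ) • cᴴ := by
  classical
  let e := Fintype.equivFin n
  obtain ⟨c, hc1, hc2⟩ := specTat R G X δ (Fintype.card n) (d.submatrix e.symm e.symm) h1 h2
    (fun i j g hg => hd _ _ g hg) (by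
      conv_lhs => rw [hs]
      rfl)
  refine ⟨c.submatrix e e, fun i j g hg => hc1 _ _ g hg, ?_⟩
  have h3 := congrArg (fun M => M.submatrix e e) hc2
  have h4 : (d.submatrix e.symm e.symm).submatrix e e = d := by
    ext1 i j
    simp
  rw [h4] at h3
  exact h3

end

/-- the algebra of the first step -/
theorem alg1 {A n : Type} [Ring A] [StarRing A] [Fintype n] (s r : ℤˣ) (γ t w : Matrix n n A)
    (h1 : γᴴ * t = w + (s : ℤ) • (t * γ)) (h2 : wᴴ = -(((s * r : ℤˣ) : ℤ) • w)) :
    γᴴ * (t - (r : ℤ) • tᴴ) + ((-s : ℤˣ) : ℤ) • ((t - (r : ℤ) • tᴴ) * γ) = 0 := by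
  have h3 : tᴴ * γ = wᴴ + (s : ℤ) • (γᴴ * tᴴ) := by
    have := congrArg conjTranspose h1
    rw [conjTranspose_mul, conjTranspose_conjTranspose, conjTranspose_add, INDAux.star_units,
      conjTranspose_mul] at this
    exact this
  have h4 : γᴴ * tᴴ = (s : ℤ) • (tᴴ * γ) - (s : ℤ) • wᴴ := by
    rw [h3, smul_add, INDAux.units_smul_smul]
    abel
  rw [INDAux.neg_units, mul_sub, sub_mul, h1, Matrix.mul_smul, Matrix.smul_mul, h4, h2]
  rcases Int.units_eq_one_or s with rfl | rfl <;> rcases Int.units_eq_one_or r with rfl | rfl <;>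
    simp <;> abel

theorem alg2 {A n : Type} [Ring A] [StarRing A] (s r : ℤˣ) (t : Matrix n n A) :
    (t - (r : ℤ) • tᴴ)ᴴ = -((((-s) * (-(s * r)) : ℤˣ) : ℤ) • (t - (r : ℤ) • tᴴ)) := by
  rw [conjTranspose_sub, INDAux.star_units, conjTranspose_conjTranspose]
  rcases Int.units_eq_one_or s with rfl | rfl <;> rcases Int.units_eq_one_or r with rfl | rfl <;>
    simp

/-- the final step -/
theorem alg3 {A n : Type} [Ring A] [StarRing A] [Fintype n] (s r : ℤˣ) (γ t w y : Matrix n n A)
    (hγ : γ * γ = 0) (h1 : γᴴ * t = w + (s : ℤ) • (t * γ))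
    (h2 : γᴴ * (y + ((-(s * r) : ℤˣ) : ℤ) • yᴴ) -
      ((-s : ℤˣ) : ℤ) • ((y + ((-(s * r) : ℤˣ) : ℤ) • yᴴ) * γ) = t - (r : ℤ) • tᴴ) :
    (t - (γᴴ * y + (s : ℤ) • (y * γ))) =
      (r : ℤ) • (t - (γᴴ * y + (s : ℤ) • (y * γ)))ᴴ ∧
    γᴴ * (t - (γᴴ * y + (s : ℤ) • (y * γ))) -
      (s : ℤ) • ((t - (γᴴ * y + (s : ℤ) • (y * γ))) * γ) = w := by
  have hγ' : γᴴ * γᴴ = 0 := by rw [← conjTranspose_mul, hγ, conjTranspose_zero]
  constructor
  · rw [conjTranspose_sub, conjTranspose_add, INDAux.star_units, conjTranspose_mul,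
      conjTranspose_mul, conjTranspose_conjTranspose]
    rcases Int.units_eq_one_or s with rfl | rfl <;>
      rcases Int.units_eq_one_or r with rfl | rfl <;>
      simp [mul_add, add_mul] at h2 ⊢ <;>
      rw [eq_comm, ← sub_eq_zero] at h2 <;>
      rw [← sub_eq_zero, ← h2] <;>
      abel
  · rw [mul_sub, sub_mul, mul_add, add_mul, Matrix.mul_smul, Matrix.smul_mul,
      ← Matrix.mul_assoc γᴴ γᴴ, hγ', Matrix.mul_assoc y γ γ, hγ, h1]
    rw [Matrix.zero_mul, Matrix.mul_zero, smul_zero, smul_sub, ← Matrix.mul_assoc]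
    simp

section

variable {R G : Type} [Ring R] [StarRing R] [Group G] {H : Subgroup G}

/-- homogeneity of `γᴴ * y` -/
theorem hom_left {J : FC (MonoidAlgebra R H)} {y : Matrix J.I J.I (MonoidAlgebra R G)} {c : ℤ}
    (hy : ∀ i j, y i j ≠ 0 → J.deg i + J.deg j = c) (i j : J.I)
    (h : ((ext J.d)ᴴ * y) i j ≠ 0) : J.deg i + J.deg j = c - 1 := by
  rw [Matrix.mul_apply] at h
  obtain ⟨l, _, hl⟩ := Finset.exists_ne_zero_of_sum_ne_zero h
  have h1 := hy l j (right_ne_zero_of_mul hl)
  have h2 : J.d l i ≠ 0 := by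
    intro h0
    apply left_ne_zero_of_mul hl
    rw [conjTranspose_apply]
    have : (ext J.d : Matrix J.I J.I (MonoidAlgebra R G)) l i = 0 := by
      show MonoidAlgebra.mapDomainRingHom R H.subtype (J.d l i) = 0
      rw [h0, map_zero]
    rw [this, star_zero]
  have h3 := J.hd l i h2
  omega

/-- homogeneity of `y * γ` -/
theorem hom_right {J : FC (MonoidAlgebra R H)} {y : Matrix J.I J.I (MonoidAlgebra R G)} {c : ℤ}
    (hy : ∀ i j, y i j ≠ 0 → J.deg i + J.deg j = c) (i j : J.I)
    (h : (y * ext J.d) i j ≠ 0) : J.deg i + J.deg j = c - 1 := by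
  rw [Matrix.mul_apply] at h
  obtain ⟨l, _, hl⟩ := Finset.exists_ne_zero_of_sum_ne_zero h
  have h1 := hy i l (left_ne_zero_of_mul hl)
  have h2 : J.d l j ≠ 0 := by
    intro h0
    apply right_ne_zero_of_mul hl
    show MonoidAlgebra.mapDomainRingHom R H.subtype (J.d l j) = 0
    rw [h0, map_zero]
  have h3 := J.hd l j h2
  omega

theorem main (hDES : SpecDES) (X : Set G) (J : FC (MonoidAlgebra R H)) (k : ℤ)
    (hXr : ∀ h ∈ H, ∀ x ∈ X, x * h ∈ X) (hXl : ∀ h ∈ H, ∀ x ∈ X, h * x ∈ X)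
    (hXi : ∀ x ∈ X, x⁻¹ ∈ X) (hXn : ∀ x ∈ X, x⁻¹ ≠ x) (hk : ∀ j, J.deg j ≤ k)
    (hex : ExA J.dual k X) : ∀ (n : ℕ) (s0 : ℤ) (s r : ℤˣ)
      (w : Matrix J.I J.I (MonoidAlgebra R G)), 2 * k - s0 < n → 1 ≤ s0 → SuppIn X w →
    (∀ i j, w i j ≠ 0 → J.deg i + J.deg j = s0) →
    (ext J.d)ᴴ * w + (s : ℤ) • (w * ext J.d) = 0 → wᴴ = -(((s * r : ℤˣ) : ℤ) • w) →
    ∃ t : Matrix J.I J.I (MonoidAlgebra R G), SuppIn X t ∧
      (∀ i j, t i j ≠ 0 → J.deg i + J.deg j = s0 + 1) ∧ t = (r : ℤ) • tᴴ ∧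
      (ext J.d)ᴴ * t - (s : ℤ) • (t * ext J.d) = w := by
  classical
  intro n
  induction n with
  | zero =>
    intro s0 s r w hn hs0 hw hd _ _
    have hw0 : w = 0 := by
      ext1 i j
      by_contra h
      have h1 := hd i j h
      have h2 := hk i
      have h3 := hk j
      push_cast at hn
      omega
    refine ⟨0, fun i j g hg => absurd (by simp) hg, fun i j h => absurd rfl h, ?_, ?_⟩
    · simp
    · rw [hw0]
      simp
  | succ n ih =>
    intro s0 s r w hn hs0 hw hd heq hst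
    have h1 : J.dual.d.map (MonoidAlgebra.mapDomainRingHom R H.subtype) =
        (ext J.d : Matrix J.I J.I (MonoidAlgebra R G))ᴴ := by
      rw [ext_star]
      rfl
    obtain ⟨t0, ht0, hg0, he⟩ : ∃ t0 : Matrix J.I J.I (MonoidAlgebra R G),
        (∀ i j, t0 i j ∈ VX R X) ∧ (∀ i j, t0 i j ≠ 0 → - J.deg i = J.deg j + (-s0 - 1)) ∧
        (ext J.d : Matrix J.I J.I (MonoidAlgebra R G))ᴴ * t0 =
        w + (s : ℤ) • (t0 * ext J.d) := by
     obtain ⟨t0, ht0, hg0, -, he0⟩ := hDES (MonoidAlgebra R H) (MonoidAlgebra R G)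
      (MonoidAlgebra.mapDomainRingHom R H.subtype) (VX R X) J.dual J k (-s0 - 1) s w 0
      (fun v hv x => VX_mul hXr v hv x)
      (by
        intro x hx hdx hx0
        have h1 : ∀ i, x i ≠ 0 → J.dual.deg i < k := by
          intro i hi
          have := hdx i hi
          omega
        obtain ⟨y, hy, hy'⟩ := hex x (fun i g hg => hx i g hg) h1 hx0
        exact ⟨y, fun i g hg => hy i g hg, hy'⟩)
      (fun i j g hg => hw i j g hg)
      (fun i j => (VX R X).zero_mem)
      (by
        intro i j hij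
        have h1 := hd i j hij
        show - J.deg i = J.deg j + (-s0 - 1) + 1
        omega)
      (fun i j h => absurd rfl h)
      (by
        rw [h1]
        exact heq)
      (fun i j h => absurd (hk j) (not_le.2 h))
     rw [h1] at he0
     exact ⟨t0, ht0, hg0, he0⟩
    have ht0' : SuppIn X t0 := fun i j g hg => ht0 i j g hg
    have hgt : ∀ i j, t0 i j ≠ 0 → J.deg i + J.deg j = s0 + 1 := by
      intro i j h
      have h2 : - J.deg i = J.deg j + (-s0 - 1) := hg0 i j h
      omega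
    -- the antisymmetric part
    obtain ⟨u, hu⟩ : ∃ u, u = t0 - (r : ℤ) • t0ᴴ := ⟨_, rfl⟩
    have hus : SuppIn X u := by
      rw [hu, sub_eq_add_neg]
      exact INDAux.supp_add ht0' (INDAux.supp_neg (INDAux.supp_units r
        (INDAux.supp_star ht0' hXi)))
    have hud : ∀ i j, u i j ≠ 0 → J.deg i + J.deg j = s0 + 1 := by
      intro i j h
      by_contra hc
      apply h
      have h3 : t0 i j = 0 := by
        by_contra h4
        exact hc (hgt i j h4)
      have h5 : t0 j i = 0 := by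
        by_contra h4
        have := hgt j i h4
        omega
      rw [hu, Matrix.sub_apply, Matrix.smul_apply, conjTranspose_apply, h3, h5]
      simp
    obtain ⟨x, hxs, hxd, hxst, hxe⟩ := ih (s0 + 1) (-s) (-(s * r)) u (by push_cast at hn; omega)
      (by omega) hus hud (by rw [hu]; exact alg1 s r _ t0 w he hst) (by rw [hu]; exact alg2 s r t0)
    obtain ⟨c, hc1, hc2⟩ := tat X (-(s * r)) x hXi hXn hxs hxst
    obtain ⟨y, hy⟩ : ∃ y : Matrix J.I J.I (MonoidAlgebra R G),
        y = fun i j => if J.deg i + J.deg j = s0 + 1 + 1 then c i j else 0 := ⟨_, rfl⟩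
    have hyd : ∀ i j, y i j ≠ 0 → J.deg i + J.deg j = s0 + 1 + 1 := by
      intro i j h
      by_contra hc
      apply h
      rw [hy]
      exact if_neg hc
    have hys : SuppIn X y := by
      intro i j g hg
      rw [hy] at hg
      simp only at hg
      split_ifs at hg with h2
      · exact hc1 i j g hg
      · exact absurd (by simp) hg
    have hxy : x = y + ((-(s * r) : ℤˣ) : ℤ) • yᴴ := by
      ext1 i j
      have h2 := congrFun (congrFun hc2 i) j
      rw [Matrix.add_apply, Matrix.smul_apply, conjTranspose_apply] at h2 ⊢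
      by_cases h3 : J.deg i + J.deg j = s0 + 1 + 1
      · have h4 : y i j = c i j := by rw [hy]; exact if_pos h3
        have h5 : y j i = c j i := by rw [hy]; exact if_pos (by omega)
        rw [h4, h5]
        exact h2
      · have h4 : y i j = 0 := by rw [hy]; exact if_neg h3
        have h5 : y j i = 0 := by rw [hy]; exact if_neg (by omega)
        have h6 : x i j = 0 := by
          by_contra h7
          exact h3 (hxd i j h7)
        rw [h4, h5, h6]
        simp
    obtain ⟨h7, h8⟩ := alg3 s r (ext J.d : Matrix J.I J.I (MonoidAlgebra R G)) t0 w y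
      (by
        rw [← ext_mul, J.dd]
        ext1 i j
        exact map_zero (MonoidAlgebra.mapDomainRingHom R H.subtype)) he
      (by rw [← hxy, hxe, hu])
    refine ⟨_, ?_, ?_, h7, h8⟩
    · rw [sub_eq_add_neg]
      refine INDAux.supp_add ht0' (INDAux.supp_neg (INDAux.supp_add ?_ (INDAux.supp_units s ?_)))
      · rw [ext_star]
        exact INDAux.supp_mul (ext_supp J.dᴴ) hys (fun h hh x hx => hXl h hh x hx)
      · exact INDAux.supp_mul hys (ext_supp J.d) (fun x hx h hh => hXr h hh x hx)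
    · intro i j h
      by_contra hc
      apply h
      have h3 : t0 i j = 0 := by
        by_contra h4
        exact hc (hgt i j h4)
      have h4 : ((ext J.d : Matrix J.I J.I (MonoidAlgebra R G))ᴴ * y) i j = 0 := by
        by_contra h5
        have := hom_left hyd i j h5
        omega
      have h5 : (y * ext J.d) i j = 0 := by
        by_contra h5
        have := hom_right hyd i j h5
        omega
      rw [Matrix.sub_apply, Matrix.add_apply, Matrix.smul_apply, h3, h4, h5]
      simp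

end

end SYMAux

theorem specSYM (hDES : SpecDES) : SpecSYM := by
  intro R G _ _ _ H X J k s0 s r w hXr hXl hXi hXn hk hex hs0 hw hd heq hst
  exact SYMAux.main hDES X J k hXr hXl hXi hXn hk hex ((2 * k - s0).toNat + 1) s0 s r w
    (by push_cast; omega) hs0 hw hd heq hst

end Pool.Agent.Lib.MP8a3537.AU
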