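import Pool.Agent.Lib.MP_8a3537_gt.AU.Spec

/-!
# MP_8a3537_gt, AU, module TRU: the truncation of the dual complex
-/

namespace Pool.Agent.Lib.MP8a3537.AU

open Matrix

namespace TRUAux

theorem mv_zero {S I J : Type} [Ring S] [Fintype J] (M : Matrix I J S) (x : J → S) (i : I)
    (h : ∀ l, M i l ≠ 0 → x l = 0) : (M *ᵥ x) i = 0 := by
  unfold Matrix.mulVec dotProduct
  refine Finset.sum_eq_zero fun l _ => ?_
  show M i l * x l = 0
  by_cases h0 : M i l = 0
  · rw [h0, zero_mul]
  · rw [h l h0, mul_zero]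

/-- restriction of a product to a subset of the indices -/
theorem sub_mulVec {S I J : Type} [Ring S] [Fintype I] [Fintype J] (M : Matrix I I S) (ρ : J → I)
    (hρ : Function.Injective ρ) (y : I → S) (i : J)
    (h : ∀ l, (∀ j, ρ j ≠ l) → M (ρ i) l ≠ 0 → y l = 0) :
    (M.submatrix ρ ρ *ᵥ (y ∘ ρ)) i = (M *ᵥ y) (ρ i) := by
  unfold Matrix.mulVec dotProduct
  refine Fintype.sum_of_injective ρ hρ _ _ (fun l hl => ?_) fun j => ?_
  · show M (ρ i) l * y l = 0
    by_cases h0 : M (ρ i) l = 0
    · rw [h0, zero_mul]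
    · rw [h l (fun j hj => hl ⟨j, hj⟩) h0, mul_zero]
  · rfl

/-- the extension by zero -/
noncomputable def ex {S I : Type} [Zero S] (p : I → Prop) (x : {i // p i} → S) : I → S :=
  open Classical in fun i => if h : p i then x ⟨i, h⟩ else 0

theorem ex_of {S I : Type} [Zero S] (p : I → Prop) (x : {i // p i} → S) (i : I) (h : p i) :
    ex p x i = x ⟨i, h⟩ := by
  classical
  unfold ex
  rw [dif_pos h]

theorem ex_not {S I : Type} [Zero S] (p : I → Prop) (x : {i // p i} → S) (i : I) (h : ¬ p i) :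
    ex p x i = 0 := by
  classical
  unfold ex
  rw [dif_neg h]

theorem ex_comp {S I : Type} [Zero S] (p : I → Prop) (x : {i // p i} → S) :
    ex p x ∘ Subtype.val = x := by
  funext i
  exact ex_of p x i.1 i.2

section

variable {S : Type} [Ring S] {I : Type} [Fintype I] (deg : I → ℤ) (D : Matrix I I S) (k : ℤ)

omit [Fintype I] in
theorem not_ran (l : I) (hl : ∀ j : {i // deg i ≤ k}, j.1 ≠ l) : k < deg l := by
  by_contra h
  exact hl ⟨l, not_lt.1 h⟩ rfl

/-- the truncated matrix -/
def cut : Matrix {i // deg i ≤ k} {i // deg i ≤ k} S :=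
  D.submatrix Subtype.val Subtype.val

theorem tru_dd (hD : ∀ i j, D i j ≠ 0 → deg i = deg j + 1) (hDD : D * D = 0) :
    cut deg D k * cut deg D k = 0 := by
  ext i j
  have h := congrFun (congrFun hDD i.1) j.1
  rw [Matrix.mul_apply, Matrix.zero_apply] at h
  rw [Matrix.mul_apply, Matrix.zero_apply, ← h]
  refine Fintype.sum_of_injective Subtype.val Subtype.val_injective _ _ (fun l hl => ?_)
    fun l => rfl
  by_cases h0 : D i.1 l = 0
  · rw [h0, zero_mul]
  · exfalso
    have h1 := hD i.1 l h0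
    have h2 := i.2
    exact hl ⟨⟨l, by omega⟩, rfl⟩

theorem tru_ex (hD : ∀ i j, D i j ≠ 0 → deg i = deg j + 1)
    (hE : ∀ x : I → S, (∀ i, x i ≠ 0 → deg i < k) → D *ᵥ x = 0 → ∃ y, x = D *ᵥ y)
    (x : {i // deg i ≤ k} → S) (hx : ∀ i, x i ≠ 0 → deg i.1 < k)
    (hdx : cut deg D k *ᵥ x = 0) : ∃ y, x = cut deg D k *ᵥ y := by
  have hc : ex (fun i => deg i ≤ k) x ∘ Subtype.val = x := ex_comp _ x
  have hx' : ∀ i, ex (fun i => deg i ≤ k) x i ≠ 0 → deg i < k := by
    intro i hi
    by_cases h : deg i ≤ k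
    · rw [ex_of (fun i => deg i ≤ k) x i h] at hi
      exact hx _ hi
    · exact absurd (ex_not (fun i => deg i ≤ k) x i h) hi
  obtain ⟨y, hy⟩ := hE (ex (fun i => deg i ≤ k) x) hx' (by
    funext i
    rw [Pi.zero_apply]
    by_cases h : deg i ≤ k
    · have h1 := sub_mulVec D (Subtype.val : {i // deg i ≤ k} → I) Subtype.val_injective
        (ex (fun i => deg i ≤ k) x) ⟨i, h⟩ (fun l hl _ =>
          ex_not (fun i => deg i ≤ k) x l (not_le.2 (not_ran deg k l hl)))
      rw [hc] at h1
      rw [← h1]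
      exact congrFun hdx ⟨i, h⟩
    · refine mv_zero D _ i fun l h0 => ?_
      by_contra h2
      have h1 := hD i l h0
      have h3 := hx' l h2
      omega)
  refine ⟨y ∘ Subtype.val, ?_⟩
  funext i
  have h1 := sub_mulVec D (Subtype.val : {i // deg i ≤ k} → I) Subtype.val_injective
    y i (fun l hl h0 => by
        exfalso
        have h1 := hD i.1 l h0
        have h2 := not_ran deg k l hl
        have h3 := i.2
        omega)
  refine Eq.trans ?_ h1.symm
  rw [← hy]
  exact (ex_of (fun i => deg i ≤ k) x i.1 i.2).symm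

/-- cocycles; here `E` lowers `deg` by one -/
theorem tru_cy (E : Matrix I I S) (hE : ∀ i j, E i j ≠ 0 → - deg i = - deg j + 1) (q : ℤ)
    (hq : -k ≤ q) (x : I → S) (hx : ∀ i, x i ≠ 0 → q ≤ - deg i) :
    E *ᵥ x = 0 ↔ cut deg E k *ᵥ (x ∘ Subtype.val) = 0 := by
  have hx0 : ∀ l, k < deg l → x l = 0 := by
    intro l hl
    by_contra h
    have := hx l h
    omega
  have key : ∀ i : {i // deg i ≤ k}, (cut deg E k *ᵥ (x ∘ Subtype.val)) i = (E *ᵥ x) i.1 :=
    fun i => sub_mulVec E (Subtype.val : {i // deg i ≤ k} → I) Subtype.val_injective x i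
      (fun l hl _ => hx0 l (not_ran deg k l hl))
  constructor
  · intro h
    funext i
    rw [key i, h]
    rfl
  · intro h
    funext i
    rw [Pi.zero_apply]
    by_cases hi : deg i ≤ k
    · have h1 := key ⟨i, hi⟩
      rw [h] at h1
      exact h1.symm
    · refine mv_zero E x i fun l h0 => ?_
      have h1 := hE i l h0
      exact hx0 l (by omega)

theorem tru_bd (E : Matrix I I S) (hE : ∀ i j, E i j ≠ 0 → - deg i = - deg j + 1) (q : ℤ)
    (hq : -k + 1 ≤ q) (x : I → S) (hx : ∀ i, x i ≠ 0 → q ≤ - deg i) :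
    (∃ y, x = E *ᵥ y) ↔ ∃ y, x ∘ Subtype.val = cut deg E k *ᵥ y := by
  constructor
  · rintro ⟨y, hy⟩
    refine ⟨y ∘ Subtype.val, ?_⟩
    funext i
    by_cases hi : deg i.1 = k
    · have h1 : (x ∘ Subtype.val) i = 0 := by
        show x i.1 = 0
        by_contra h
        have := hx _ h
        omega
      rw [h1]
      symm
      refine mv_zero (cut deg E k) _ i fun l h0 => ?_
      exfalso
      have h2 := hE i.1 l.1 h0
      have h3 := l.2
      omega
    · show x i.1 = _
      rw [hy]
      symm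
      refine sub_mulVec E (Subtype.val : {i // deg i ≤ k} → I) Subtype.val_injective y i
        (fun l hl h0 => ?_)
      exfalso
      have h1 := hE i.1 l h0
      have h2 := not_ran deg k l hl
      have h3 := i.2
      omega
  · rintro ⟨y, hy⟩
    have hc : ex (fun i => deg i ≤ k) y ∘ Subtype.val = y := ex_comp _ y
    refine ⟨ex (fun i => deg i ≤ k) y, ?_⟩
    funext i
    by_cases hi : deg i ≤ k
    · have h1 := sub_mulVec E (Subtype.val : {i // deg i ≤ k} → I) Subtype.val_injective
        (ex (fun i => deg i ≤ k) y) ⟨i, hi⟩ (fun l hl _ =>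
          ex_not (fun i => deg i ≤ k) y l (not_le.2 (not_ran deg k l hl)))
      rw [hc] at h1
      exact (congrFun hy ⟨i, hi⟩).trans h1
    · have h1 : x i = 0 := by
        by_contra h
        have := hx _ h
        omega
      rw [h1]
      symm
      refine mv_zero E _ i fun l h0 => ?_
      have h2 := hE i l h0
      exact ex_not (fun i => deg i ≤ k) y l (by omega)

end

/-- the truncation -/
def tru {S : Type} [Ring S] [StarRing S] (C : FC S) (k : ℤ) : FC S where
  I := {i : C.I // - C.deg i ≤ k}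
  deg i := - C.deg i.1 - k
  d := cut (fun i => - C.deg i) C.dᴴ k
  hd i j h := by
    have h2 : - C.deg i.1 = - C.deg j.1 + 1 := C.dual.hd i.1 j.1 h
    omega
  dd := tru_dd (fun i => - C.deg i) C.dᴴ k C.dual.hd C.dual.dd

end TRUAux

theorem specTRU : SpecTRU := by
  intro S _ _ C k hE
  have hE' : ∀ i j, C.d i j ≠ 0 → - (- C.deg i) = - (- C.deg j) + 1 := by
    intro i j h
    have := C.hd i j h
    omega
  have hdd : (TRUAux.tru C k).dual.d = TRUAux.cut (fun i => - C.deg i) C.d k := by
    show (C.dᴴ.submatrix Subtype.val Subtype.val)ᴴ = C.d.submatrix Subtype.val Subtype.val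
    rw [conjTranspose_submatrix, conjTranspose_conjTranspose]
  refine ⟨TRUAux.tru C k, Subtype.val, ⟨fun i => ?_, ?_⟩, Subtype.val_injective, fun i => rfl,
    fun i hi => ⟨⟨i, hi⟩, rfl⟩, hdd, ?_, ?_⟩
  · show - C.deg i.1 - k ≤ 0
    have := i.2
    omega
  · intro x hx hdx
    exact TRUAux.tru_ex (fun i => - C.deg i) C.dᴴ k C.dual.hd hE x (fun i hi => by
      have h : - C.deg i.1 - k < 0 := hx i hi
      show - C.deg i.1 < k
      omega) hdx
  · intro q hq x hx
    rw [hdd]
    exact TRUAux.tru_cy (fun i => - C.deg i) k C.d hE' q hq x (fun i hi => by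
      have := hx i hi
      show q ≤ - (- C.deg i)
      omega)
  · intro q hq x hx
    rw [hdd]
    exact TRUAux.tru_bd (fun i => - C.deg i) k C.d hE' q hq x (fun i hi => by
      have := hx i hi
      show q ≤ - (- C.deg i)
      omega)

end Pool.Agent.Lib.MP8a3537.AU
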