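import Pool.Agent.Lib.MP_8a3537_gt.AU.Spec

/-!
# Module STE: one surgery
-/

namespace Pool.Agent.Lib.MP8a3537.AU

open Matrix Pool.Agent.Lib.MP8a3537.UV
open Pool.Agent.Lib.MP8a3537.UO (ext)

namespace STEAux

variable {R G : Type} [Ring R] [StarRing R] [Group G] {H : Subgroup G}

omit [StarRing R] in
/-- `exv` commutes with the action of matrices over `R[H]`. -/
lemma exv_mulVec {m n : Type} [Fintype n] (M : Matrix m n (MonoidAlgebra R H))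
    (y : n → MonoidAlgebra R H) : exv (G := G) (M *ᵥ y) = ext M *ᵥ exv (G := G) y := by
  funext i
  change MonoidAlgebra.mapDomainRingHom R H.subtype (∑ j, M i j * y j) =
    ∑ j, MonoidAlgebra.mapDomainRingHom R H.subtype (M i j) *
      MonoidAlgebra.mapDomainRingHom R H.subtype (y j)
  rw [map_sum]
  exact Finset.sum_congr rfl fun j _ => map_mul _ _ _

/-- The coboundaries are in the kernel. -/
lemma bd_le_ker {X1 X2 X3 : Set G} {ε : ℤˣ} {C : FC (MonoidAlgebra R H)}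
    {a μ b : Matrix C.I C.I (MonoidAlgebra R G)} (hN : NF H X1 X2 X3 ε C a μ b) (k : ℤ) :
    C.Bd k ≤ Ker C a μ k := by
  rintro x ⟨hx, y, hy⟩
  refine ⟨⟨hx, ?_⟩, ⟨a *ᵥ exv y, ?_⟩, ⟨μ *ᵥ exv y, ?_⟩⟩
  · rw [hy, mulVec_mulVec, C.dd, zero_mulVec]
  · rw [hy, exv_mulVec, mulVec_mulVec, mulVec_mulVec, hN.ca]
  · rw [hy, exv_mulVec, mulVec_mulVec, mulVec_mulVec, hN.cm]

/-- The kernel consists of cocycles. -/
lemma ker_le_cy (C : FC (MonoidAlgebra R H)) (a μ : Matrix C.I C.I (MonoidAlgebra R G)) (k : ℤ) :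
    Ker C a μ k ≤ C.Cy k := fun _ hx => hx.1

end STEAux

theorem specSTE (hRSZ : SpecRSZ) (hRSP : SpecRSP) (hEXF : SpecEXF) (hCNE : SpecCNE)
    (hCNF : SpecCNF) (hGDS : SpecGDS) (hNLK : SpecNLK) : SpecSTE := by
  intro R G _ _ _ H X1 X2 X3 Yp Ym hP ε hS C a μ b k l hN hC hD hR1 hR2
  have hle := STEAux.bd_le_ker hN (k : ℤ)
  have hcy := STEAux.ker_le_cy C a μ (k : ℤ)
  obtain ⟨J, g, h⟩ : ∃ J g, RD C (k : ℤ) (Ker C a μ (k : ℤ)) J g := by
    rcases Nat.eq_zero_or_pos k with h0 | h0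
    · subst h0
      exact hRSZ _ hS C (by simpa using hC) _ (by simpa using hle) (by simpa using hcy)
    · exact hRSP _ hS C k h0 hC hD _ hle hcy
  obtain ⟨f, f', t, hE⟩ := hEXF R G H X1 X2 X3 ε C J a μ b k g hP.X1r hP.X1l hP.X1i hP.X1n
    hP.X3r hP.X3l hN hC hD h
  have hN' := hCNF R G H X1 X2 X3 ε C J a μ b k _ g f f' t h hP.X1i hN hE
  obtain ⟨hC', hD'⟩ := hCNE.1 _ C J k _ g h hC hD
  obtain ⟨⟨h1, h2⟩, h3, h4⟩ :=
    hNLK R G H X1 X2 X3 Yp Ym hP ε C J a μ b k g f f' t h hN hE hN' l hR1 hR2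
  exact ⟨cone C J g h.gg h.cg, newa ε a f t, fromBlocks μ f' 0 0, fromBlocks b 0 0 0, hN', hC',
    hD', h1, h2, h3, h4,
    hGDS R G H X1 X2 X3 ε C J a μ b k _ g f f' t h hP.X1i hP.X1n hN hE⟩

end Pool.Agent.Lib.MP8a3537.AU
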