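import Pool.Agent.Lib.MP_8a3537_gt.AU.Spec
import Pool.Agent.Lib.MP_8a3537_gt.UV.RES

/-!
# AU, module NLK: the nil length of `H^k`
-/

namespace Pool.Agent.Lib.MP8a3537.AU

open Matrix Pool.Agent.Lib.MP8a3537.UV
open Pool.Agent.Lib.MP8a3537.UO (ext)

namespace NLKAux

section Ext

variable {R G : Type} [Ring R] [Group G] {H : Subgroup G}

theorem vlf {K L : Type} [Fintype K] [Fintype L] (p : Matrix K L (MonoidAlgebra R H))
    (x : K → MonoidAlgebra R G)
    (hf : ∀ t, ∃ θ : L → MonoidAlgebra R H, (fun i => lres H t (x i)) = p *ᵥ θ) :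
    ∃ θ : L → MonoidAlgebra R G, x = ext p *ᵥ θ := by
  classical
  choose Θ hΘ using hf
  obtain ⟨Q, hQ⟩ := RESAux.exists_lcosets H (Matrix.of fun (i : K) (_ : Unit) => x i)
  refine ⟨fun k => ∑ q ∈ Q, emb R H (Θ (q.out)⁻¹ k) * MonoidAlgebra.single (q.out)⁻¹ 1, ?_⟩
  funext i
  have h1 := RESAux.ldecomp H (x i) Q (fun g hg => hQ i () g hg)
  change x i = ∑ k, ext p i k * ∑ q ∈ Q, emb R H (Θ (q.out)⁻¹ k) * MonoidAlgebra.single (q.out)⁻¹ 1
  simp only [Finset.mul_sum]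
  rw [Finset.sum_comm]
  conv_lhs => rw [h1]
  refine Finset.sum_congr rfl fun q _ => ?_
  have h2 : lres H (q.out)⁻¹ (x i) = ∑ k, p i k * Θ (q.out)⁻¹ k := congrFun (hΘ (q.out)⁻¹) i
  rw [h2, map_sum, Finset.sum_mul]
  refine Finset.sum_congr rfl fun k _ => ?_
  rw [map_mul, mul_assoc]
  rfl

theorem exv_ne {n : Type} {x : n → MonoidAlgebra R H} {i : n}
    (h : (exv x : n → MonoidAlgebra R G) i ≠ 0) : x i ≠ 0 := by
  intro h0
  apply h
  change MonoidAlgebra.mapDomainRingHom R H.subtype (x i) = 0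
  rw [h0, map_zero]

theorem exv_zero {n : Type} :
    (exv (0 : n → MonoidAlgebra R H) : n → MonoidAlgebra R G) = 0 := by
  funext i
  exact map_zero (MonoidAlgebra.mapDomainRingHom R H.subtype)

theorem ext_exv {m n : Type} [Fintype n] (M : Matrix m n (MonoidAlgebra R H))
    (x : n → MonoidAlgebra R H) :
    (ext M : Matrix m n (MonoidAlgebra R G)) *ᵥ exv x = exv (M *ᵥ x) := by
  funext i
  exact (RingHom.map_mulVec (MonoidAlgebra.mapDomainRingHom R H.subtype) M x i).symm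

theorem ext_blocks {l m n o : Type} (A : Matrix n l (MonoidAlgebra R H))
    (B : Matrix n m (MonoidAlgebra R H)) (C : Matrix o l (MonoidAlgebra R H))
    (D : Matrix o m (MonoidAlgebra R H)) :
    (ext (fromBlocks A B C D) : Matrix _ _ (MonoidAlgebra R G)) =
      fromBlocks (ext A) (ext B) (ext C) (ext D) := by
  unfold Pool.Agent.Lib.MP8a3537.UO.ext
  exact fromBlocks_map A B C D _

theorem ext_zero {m n : Type} :
    (ext (0 : Matrix m n (MonoidAlgebra R H)) : Matrix m n (MonoidAlgebra R G)) = 0 := by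
  unfold Pool.Agent.Lib.MP8a3537.UO.ext
  exact Matrix.map_zero _ (map_zero _)

theorem supp_exv {n : Type} (x : n → MonoidAlgebra R H) :
    SuppV (H : Set G) (exv x : n → MonoidAlgebra R G) := by
  intro i g hg
  exact RESAux.mem_of_emb_ne H _ _ hg

theorem supp_mulVec {m n : Type} [Fintype n] {X Y Z : Set G}
    {M : Matrix m n (MonoidAlgebra R G)} {v : n → MonoidAlgebra R G} (hM : SuppIn X M)
    (hv : SuppV Y v) (h : ∀ x ∈ X, ∀ y ∈ Y, x * y ∈ Z) : SuppV Z (M *ᵥ v) := by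
  intro i g hg
  change (∑ k, M i k * v k).coeff g ≠ 0 at hg
  rw [MonoidAlgebra.coeff_sum, Finsupp.finsetSum_apply] at hg
  obtain ⟨k, _, hk⟩ := Finset.exists_ne_zero_of_sum_ne_zero hg
  rw [MonoidAlgebra.coeff_mul_apply_left] at hk
  obtain ⟨y, _, hy⟩ := Finset.exists_ne_zero_of_sum_ne_zero hk
  have h1 := hM i k y (left_ne_zero_of_mul hy)
  have h2 := hv k _ (right_ne_zero_of_mul hy)
  have h3 := h _ h1 _ h2
  rwa [mul_inv_cancel_left] at h3

theorem supp_add {n : Type} {X : Set G} {v w : n → MonoidAlgebra R G}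
    (hv : SuppV X v) (hw : SuppV X w) : SuppV X (v + w) := by
  intro i g hg
  by_contra hc
  apply hg
  rw [Pi.add_apply, MonoidAlgebra.coeff_add, Finsupp.add_apply]
  have h1 : (v i).coeff g = 0 := by
    by_contra h
    exact hc (hv i g h)
  have h2 : (w i).coeff g = 0 := by
    by_contra h
    exact hc (hw i g h)
  rw [h1, h2, add_zero]

theorem supp_units {n : Type} {X : Set G} {v : n → MonoidAlgebra R G} (ε : ℤˣ)
    (hv : SuppV X v) : SuppV X ((ε : ℤ) • v) := by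
  intro i g hg
  apply hv i g
  intro h0
  apply hg
  rw [Pi.smul_apply, MonoidAlgebra.coeff_smul, Finsupp.smul_apply, h0, smul_zero]

theorem mulVec_ne {A m n : Type} [Ring A] [Fintype n] {M : Matrix m n A} {v : n → A} {i : m}
    (h : (M *ᵥ v) i ≠ 0) : ∃ j, M i j ≠ 0 ∧ v j ≠ 0 := by
  change (∑ k, M i k * v k) ≠ 0 at h
  obtain ⟨k, _, hk⟩ := Finset.exists_ne_zero_of_sum_ne_zero h
  exact ⟨k, left_ne_zero_of_mul hk, right_ne_zero_of_mul hk⟩

end Ext

section Star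

variable {R G : Type} [Ring R] [StarRing R] [Group G] {H : Subgroup G}

theorem map_star (x : MonoidAlgebra R H) :
    MonoidAlgebra.mapDomainRingHom R H.subtype (star x) =
      star (MonoidAlgebra.mapDomainRingHom R H.subtype x) := by
  induction x using MonoidAlgebra.induction_linear with
  | zero => rw [star_zero, map_zero, star_zero]
  | add f g hf hg => rw [star_add, map_add, map_add, star_add, hf, hg]
  | single a r => simp [star_single]

theorem ext_star {m n : Type} (A : Matrix m n (MonoidAlgebra R H)) :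
    (ext Aᴴ : Matrix n m (MonoidAlgebra R G)) = (ext A)ᴴ := by
  ext1 i j
  exact map_star (A j i)

variable {K : Type} [Fintype K] [DecidableEq K]

/-- The first component of `ν^l (x; y)`. -/
noncomputable def px (ε : ℤˣ) (a μ b : Matrix K K (MonoidAlgebra R G))
    (x y : K → MonoidAlgebra R H) (l : ℕ) : K → MonoidAlgebra R G :=
  ((nu ε a μ b) ^ l *ᵥ Sum.elim (exv x) (exv y)) ∘ Sum.inl

/-- The second component of `ν^l (x; y)`. -/
noncomputable def py (ε : ℤˣ) (a μ b : Matrix K K (MonoidAlgebra R G))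
    (x y : K → MonoidAlgebra R H) (l : ℕ) : K → MonoidAlgebra R G :=
  ((nu ε a μ b) ^ l *ᵥ Sum.elim (exv x) (exv y)) ∘ Sum.inr

variable (ε : ℤˣ) (a μ b : Matrix K K (MonoidAlgebra R G)) (x y : K → MonoidAlgebra R H)

theorem px_zero : px ε a μ b x y 0 = exv x := by
  unfold px
  rw [pow_zero, one_mulVec]
  rfl

theorem py_zero : py ε a μ b x y 0 = exv y := by
  unfold py
  rw [pow_zero, one_mulVec]
  rfl

theorem px_succ (l : ℕ) : px ε a μ b x y (l + 1) =
    μ *ᵥ px ε a μ b x y l + (ε : ℤ) • (b *ᵥ py ε a μ b x y l) := by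
  conv_lhs => unfold px
  rw [pow_succ', ← mulVec_mulVec]
  conv_lhs => unfold nu
  rw [fromBlocks_mulVec]
  funext i
  simp only [Function.comp_apply, Sum.elim_inl, Pi.add_apply]
  congr 1
  rw [smul_mulVec]
  rfl

theorem py_succ (l : ℕ) : py ε a μ b x y (l + 1) =
    a *ᵥ px ε a μ b x y l + μᴴ *ᵥ py ε a μ b x y l := by
  conv_lhs => unfold py
  rw [pow_succ', ← mulVec_mulVec]
  conv_lhs => unfold nu
  rw [fromBlocks_mulVec]
  funext i
  rfl

end Star

section Cocy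

variable {R G : Type} [Ring R] [StarRing R] [Group G] {H : Subgroup G} {X1 X2 X3 : Set G} {ε : ℤˣ}
  {C : FC (MonoidAlgebra R H)} {a μ b : Matrix C.I C.I (MonoidAlgebra R G)}

theorem cocy (hN : NF H X1 X2 X3 ε C a μ b) {k : ℤ} {x y : C.I → MonoidAlgebra R H}
    (hx : x ∈ C.Cy k) (hy : y ∈ C.dual.Cy k) (l : ℕ) :
    (∀ i, px ε a μ b x y l i ≠ 0 → C.deg i = k) ∧
    (∀ i, py ε a μ b x y l i ≠ 0 → - C.deg i = k) ∧
    ext C.d *ᵥ px ε a μ b x y l = 0 ∧ (ext C.d)ᴴ *ᵥ py ε a μ b x y l = 0 := by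
  induction l with
  | zero =>
    rw [px_zero, py_zero]
    refine ⟨fun i hi => hx.1 i (exv_ne hi), fun i hi => hy.1 i (exv_ne hi), ?_, ?_⟩
    · rw [ext_exv, hx.2, exv_zero]
    · rw [← ext_star, ext_exv]
      have : C.dᴴ *ᵥ y = 0 := hy.2
      rw [this, exv_zero]
  | succ l ih =>
    obtain ⟨h1, h2, h3, h4⟩ := ih
    rw [px_succ, py_succ]
    refine ⟨fun i hi => ?_, fun i hi => ?_, ?_, ?_⟩
    · rw [Pi.add_apply] at hi
      by_cases h5 : (μ *ᵥ px ε a μ b x y l) i = 0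
      · rw [h5, zero_add, Pi.smul_apply] at hi
        have h6 : (b *ᵥ py ε a μ b x y l) i ≠ 0 := fun h0 => hi (by rw [h0, smul_zero])
        obtain ⟨j, h7, h8⟩ := mulVec_ne h6
        have := hN.gb _ _ h7
        have := h2 _ h8
        omega
      · obtain ⟨j, h7, h8⟩ := mulVec_ne h5
        have := hN.gm _ _ h7
        have := h1 _ h8
        omega
    · rw [Pi.add_apply] at hi
      by_cases h5 : (a *ᵥ px ε a μ b x y l) i = 0
      · rw [h5, zero_add] at hi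
        obtain ⟨j, h7, h8⟩ := mulVec_ne hi
        have h9 : μ j i ≠ 0 := fun h0 => h7 (by rw [conjTranspose_apply, h0, star_zero])
        have := hN.gm _ _ h9
        have := h2 _ h8
        omega
      · obtain ⟨j, h7, h8⟩ := mulVec_ne h5
        have := hN.ga _ _ h7
        have := h1 _ h8
        omega
    · rw [mulVec_add, mulVec_smul, mulVec_mulVec, mulVec_mulVec, ← hN.cm, ← hN.cb,
        ← mulVec_mulVec, ← mulVec_mulVec, h3, h4, mulVec_zero, mulVec_zero, smul_zero, add_zero]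
    · have h5 : (ext C.d)ᴴ * μᴴ = μᴴ * (ext C.d)ᴴ := by
        rw [← conjTranspose_mul, hN.cm, conjTranspose_mul]
      rw [mulVec_add, mulVec_mulVec, mulVec_mulVec, ← hN.ca, h5,
        ← mulVec_mulVec, ← mulVec_mulVec, h3, h4, mulVec_zero, mulVec_zero, add_zero]

theorem supps {Yp Ym : Set G} (P : PingPong H X1 X2 X3 Yp Ym) (hN : NF H X1 X2 X3 ε C a μ b)
    (x y : C.I → MonoidAlgebra R H) (l : ℕ) :
    SuppV Yp (px ε a μ b x y l) ∧ SuppV Ym (py ε a μ b x y l) := by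
  induction l with
  | zero =>
    rw [px_zero, py_zero]
    refine ⟨fun i g hg => ?_, fun i g hg => ?_⟩
    · have := P.Ypl g (supp_exv x i g hg) 1 P.Yp1
      rwa [mul_one] at this
    · have := P.Yml g (supp_exv y i g hg) 1 P.Ym1
      rwa [mul_one] at this
  | succ l ih =>
    obtain ⟨h1, h2⟩ := ih
    rw [px_succ, py_succ]
    have sm : SuppIn (Xinv X3) μᴴ := by
      intro i j g hg
      rw [conjTranspose_apply, star_coeff] at hg
      have h3 : (μ j i).coeff g⁻¹ ≠ 0 := by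
        intro h0
        rw [h0, star_zero] at hg
        exact hg rfl
      exact hN.sm j i _ h3
    exact ⟨supp_add (supp_mulVec hN.sm h1 P.X3Y) (supp_units ε (supp_mulVec hN.sb h2 P.X2Y)),
      supp_add (supp_mulVec hN.sa h1 P.X1Y) (supp_mulVec sm h2 P.X3Y')⟩

end Cocy

section Cone

variable {R G : Type} [Ring R] [StarRing R] [Group G] {H : Subgroup G}
  {C J : FC (MonoidAlgebra R H)} {k : ℤ}
  {Z : Submodule (MonoidAlgebra R H)ᵐᵒᵖ (C.I → MonoidAlgebra R H)}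
  {g : Matrix C.I J.I (MonoidAlgebra R H)}

theorem cone_inr (h : RD C k Z J g) {x' : C.I ⊕ J.I → MonoidAlgebra R H}
    (hx : x' ∈ (cone C J g h.gg h.cg).Cy k) : x' ∘ Sum.inr = 0 := by
  funext j
  by_contra h0
  have h1 := hx.1 (Sum.inr j) h0
  have h2 : J.deg j - 1 = k := h1
  have h3 := h.dk j
  omega

theorem cone_inl (h : RD C k Z J g) {x' : C.I ⊕ J.I → MonoidAlgebra R H}
    (hx : x' ∈ (cone C J g h.gg h.cg).Cy k) : x' ∘ Sum.inl ∈ C.Cy k := by
  refine ⟨fun i hi => hx.1 (Sum.inl i) hi, ?_⟩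
  have h1 : fromBlocks C.d g 0 J.d *ᵥ x' = 0 := hx.2
  rw [fromBlocks_mulVec] at h1
  have h2 : C.d *ᵥ (x' ∘ Sum.inl) + g *ᵥ (x' ∘ Sum.inr) = 0 := by
    funext i
    exact congrFun h1 (Sum.inl i)
  rwa [cone_inr h hx, mulVec_zero, add_zero] at h2

theorem cone_dual_inl (h : RD C k Z J g) {y' : C.I ⊕ J.I → MonoidAlgebra R H}
    (hy : y' ∈ (cone C J g h.gg h.cg).dual.Cy k) : y' ∘ Sum.inl ∈ C.dual.Cy k := by
  refine ⟨fun i hi => hy.1 (Sum.inl i) hi, ?_⟩
  have h1 : (fromBlocks C.d g 0 J.d)ᴴ *ᵥ y' = 0 := hy.2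
  rw [fromBlocks_conjTranspose, fromBlocks_mulVec] at h1
  have h2 : C.dᴴ *ᵥ (y' ∘ Sum.inl) + (0 : Matrix J.I C.I (MonoidAlgebra R H))ᴴ *ᵥ (y' ∘ Sum.inr)
      = 0 := by
    funext i
    exact congrFun h1 (Sum.inl i)
  rw [conjTranspose_zero, zero_mulVec, add_zero] at h2
  exact h2

theorem parts (ε : ℤˣ) (a μ b : Matrix C.I C.I (MonoidAlgebra R G))
    (f f' : Matrix C.I J.I (MonoidAlgebra R G)) (t : Matrix J.I J.I (MonoidAlgebra R G))
    (x' y' : C.I ⊕ J.I → MonoidAlgebra R H) (hx : x' ∘ Sum.inr = 0) (l : ℕ) :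
    px ε (newa ε a f t) (fromBlocks μ f' 0 0) (fromBlocks b 0 0 0) x' y' l ∘ Sum.inl =
      px ε a μ b (x' ∘ Sum.inl) (y' ∘ Sum.inl) l ∧
    px ε (newa ε a f t) (fromBlocks μ f' 0 0) (fromBlocks b 0 0 0) x' y' l ∘ Sum.inr = 0 ∧
    py ε (newa ε a f t) (fromBlocks μ f' 0 0) (fromBlocks b 0 0 0) x' y' l ∘ Sum.inl =
      py ε a μ b (x' ∘ Sum.inl) (y' ∘ Sum.inl) l := by
  induction l with
  | zero =>
    rw [px_zero, py_zero, px_zero, py_zero]
    refine ⟨rfl, ?_, rfl⟩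
    have : (exv x' : _ → MonoidAlgebra R G) ∘ Sum.inr = exv (x' ∘ Sum.inr) := rfl
    rw [this, hx, exv_zero]
  | succ l ih =>
    obtain ⟨h1, h2, h3⟩ := ih
    rw [px_succ, py_succ, px_succ, py_succ]
    unfold newa
    unfold newa at h1 h2 h3
    rw [fromBlocks_conjTranspose, fromBlocks_mulVec, fromBlocks_mulVec, fromBlocks_mulVec,
      fromBlocks_mulVec, h1, h2, h3]
    simp only [mulVec_zero, add_zero, zero_mulVec, conjTranspose_zero]
    refine ⟨?_, ?_, ?_⟩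
    · funext i
      rfl
    · funext j
      simp
    · funext i
      rfl

theorem blk_inl {A m n : Type} [Ring A] [Fintype m] [Fintype n] (d : Matrix m m A)
    (g : Matrix m n A) (e : Matrix n n A) (u : m → A) (i : m) :
    (fromBlocks d g 0 e *ᵥ Sum.elim u 0) (Sum.inl i) = (d *ᵥ u) i := by
  rw [fromBlocks_mulVec]
  simp

theorem blk_inr {A m n : Type} [Ring A] [Fintype m] [Fintype n] (d : Matrix m m A)
    (g : Matrix m n A) (e : Matrix n n A) (u : m → A) (j : n) :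
    (fromBlocks d g 0 e *ᵥ Sum.elim u 0) (Sum.inr j) = 0 := by
  rw [fromBlocks_mulVec]
  simp

theorem blkS_inl {A m n : Type} [Ring A] [StarRing A] [Fintype m] [Fintype n] (d : Matrix m m A)
    (g : Matrix m n A) (e : Matrix n n A) (u : m → A) (v : n → A) (i : m) :
    ((fromBlocks d g 0 e)ᴴ *ᵥ Sum.elim u v) (Sum.inl i) = (dᴴ *ᵥ u) i := by
  rw [fromBlocks_conjTranspose, fromBlocks_mulVec]
  simp

theorem blkS_inr {A m n : Type} [Ring A] [StarRing A] [Fintype m] [Fintype n] (d : Matrix m m A)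
    (g : Matrix m n A) (e : Matrix n n A) (u : m → A) (v : n → A) (j : n) :
    ((fromBlocks d g 0 e)ᴴ *ᵥ Sum.elim u v) (Sum.inr j) = (gᴴ *ᵥ u + eᴴ *ᵥ v) j := by
  rw [fromBlocks_conjTranspose, fromBlocks_mulVec]
  simp

theorem blkS_ker {A m n : Type} [Ring A] [StarRing A] [Fintype m] [Fintype n] (d : Matrix m m A)
    (g : Matrix m n A) (e : Matrix n n A) (w : m ⊕ n → A)
    (hw : (fromBlocks d g 0 e)ᴴ *ᵥ w = 0) :
    gᴴ *ᵥ (w ∘ Sum.inl) + eᴴ *ᵥ (w ∘ Sum.inr) = 0 := by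
  rw [fromBlocks_conjTranspose, fromBlocks_mulVec] at hw
  funext j
  exact congrFun hw (Sum.inr j)

end Cone

end NLKAux

open NLKAux in
theorem specNLK (hFLT : SpecFLT) (hCNE : SpecCNE) (hPRG : SpecPRG) : SpecNLK := by
  classical
  intro R G _ _ _ H X1 X2 X3 Yp Ym P ε C J a μ b k g f f' t h hN hE hN' l hr1 hr2
  have hd : (ext (cone C J g h.gg h.cg).d : Matrix _ _ (MonoidAlgebra R G)) =
      fromBlocks (ext C.d) (ext g) 0 (ext J.d) := by
    change (ext (fromBlocks C.d g 0 J.d) : Matrix _ _ (MonoidAlgebra R G)) = _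
    rw [ext_blocks, ext_zero]
  -- first rows
  have R1 : ∀ m, Row1 ε C a μ b k m → Row1 ε (cone C J g h.gg h.cg) (newa ε a f t)
      (fromBlocks μ f' 0 0) (fromBlocks b 0 0 0) k m := by
    intro m hr x' hx y' hy
    obtain ⟨u, hu⟩ := hr _ (cone_inl h hx) _ (cone_dual_inl h hy)
    obtain ⟨p1, p2, _⟩ := parts ε a μ b f f' t x' y' (cone_inr h hx) m
    refine ⟨Sum.elim u 0, fun i => ?_⟩
    rw [hd]
    rcases i with i | j
    · exact (congrFun p1 i).trans ((hu i).trans (blk_inl _ _ _ u i).symm)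
    · exact (congrFun p2 j).trans (blk_inr _ _ _ u j).symm
  -- second rows
  have R2 : ∀ m, Row2 ε C a μ b k m → Row2 ε (cone C J g h.gg h.cg) (newa ε a f t)
      (fromBlocks μ f' 0 0) (fromBlocks b 0 0 0) k m := by
    intro m hr x' hx y' hy
    obtain ⟨u, hu⟩ := hr _ (cone_inl h hx) _ (cone_dual_inl h hy)
    obtain ⟨_, _, p3⟩ := parts ε a μ b f f' t x' y' (cone_inr h hx) m
    obtain ⟨_, c2, _, c4⟩ := cocy hN' hx hy m
    set w := py ε (newa ε a f t) (fromBlocks μ f' 0 0) (fromBlocks b 0 0 0) x' y' m with hw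
    rw [hd] at c4
    have c5 : (ext g)ᴴ *ᵥ (w ∘ Sum.inl) + (ext J.d)ᴴ *ᵥ (w ∘ Sum.inr) = 0 :=
      blkS_ker _ _ _ w c4
    obtain ⟨u1, v1, e1, e2⟩ := hCNE.2 R G H C J k (Ker C a μ k) g h
      (hFLT R G H Set.univ J.dual k (fun _ _ _ _ => Set.mem_univ _) h.g4) (w ∘ Sum.inl)
      (w ∘ Sum.inr) (fun i hi => c2 (Sum.inl i) hi) (fun j hj => by
        have h5 := c2 (Sum.inr j) hj
        have h6 : -(J.deg j - 1) = k := h5
        omega) c5 ⟨u, by
        rw [p3]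
        funext i
        exact hu i⟩
    refine ⟨Sum.elim u1 v1, fun i => ?_⟩
    rw [hd]
    rcases i with i | j
    · exact (congrFun e1 i).trans (blkS_inl _ _ _ u1 v1 i).symm
    · exact (congrFun e2 j).trans (blkS_inr _ _ _ u1 v1 j).symm
  refine ⟨⟨R1 _ hr1, R2 _ hr2⟩, ?_, R2 l⟩
  intro x' hx y' hy
  have hx0 := cone_inl h hx
  have hy0 := cone_dual_inl h hy
  obtain ⟨p1, p2, _⟩ := parts ε a μ b f f' t x' y' (cone_inr h hx) l
  obtain ⟨c1, c2, c3, c4⟩ := cocy hN hx0 hy0 l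
  obtain ⟨s1, s2⟩ := supps P hN (x' ∘ Sum.inl) (y' ∘ Sum.inl) l
  obtain ⟨u, hu⟩ := hr1 _ hx0 _ hy0
  obtain ⟨v, hv⟩ := hr2 _ hx0 _ hy0
  have hu' : μ *ᵥ px ε a μ b (x' ∘ Sum.inl) (y' ∘ Sum.inl) l +
      (ε : ℤ) • (b *ᵥ py ε a μ b (x' ∘ Sum.inl) (y' ∘ Sum.inl) l) = ext C.d *ᵥ u := by
    rw [← px_succ]
    funext i
    exact hu i
  have hv' : a *ᵥ px ε a μ b (x' ∘ Sum.inl) (y' ∘ Sum.inl) l +
      μᴴ *ᵥ py ε a μ b (x' ∘ Sum.inl) (y' ∘ Sum.inl) l = (ext C.d)ᴴ *ᵥ v := by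
    rw [← py_succ]
    funext i
    exact hv i
  have hker := hPRG R G H X1 X2 X3 Yp Ym P ε C a μ b k _ _ hN s1 s2 c1 c3 ⟨u, hu'⟩ ⟨v, hv'⟩
  obtain ⟨θ, hθ⟩ := vlf (G := G) (H := H) (fromBlocks C.d g 0 J.d)
    (Sum.elim (px ε a μ b (x' ∘ Sum.inl) (y' ∘ Sum.inl) l) 0) (by
      intro t
      obtain ⟨y0, h7, x0, h8⟩ := h.g3' _ (hker t)
      refine ⟨Sum.elim x0 y0, ?_⟩
      have h9 : J.d *ᵥ y0 = 0 := by
        funext j
        by_contra h0
        obtain ⟨j', h10, h11⟩ := mulVec_ne h0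
        have := J.hd _ _ h10
        have := h7 _ h11
        have := h.dk j
        omega
      rw [fromBlocks_mulVec]
      funext i
      rcases i with i | j
      · have := congrFun h8 i
        simp only [Sum.elim_inl]
        refine this.trans ?_
        rw [add_comm]
        rfl
      · simp only [Sum.elim_inr, Pi.zero_apply]
        rw [RESAux.lres_zero]
        have e3 : (Sum.elim x0 y0 : C.I ⊕ J.I → MonoidAlgebra R H) ∘ Sum.inr = y0 := rfl
        rw [e3, h9]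
        simp)
  refine ⟨θ, fun i => ?_⟩
  change _ = (ext (fromBlocks C.d g 0 J.d) *ᵥ θ) i
  rw [← hθ]
  rcases i with i | j
  · exact congrFun p1 i
  · exact congrFun p2 j

end Pool.Agent.Lib.MP8a3537.AU
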