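import Pool.Agent.Lib.MP_8a3537_gt.AU.Spec
import Pool.Agent.Lib.MP_8a3537_gt.UV.RES
import Pool.Agent.Lib.MP_8a3537_gt.UV.STK
import Pool.Agent.Lib.MP_8a3537_gt.UV.IND

/-!
# AU, module PRG (helper87): progress
-/

namespace Pool.Agent.Lib.MP8a3537.AU

open Matrix Pool.Agent.Lib.MP8a3537.UV
open Pool.Agent.Lib.MP8a3537.UO (ext)

namespace PRGAux

section

variable {R G : Type} [Ring R]

open Classical in
/-- the part of `v` supported in `Y` -/
noncomputable def cut (Y : Set G) (v : MonoidAlgebra R G) : MonoidAlgebra R G :=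
  .ofCoeff (v.coeff.filter (· ∈ Y))

open Classical in
theorem cut_coeff (Y : Set G) (v : MonoidAlgebra R G) (g : G) :
    (cut Y v).coeff g = if g ∈ Y then v.coeff g else 0 := by
  show (v.coeff.filter (· ∈ Y)) g = _
  rw [Finsupp.filter_apply]

theorem cut_zero (Y : Set G) : cut Y (0 : MonoidAlgebra R G) = 0 := by
  ext g
  rw [cut_coeff]
  simp

theorem cut_add (Y : Set G) (v w : MonoidAlgebra R G) : cut Y (v + w) = cut Y v + cut Y w := by
  ext g
  rw [MonoidAlgebra.coeff_add, Finsupp.add_apply, cut_coeff, cut_coeff, cut_coeff,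
    MonoidAlgebra.coeff_add, Finsupp.add_apply]
  split_ifs <;> simp

theorem cut_sum {ι : Type*} (s : Finset ι) (Y : Set G) (f : ι → MonoidAlgebra R G) :
    cut Y (∑ i ∈ s, f i) = ∑ i ∈ s, cut Y (f i) := by
  classical
  induction s using Finset.induction_on with
  | empty => simp [cut_zero]
  | insert a s ha ih => rw [Finset.sum_insert ha, Finset.sum_insert ha, cut_add, ih]

theorem cut_of_supp {Y : Set G} {v : MonoidAlgebra R G} (h : ∀ g, v.coeff g ≠ 0 → g ∈ Y) :
    cut Y v = v := by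
  ext g
  rw [cut_coeff]
  split_ifs with hg
  · rfl
  · by_contra h0
    exact hg (h g (Ne.symm h0))

theorem cut_of_disj {Y : Set G} {v : MonoidAlgebra R G} (h : ∀ g, v.coeff g ≠ 0 → g ∉ Y) :
    cut Y v = 0 := by
  ext g
  rw [cut_coeff]
  split_ifs with hg
  · by_contra h0
    exact h g h0 hg
  · rfl

end

section

variable {R G : Type} [Ring R] [Group G] {H : Subgroup G}

theorem cut_emb_mul {Y : Set G} (hY : ∀ h ∈ H, ∀ y ∈ Y, h * y ∈ Y) (s : MonoidAlgebra R H)
    (v : MonoidAlgebra R G) : cut Y (emb R H s * v) = emb R H s * cut Y v := by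
  induction s using MonoidAlgebra.induction_linear with
  | zero => simp [cut_zero]
  | add x y hx hy => rw [map_add, add_mul, cut_add, hx, hy, add_mul]
  | single h r =>
    ext g
    rw [RESAux.emb_single, cut_coeff, MonoidAlgebra.coeff_single_mul_apply,
      MonoidAlgebra.coeff_single_mul_apply, cut_coeff]
    have h1 : (h : G)⁻¹ * g ∈ Y ↔ g ∈ Y := by
      constructor
      · intro h2
        have := hY h h.2 _ h2
        rwa [mul_inv_cancel_left] at this
      · intro h2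
        exact hY _ (H.inv_mem h.2) _ h2
    by_cases h2 : g ∈ Y
    · rw [if_pos h2, if_pos (h1.2 h2)]
    · rw [if_neg h2, if_neg (fun h3 => h2 (h1.1 h3)), mul_zero]

theorem cut_mulVec {m n : Type} [Fintype n] {Y : Set G} (hY : ∀ h ∈ H, ∀ y ∈ Y, h * y ∈ Y)
    (D : Matrix m n (MonoidAlgebra R H)) (u : n → MonoidAlgebra R G) (i : m) :
    cut Y ((ext D *ᵥ u) i) = (ext D *ᵥ fun j => cut Y (u j)) i := by
  simp only [mulVec, dotProduct]
  rw [cut_sum]
  exact Finset.sum_congr rfl fun j _ => cut_emb_mul hY (D i j) (u j)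

theorem supp_mulVec {m n : Type} [Fintype n] {X Y Z : Set G}
    {M : Matrix m n (MonoidAlgebra R G)} {v : n → MonoidAlgebra R G} (hM : SuppIn X M)
    (hv : SuppV Y v) (h : ∀ x ∈ X, ∀ y ∈ Y, x * y ∈ Z) : SuppV Z (M *ᵥ v) := by
  intro i g hg
  exact INDAux.supp_mul hM (N := fun i (_ : Unit) => v i) (fun i _ g hg => hv i g hg) h i () g hg

theorem mulVec_mul_right {m n : Type} [Fintype n] (M : Matrix m n (MonoidAlgebra R G))
    (v : n → MonoidAlgebra R G) (c : MonoidAlgebra R G) :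
    M *ᵥ (fun j => v j * c) = fun i => (M *ᵥ v) i * c := by
  funext i
  simp only [mulVec, dotProduct]
  rw [Finset.sum_mul]
  exact Finset.sum_congr rfl fun j _ => (mul_assoc _ _ _).symm

/-- if `X Y`-part -/
theorem split {m n n' l : Type} [Fintype n] [Fintype n'] [Fintype l] {X Y X' Y' : Set G}
    {M : Matrix m n (MonoidAlgebra R G)} {v : n → MonoidAlgebra R G}
    {M' : Matrix m n' (MonoidAlgebra R G)} {v' : n' → MonoidAlgebra R G}
    (D : Matrix m l (MonoidAlgebra R H)) (u : l → MonoidAlgebra R G)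
    (hXl : ∀ h ∈ H, ∀ x ∈ X, h * x ∈ X) (hM : SuppIn X M) (hv : SuppV Y v)
    (hM' : SuppIn X' M') (hv' : SuppV Y' v')
    (hd : ∀ x ∈ X, ∀ y ∈ Y, ∀ x' ∈ X', ∀ y' ∈ Y', x * y ≠ x' * y')
    (ε : ℤˣ) (h : M *ᵥ v + (ε : ℤ) • (M' *ᵥ v') = ext D *ᵥ u) :
    ∃ u' : l → MonoidAlgebra R G, M *ᵥ v = ext D *ᵥ u' := by
  obtain ⟨S, hS⟩ : ∃ S : Set G, S = {g | ∃ x ∈ X, ∃ y ∈ Y, g = x * y} := ⟨_, rfl⟩
  refine ⟨fun j => cut S (u j), ?_⟩
  funext i
  rw [← cut_mulVec (H := H) (Y := S) ?_ D u i, ← h]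
  · have h1 : cut S ((M *ᵥ v) i) = (M *ᵥ v) i := by
      apply cut_of_supp
      intro g hg
      exact supp_mulVec hM hv (Z := S) (fun x hx y hy => by rw [hS]; exact ⟨x, hx, y, hy, rfl⟩)
        i g hg
    have h2 : cut S (((ε : ℤ) • (M' *ᵥ v')) i) = 0 := by
      apply cut_of_disj
      intro g hg hgS
      have h3 : ((M' *ᵥ v') i).coeff g ≠ 0 := by
        intro h0
        apply hg
        rcases Int.units_eq_one_or ε with rfl | rfl
        · simpa using h0
        · simpa using h0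
      have h4 := supp_mulVec hM' hv' (Z := {g | ∃ x ∈ X', ∃ y ∈ Y', g = x * y})
        (fun x hx y hy => ⟨x, hx, y, hy, rfl⟩) i g h3
      obtain ⟨x', hx', y', hy', h5⟩ := h4
      rw [hS] at hgS
      obtain ⟨x, hx, y, hy, h6⟩ := hgS
      exact hd x hx y hy x' hx' y' hy' (h6.symm.trans h5)
    rw [Pi.add_apply, cut_add, h1, h2, add_zero]
  · intro h0 hh y hy
    rw [hS] at hy ⊢
    obtain ⟨x, hx, y', hy', rfl⟩ := hy
    exact ⟨h0 * x, hXl h0 hh x hx, y', hy', (mul_assoc _ _ _).symm⟩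

/-- restriction to a right coset -/
theorem coset {m n l : Type} [Fintype n] [Fintype l] {X Y : Set G}
    {M : Matrix m n (MonoidAlgebra R G)} {v : n → MonoidAlgebra R G}
    (D : Matrix m l (MonoidAlgebra R H)) (u : l → MonoidAlgebra R G)
    (hXl : ∀ h ∈ H, ∀ x ∈ X, h * x ∈ X) (hXr : ∀ h ∈ H, ∀ x ∈ X, x * h ∈ X)
    (hYl : ∀ h ∈ H, ∀ y ∈ Y, h * y ∈ Y) (hd : Disj H X Y) (hM : SuppIn X M) (hv : SuppV Y v)
    (h : M *ᵥ v = ext D *ᵥ u) (t : G) :
    ∃ u' : l → MonoidAlgebra R G, M *ᵥ exv (fun i => lres H t (v i)) = ext D *ᵥ u' := by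
  by_cases ht : t ∈ Y
  · obtain ⟨Ht, hHt⟩ : ∃ Ht : Set G, Ht = {g | g * t⁻¹ ∈ H} := ⟨_, rfl⟩
    obtain ⟨Xt, hXt⟩ : ∃ Xt : Set G, Xt = {g | g * t⁻¹ ∈ X} := ⟨_, rfl⟩
    have h1 : exv (fun i => lres H t (v i)) =
        fun i => cut Ht (v i) * (MonoidAlgebra.single t⁻¹ (1 : R)) := by
      funext i
      ext g
      rw [MonoidAlgebra.coeff_mul_single_apply, mul_one, inv_inv, cut_coeff]
      show (emb R H (lres H t (v i))).coeff g = _
      by_cases hg : g ∈ H
      · have h2 := RESAux.emb_coeff_mem H (lres H t (v i)) ⟨g, hg⟩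
        have h3 : g * t ∈ Ht := by
          rw [hHt]
          show g * t * t⁻¹ ∈ H
          rwa [mul_inv_cancel_right]
        rw [if_pos h3]
        exact h2
      · rw [RESAux.emb_coeff_not_mem H _ g hg, if_neg]
        rw [hHt]
        show ¬ g * t * t⁻¹ ∈ H
        rwa [mul_inv_cancel_right]
    have h2 : ∀ i, (M *ᵥ fun j => cut Ht (v j)) i = cut Xt ((M *ᵥ v) i) := by
      intro i
      obtain ⟨w', hw'⟩ : ∃ w' : n → MonoidAlgebra R G, w' = fun j => v j - cut Ht (v j) :=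
        ⟨_, rfl⟩
      have hvw : v = (fun j => cut Ht (v j)) + w' := by
        funext j
        rw [hw']
        simp
      have hw's : SuppV {g | g ∈ Y ∧ g ∉ Ht} w' := by
        intro j g hg
        rw [hw'] at hg
        by_cases h3 : g ∈ Ht
        · exfalso
          apply hg
          show (v j - cut Ht (v j)).coeff g = 0
          rw [MonoidAlgebra.coeff_sub, Finsupp.sub_apply, cut_coeff, if_pos h3, sub_self]
        · refine ⟨hv j g ?_, h3⟩
          intro h0
          apply hg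
          show (v j - cut Ht (v j)).coeff g = 0
          rw [MonoidAlgebra.coeff_sub, Finsupp.sub_apply, cut_coeff, if_neg h3, h0, sub_zero]
      have hws : SuppV Ht (fun j => cut Ht (v j)) := by
        intro j g hg
        by_contra h3
        apply hg
        show (cut Ht (v j)).coeff g = 0
        rw [cut_coeff, if_neg h3]
      have h4 : cut Xt ((M *ᵥ fun j => cut Ht (v j)) i) = (M *ᵥ fun j => cut Ht (v j)) i := by
        apply cut_of_supp
        intro g hg
        refine supp_mulVec hM hws (Z := Xt) ?_ i g hg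
        intro x hx y hy
        rw [hHt] at hy
        rw [hXt]
        show x * y * t⁻¹ ∈ X
        rw [mul_assoc]
        exact hXr _ hy _ hx
      have h5 : cut Xt ((M *ᵥ w') i) = 0 := by
        apply cut_of_disj
        intro g hg hgX
        obtain ⟨x, hx, y, hy, rfl⟩ := supp_mulVec hM hw's
          (Z := {g | ∃ x ∈ X, ∃ y ∈ {g | g ∈ Y ∧ g ∉ Ht}, g = x * y})
          (fun x hx y hy => ⟨x, hx, y, hy, rfl⟩) i g hg
        rw [hXt] at hgX
        have h6 := hd x hx (x * y * t⁻¹) hgX y hy.1 t ht (by group)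
        apply hy.2
        rw [hHt]
        show y * t⁻¹ ∈ H
        have h7 : x⁻¹ * (x * y * t⁻¹) = y * t⁻¹ := by group
        rwa [h7] at h6
      conv_rhs => rw [hvw]
      rw [mulVec_add, Pi.add_apply, cut_add, h4, h5, add_zero]
    refine ⟨fun j => cut Xt (u j) * (MonoidAlgebra.single t⁻¹ (1 : R)), ?_⟩
    rw [h1, mulVec_mul_right, mulVec_mul_right]
    funext i
    rw [h2, h, cut_mulVec (H := H) (Y := Xt)]
    intro h0 hh y hy
    rw [hXt] at hy ⊢
    show h0 * y * t⁻¹ ∈ X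
    rw [mul_assoc]
    exact hXl h0 hh _ hy
  · refine ⟨0, ?_⟩
    have h1 : exv (G := G) (fun i => lres H t (v i)) = 0 := by
      funext i
      have h2 : lres H t (v i) = 0 := by
        ext h'
        rw [lres_coeff]
        by_contra h3
        have h4 := hv i _ h3
        have h5 := hYl _ (H.inv_mem h'.2) _ h4
        rw [inv_mul_cancel_left] at h5
        exact ht h5
      show emb R H (lres H t (v i)) = 0
      rw [h2, map_zero]
    rw [h1, mulVec_zero, mulVec_zero]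

end

end PRGAux

open PRGAux in
theorem specPRG : SpecPRG := by
  intro R G _ _ _ H X1 X2 X3 Yp Ym hP ε C a μ b k x1 y1 hN hx hy hdeg hd0 hr1 hr2 t
  obtain ⟨u1, hu1⟩ := hr1
  obtain ⟨u2, hu2⟩ := hr2
  have hstar : (ext C.d : Matrix C.I C.I (MonoidAlgebra R G))ᴴ = ext C.dᴴ :=
    STKAux.conjTranspose_map_emb H C.d
  obtain ⟨v1, hv1⟩ := split C.d u1 hP.X3l hN.sm hx hN.sb hy
    (fun x hx y hy x' hx' y' hy' h => hP.d23 x' hx' y' hy' x hx y hy h.symm) ε hu1
  obtain ⟨v2, hv2⟩ := split C.dᴴ u2 hP.X1l hN.sa hx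
    (INDAux.supp_star hN.sm (Y := Xinv X3) (fun x hx => by
      show x⁻¹⁻¹ ∈ X3
      rwa [inv_inv])) hy hP.d13 1 (by
        rw [← hstar, ← hu2]
        simp)
  obtain ⟨w1, hw1⟩ := coset C.d v1 hP.X3l hP.X3r hP.Ypl hP.u3 hN.sm hx hv1 t
  obtain ⟨w2, hw2⟩ := coset C.dᴴ v2 hP.X1l hP.X1r hP.Ypl hP.u1 hN.sa hx hv2 t
  refine ⟨⟨?_, ?_⟩, ⟨w2, ?_⟩, ⟨w1, hw1⟩⟩
  · intro i hi
    apply hdeg i
    intro h0
    apply hi
    show lres H t (x1 i) = 0
    rw [h0, RESAux.lres_zero]
  · funext i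
    have h1 := congrArg (lres H t) (congrFun hd0 i)
    have h2 : (C.d *ᵥ fun i => lres H t (x1 i)) i = lres H t ((ext C.d *ᵥ x1) i) := by
      simp only [mulVec, dotProduct]
      rw [RESAux.lres_sum]
      exact Finset.sum_congr rfl fun j _ => (RESAux.lres_emb_mul H t (x1 j) (C.d i j)).symm
    rw [h2, h1]
    exact RESAux.lres_zero H t
  · rw [hstar]
    exact hw2

end Pool.Agent.Lib.MP8a3537.AU
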