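import Pool.Agent.Lib.MP_8a3537_gt.AU.Spec

/-!
# DES: solving `τ f = M + s f γ` by descending induction on the degree of the column
-/

namespace Pool.Agent.Lib.MP8a3537.AU

open Matrix

namespace DESAux

/-- A matrix-vector product of a homogeneous matrix of degree one only sees one component. -/
theorem comp_mulVec {S A : Type} [Ring S] [Ring A] (φ : S →+* A) (T : FC S) (y : T.I → A) (c : ℤ)
    (r : T.I → A) (hr : ∀ i, r i ≠ 0 → T.deg i = c + 1) (h : r = T.d.map φ *ᵥ y) :
    r = T.d.map φ *ᵥ (fun i => if T.deg i = c then y i else 0) := by
  funext i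
  by_cases hi : T.deg i = c + 1
  · rw [h]
    simp only [mulVec, dotProduct]
    apply Finset.sum_congr rfl
    intro l _
    by_cases h0 : T.d i l = 0
    · simp [h0]
    · have h1 := T.hd i l h0
      rw [if_pos (by omega)]
  · have h0 : r i = 0 := by
      by_contra h1
      exact hi (hr i h1)
    rw [h0]
    simp only [mulVec, dotProduct]
    symm
    apply Finset.sum_eq_zero
    intro l _
    by_cases h0 : T.d i l = 0
    · simp [h0]
    · have h1 := T.hd i l h0
      rw [if_neg (by omega), mul_zero]

/-- The products with `γ` only involve the columns of the next degree. -/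
theorem mul_gamma_congr {S A m : Type} [Ring S] [Ring A] (φ : S →+* A) (Q : FC S)
    (f g : Matrix m Q.I A) (i : m) (j : Q.I)
    (h : ∀ l, Q.deg l = Q.deg j + 1 → f i l = g i l) :
    (f * Q.d.map φ) i j = (g * Q.d.map φ) i j := by
  simp only [mul_apply]
  apply Finset.sum_congr rfl
  intro l _
  by_cases h0 : Q.d l j = 0
  · simp [h0]
  · rw [h l (Q.hd l j h0)]

theorem gamma_sq {S A : Type} [Ring S] [Ring A] (φ : S →+* A) (Q : FC S) :
    Q.d.map φ * Q.d.map φ = 0 := by
  have h := congrArg (fun M : Matrix Q.I Q.I S => M.map φ) Q.dd
  simp only [Matrix.map_mul] at h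
  rw [h]
  exact Matrix.map_zero _ (map_zero φ)

end DESAux

open DESAux in
/-- **DES**: solving `τ f = M + s f γ` by descending induction on the degree of the column. -/
theorem specDES : SpecDES := by
  intro S A _ _ φ V T Q q0 e s M f0 hV hex hMV hfV hMd hfd hcomm heq
  have key : ∀ n : ℕ, ∃ f : Matrix T.I Q.I A, (∀ i j, f i j ∈ V) ∧
      (∀ i j, f i j ≠ 0 → T.deg i = Q.deg j + e) ∧ (∀ i j, q0 < Q.deg j → f i j = f0 i j) ∧
      (∀ i j, q0 - n < Q.deg j →
        (T.d.map φ * f) i j = (M + (s : ℤ) • (f * Q.d.map φ)) i j) := by
    intro n
    induction n with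
    | zero =>
      refine ⟨f0, hfV, hfd, fun _ _ _ => rfl, fun i j h => heq i j (by simpa using h)⟩
    | succ n ih =>
      obtain ⟨f, h1, h2, h3, h4⟩ := ih
      have hR : ∀ j, Q.deg j = q0 - n → ∃ y : T.I → A, (∀ i, y i ∈ V) ∧
          (∀ i, y i ≠ 0 → T.deg i = Q.deg j + e) ∧
          (fun i => (M + (s : ℤ) • (f * Q.d.map φ)) i j) = T.d.map φ *ᵥ y := by
        intro j hj
        have hr : ∀ i, (M + (s : ℤ) • (f * Q.d.map φ)) i j ≠ 0 →
            T.deg i = (Q.deg j + e) + 1 := by
          intro i hi
          by_contra hne
          apply hi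
          have a1 : M i j = 0 := by
            by_contra h0
            exact hne (hMd i j h0)
          have a2 : (f * Q.d.map φ) i j = 0 := by
            rw [mul_apply]
            apply Finset.sum_eq_zero
            intro l _
            by_cases b1 : f i l = 0
            · rw [b1, zero_mul]
            · by_cases b2 : Q.d l j = 0
              · simp [b2]
              · exfalso
                have c1 := h2 i l b1
                have c2 := Q.hd l j b2
                omega
          rw [Matrix.add_apply, Matrix.smul_apply, a1, a2, smul_zero, add_zero]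
        obtain ⟨y, hy1, hy2⟩ := hex (fun i => (M + (s : ℤ) • (f * Q.d.map φ)) i j) (by
            intro i
            rw [Matrix.add_apply, Matrix.smul_apply]
            refine V.add_mem (hMV i j) (V.zsmul_mem ?_ _)
            rw [mul_apply]
            apply V.sum_mem
            intro l _
            exact hV _ (h1 i l) _) (by
            intro i hi
            have := hr i hi
            omega) (by
            funext i
            have e1 : (T.d.map φ *ᵥ fun i => (M + (s : ℤ) • (f * Q.d.map φ)) i j) i
                = (T.d.map φ * (M + (s : ℤ) • (f * Q.d.map φ))) i j := by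
              simp only [mulVec, dotProduct, mul_apply]
            rw [e1, Matrix.mul_add, Matrix.mul_smul, ← Matrix.mul_assoc, Matrix.add_apply,
              Matrix.smul_apply]
            have e2 : (T.d.map φ * f * Q.d.map φ) i j = (M * Q.d.map φ) i j := by
              rw [mul_gamma_congr φ Q (T.d.map φ * f) (M + (s : ℤ) • (f * Q.d.map φ)) i j
                (fun l hl => h4 i l (by omega))]
              rw [Matrix.add_mul, Matrix.smul_mul, Matrix.mul_assoc, gamma_sq, Matrix.mul_zero,
                smul_zero, add_zero]
            rw [e2]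
            have e3 := congrFun (congrFun hcomm i) j
            rw [Matrix.add_apply, Matrix.smul_apply] at e3
            rw [e3]
            rfl)
        refine ⟨fun i => if T.deg i = Q.deg j + e then y i else 0, ?_, ?_, ?_⟩
        · intro i
          dsimp only
          split_ifs
          · exact hy1 i
          · exact V.zero_mem
        · intro i hi
          dsimp only at hi
          by_contra hne
          rw [if_neg hne] at hi
          exact hi rfl
        · exact comp_mulVec φ T y (Q.deg j + e) _ hr hy2
      choose! y hy1 hy2 hy3 using hR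
      obtain ⟨F, hF⟩ : ∃ F : Matrix T.I Q.I A, ∀ i j, F i j = if Q.deg j = q0 - n then y j i
          else f i j := ⟨fun i j => if Q.deg j = q0 - n then y j i else f i j, fun _ _ => rfl⟩
      refine ⟨F, ?_, ?_, ?_, ?_⟩
      · intro i j
        rw [hF]
        split_ifs with hj
        · exact hy1 j hj i
        · exact h1 i j
      · intro i j hij
        rw [hF] at hij
        split_ifs at hij with hj
        · exact hy2 j hj i hij
        · exact h2 i j hij
      · intro i j hj
        rw [hF, if_neg (by omega)]
        exact h3 i j hj
      · intro i j hj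
        push_cast at hj
        have g1 : (F * Q.d.map φ) i j = (f * Q.d.map φ) i j := by
          apply mul_gamma_congr
          intro l hl
          rw [hF, if_neg (by omega)]
        rw [Matrix.add_apply, Matrix.smul_apply, g1]
        by_cases hj' : Q.deg j = q0 - n
        · have g2 := congrFun (hy3 j hj') i
          rw [Matrix.add_apply, Matrix.smul_apply] at g2
          rw [g2]
          simp only [mul_apply, mulVec, dotProduct, hF, if_pos hj']
        · have g3 := h4 i j (by omega)
          rw [Matrix.add_apply, Matrix.smul_apply] at g3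
          rw [← g3]
          simp only [mul_apply, hF, if_neg hj']
  obtain ⟨N, hN⟩ : ∃ N : ℕ, ∀ j, q0 - N < Q.deg j := by
    refine ⟨(∑ j, (q0 - Q.deg j).natAbs) + 1, fun j => ?_⟩
    have : (q0 - Q.deg j).natAbs ≤ ∑ j, (q0 - Q.deg j).natAbs :=
      Finset.single_le_sum (f := fun j => (q0 - Q.deg j).natAbs) (fun _ _ => Nat.zero_le _)
        (Finset.mem_univ j)
    omega
  obtain ⟨f, h1, h2, h3, h4⟩ := key N
  refine ⟨f, h1, h2, h3, ?_⟩
  ext i j
  exact h4 i j (hN j)

end Pool.Agent.Lib.MP8a3537.AU
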