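import Pool.Agent.Lib.MP_8a3537_gt.UV.Defs

/-!
# Vanishing of `UNil` over Auslander regular edge rings (MP_8a3537_gt, folder AU): definitions

`S` is a ring with involution. All modules are right modules; the elements of `S^m` are columns
`m → S`, on which `S` acts on the right (`Sᵐᵒᵖ` acts) and matrices over `S` act on the left. By the
involution the dual of the free right module `S^m` is again the right module `S^m`, and the dual of
the map given by the matrix `M` is given by the conjugate transpose `Mᴴ`.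
-/

namespace Pool.Agent.Lib.MP8a3537.AU

open Matrix

/-- A finite complex of finitely generated free right `S`-modules: `C^q` is free on the indices `i`
with `deg i = q`, and `d` raises degrees by one. -/
structure FC (S : Type) [Ring S] where
  /-- the index set of the bases of all the modules `C^q` -/
  I : Type
  [ft : Fintype I]
  [de : DecidableEq I]
  /-- the degrees -/
  deg : I → ℤ
  /-- the differential -/
  d : Matrix I I S
  hd : ∀ i j, d i j ≠ 0 → deg i = deg j + 1
  dd : d * d = 0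

attribute [instance] FC.ft FC.de

namespace FC

variable {S : Type} [Ring S]

/-- The dual complex: `(C^*)^q = (C^(-q))^*`. -/
def dual [StarRing S] (C : FC S) : FC S where
  I := C.I
  deg i := - C.deg i
  d := C.dᴴ
  hd i j h := by
    have h1 : C.d j i ≠ 0 := by
      intro h0
      apply h
      rw [conjTranspose_apply, h0, star_zero]
    have := C.hd j i h1
    omega
  dd := by rw [← conjTranspose_mul, C.dd, conjTranspose_zero]

/-- The cocycles of degree `k`. -/
def Cy (C : FC S) (k : ℤ) : Submodule Sᵐᵒᵖ (C.I → S) where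
  carrier := {x | (∀ i, x i ≠ 0 → C.deg i = k) ∧ C.d *ᵥ x = 0}
  zero_mem' := ⟨fun i h => absurd rfl h, mulVec_zero _⟩
  add_mem' := by
    rintro x y ⟨hx, hx'⟩ ⟨hy, hy'⟩
    refine ⟨fun i h => ?_, by rw [mulVec_add, hx', hy', add_zero]⟩
    by_cases h0 : x i = 0
    · apply hy i
      intro h1
      apply h
      simp [h0, h1]
    · exact hx i h0
  smul_mem' := by
    rintro s x ⟨hx, hx'⟩
    refine ⟨fun i h => ?_, by rw [mulVec_smul, hx', smul_zero]⟩
    apply hx i
    intro h0
    apply h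
    simp [h0]

/-- The coboundaries of degree `k`. -/
def Bd (C : FC S) (k : ℤ) : Submodule Sᵐᵒᵖ (C.I → S) where
  carrier := {x | (∀ i, x i ≠ 0 → C.deg i = k) ∧ ∃ y, x = C.d *ᵥ y}
  zero_mem' := ⟨fun i h => absurd rfl h, 0, (mulVec_zero _).symm⟩
  add_mem' := by
    rintro x y ⟨hx, x', hx'⟩ ⟨hy, y', hy'⟩
    refine ⟨fun i h => ?_, x' + y', by rw [mulVec_add, hx', hy']⟩
    by_cases h0 : x i = 0
    · apply hy i
      intro h1
      apply h
      simp [h0, h1]
    · exact hx i h0
  smul_mem' := by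
    rintro s x ⟨hx, x', hx'⟩
    refine ⟨fun i h => ?_, s • x', by rw [mulVec_smul, hx']⟩
    apply hx i
    intro h0
    apply h
    simp [h0]

/-- `H^q(C) = 0` for all `q < k`. -/
def ExBelow (C : FC S) (k : ℤ) : Prop :=
  ∀ x : C.I → S, (∀ i, x i ≠ 0 → C.deg i < k) → C.d *ᵥ x = 0 → ∃ y, x = C.d *ᵥ y

/-- `H^q(C) = 0` for all `q > k`. -/
def ExAbove (C : FC S) (k : ℤ) : Prop :=
  ∀ x : C.I → S, (∀ i, x i ≠ 0 → k < C.deg i) → C.d *ᵥ x = 0 → ∃ y, x = C.d *ᵥ y

/-- `C` is a finite free resolution (of the module `H^0(C)`): its degrees are `≤ 0` and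
`H^q(C) = 0` for all `q < 0`. -/
def IsRes (C : FC S) : Prop := (∀ i, C.deg i ≤ 0) ∧ C.ExBelow 0

/-- The matrix `g` makes `C` a finite free resolution of `Z / B`, where `B` and `Z` are submodules of
`S^m`: `g` maps `C^0` to `Z`, onto modulo `B`, and maps exactly the coboundaries to `B`. -/
structure Resolves (C : FC S) {m : Type} [Fintype m] (B Z : Submodule Sᵐᵒᵖ (m → S))
    (g : Matrix m C.I S) : Prop where
  res : C.IsRes
  supp : ∀ i j, g i j ≠ 0 → C.deg j = 0
  mem : ∀ y, g *ᵥ y ∈ Z
  onto : ∀ z ∈ Z, ∃ y, z - g *ᵥ y ∈ B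
  im : ∀ x, g *ᵥ (C.d *ᵥ x) ∈ B
  ker : ∀ y, (∀ j, y j ≠ 0 → C.deg j = 0) → g *ᵥ y ∈ B → ∃ x, y = C.d *ᵥ x

end FC

/-- The submodule of `S^m` generated by the columns of `M`. -/
def rng {S : Type} [Ring S] {m n : Type} [Fintype n] (M : Matrix m n S) :
    Submodule Sᵐᵒᵖ (m → S) where
  carrier := {x | ∃ y, x = M *ᵥ y}
  zero_mem' := ⟨0, (mulVec_zero _).symm⟩
  add_mem' := by
    rintro x y ⟨x', hx'⟩ ⟨y', hy'⟩
    exact ⟨x' + y', by rw [mulVec_add, hx', hy']⟩
  smul_mem' := by
    rintro s x ⟨x', hx'⟩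
    exact ⟨s • x', by rw [mulVec_smul, hx']⟩

/-- A noetherian ring `S` with involution is called regular here if: every finitely presented module
has a finite free resolution; there is a `d` such that `Ext^j(M, S) = 0` for `j > d` (for all modules
`M = H^0(P)` with a finite free resolution `P`, so that `Ext^j(M, S) = H^j(P^*)`); and the Auslander
condition holds: for all such `M`, every `c ≥ 0` and every submodule `N = Z / B` of
`Ext^c(M, S) = H^c(P^*)`, `N` has a finite free resolution `Q` with `H^j(Q^*) = 0` for `j < c`, that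
is, `Ext^j(N, S) = 0` for `j < c`. -/
structure AuslanderRegular (S : Type) [Ring S] [StarRing S] : Prop where
  noeth : IsNoetherianRing S
  ffr : ∀ (m n : ℕ) (M : Matrix (Fin m) (Fin n) S),
    ∃ (C : FC S) (g : Matrix (Fin m) C.I S), C.Resolves (rng M) ⊤ g
  injdim : ∃ d : ℕ, ∀ P : FC S, P.IsRes → P.dual.ExAbove d
  auslander : ∀ P : FC S, P.IsRes → ∀ (c : ℕ) (Z : Submodule Sᵐᵒᵖ (P.dual.I → S)),
    P.dual.Bd c ≤ Z → Z ≤ P.dual.Cy c →
    ∃ (Q : FC S) (g : Matrix P.dual.I Q.I S), Q.Resolves (P.dual.Bd c) Z g ∧ Q.dual.ExBelow c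

end Pool.Agent.Lib.MP8a3537.AU
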