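import Pool.Agent.Lib.MP_8a3537_gt.AU.Defs
import Pool.Agent.Lib.MP_8a3537_gt.UV.Spec
import Pool.Agent.Lib.MP_8a3537_gt.UO.Defs

/-!
# Vanishing of `UNil` over Auslander regular edge rings: Specs

Paper proof: `/team-store/8a3537_AU_auslander.md`. Every module `XXX` is a file
`Pool/Agent/Lib/MP_8a3537_gt/AU/XXX.lean` which imports this file (and nothing else of the folder AU)
and proves `theorem specXXX (hypotheses as stated) : SpecXXX` (exactly this name) in the namespace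
`Pool.Agent.Lib.MP8a3537.AU`, with its auxiliary declarations in `AU.XXXAux`. The landed modules of
the folder UV (`specRES`, `specTat`, `specTRE`, `specEmv`, `specSwp`, `specNIL` and the auxiliary
lemmas of `UV/IND.lean` on supports and on the exchange) may be imported where it is useful.

Conventions. `S = R[H]`, `A = R[G]`. Columns, matrices act from the left. A homogeneous matrix `f`
has `f i j ≠ 0 → (degree of i) = (degree of j) + const`; if `x` is supported in the degree `q` then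
`f *ᵥ x` is supported in the degree `q + const`; and if `τ` is homogeneous and `τ *ᵥ x = 0` then this
holds for all the homogeneous components of `x`.
-/

namespace Pool.Agent.Lib.MP8a3537.AU

open Matrix Pool.Agent.Lib.MP8a3537.UV
open Pool.Agent.Lib.MP8a3537.UO (ext)

/-! ### General rings -/

/-- **NOE** (size 80): submodules of `S^m` are generated by the columns of a matrix.

PROOF. `starRingEquiv : S ≃+* Sᵐᵒᵖ`, so `Sᵐᵒᵖ` is noetherian (`isNoetherianRing_of_ringEquiv`), so the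
finitely generated `Sᵐᵒᵖ`-module `m → S` is noetherian, `Z` is finitely generated; `M` has the
generators as columns; `M *ᵥ y = ∑ j, op (y j) • M.col j`. -/
def SpecNOE : Prop :=
  ∀ (S : Type) [Ring S] [StarRing S] (m : Type) [Fintype m], IsNoetherianRing S →
    ∀ Z : Submodule Sᵐᵒᵖ (m → S), ∃ (r : ℕ) (M : Matrix m (Fin r) S), Z = rng M

/-- **DES** (size 200): solving `τ f = M + s f γ` by descending induction on the degree of the column.

PROOF. `T.d = τ`, `Q.d = γ` (mapped to `A` by `φ`). Construct for every `n : ℕ` a matrix `f` with all the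
properties, with the equation only for the columns `j` with `Q.deg j > q0 - n`. `n = 0`: `f0`. Step:
for the columns `j` with `Q.deg j = q0 - n`, the column `r_j` of `M + s f γ` at `j` has entries in `V`
and is supported in the degree `Q.deg j + e + 1 < q0 + e + 2`; `τ r_j = (τ M + s (τ f) γ)_j` where
`(f γ)_j`, `(τ f γ)_j` only involve the columns `j'` of `f`, `τ f` with `Q.deg j' = Q.deg j + 1 > q0 - n`,
so `τ r_j = (τ M + s (M + s f γ) γ)_j = (τ M + s M γ)_j = 0` (`s² = 1`, `γ² = 0`). Choose `y` with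
`r_j = τ y` and entries in `V`; its component of degree `Q.deg j + e` (the other entries replaced by
`0`) also satisfies `r_j = τ y`. Replace the column `j` of `f` (all columns of degree `q0 - n` at
once) by `y`; this does not change the equations for the columns of degree `> q0 - n`, nor `r_j`.
Take `n` with `q0 - n < Q.deg j` for all `j` (`Q.I` is finite). -/
def SpecDES : Prop :=
  ∀ (S A : Type) [Ring S] [Ring A] (φ : S →+* A) (V : AddSubgroup A) (T Q : FC S) (q0 e : ℤ)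
    (s : ℤˣ) (M f0 : Matrix T.I Q.I A),
    (∀ v ∈ V, ∀ x : S, v * φ x ∈ V) →
    (∀ x : T.I → A, (∀ i, x i ∈ V) → (∀ i, x i ≠ 0 → T.deg i < q0 + e + 2) →
      T.d.map φ *ᵥ x = 0 → ∃ y : T.I → A, (∀ i, y i ∈ V) ∧ x = T.d.map φ *ᵥ y) →
    (∀ i j, M i j ∈ V) → (∀ i j, f0 i j ∈ V) →
    (∀ i j, M i j ≠ 0 → T.deg i = Q.deg j + e + 1) →
    (∀ i j, f0 i j ≠ 0 → T.deg i = Q.deg j + e) →
    T.d.map φ * M + (s : ℤ) • (M * Q.d.map φ) = 0 →
    (∀ i j, q0 < Q.deg j → (T.d.map φ * f0) i j = (M + (s : ℤ) • (f0 * Q.d.map φ)) i j) →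
    ∃ f : Matrix T.I Q.I A, (∀ i j, f i j ∈ V) ∧ (∀ i j, f i j ≠ 0 → T.deg i = Q.deg j + e) ∧
      (∀ i j, q0 < Q.deg j → f i j = f0 i j) ∧
      T.d.map φ * f = M + (s : ℤ) • (f * Q.d.map φ)

/-- The data of a resolution of a submodule `Z / B` of `H^k(C)`, mapped to `C`. -/
structure RD {S : Type} [Ring S] [StarRing S] (C : FC S) (k : ℤ) (Z : Submodule Sᵐᵒᵖ (C.I → S))
    (J : FC S) (g : Matrix C.I J.I S) : Prop where
  dk : ∀ j, J.deg j ≤ k
  gg : ∀ i j, g i j ≠ 0 → C.deg i = J.deg j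
  cg : C.d * g + g * J.d = 0
  g1 : J.ExBelow k
  g2 : ∀ y, (∀ j, y j ≠ 0 → J.deg j = k) → (∃ x, g *ᵥ y = C.d *ᵥ x) → ∃ x, y = J.d *ᵥ x
  g3 : ∀ y, (∀ j, y j ≠ 0 → J.deg j = k) → g *ᵥ y ∈ Z
  g3' : ∀ z ∈ Z, ∃ y, (∀ j, y j ≠ 0 → J.deg j = k) ∧ ∃ x, z = g *ᵥ y + C.d *ᵥ x
  g4 : J.dual.ExBelow k

/-- **LIF** (size 120, hypothesis `SpecDES`): lifting of a chain map.

PROOF. DES with `A = S`, `φ = id`, `V = ⊤`, `T = C`, `Q = J`, `e = 0`, `s = -1`, `M = 0`, `q0 = k - 2`. The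
columns of `f0` of degree `k` are those of `g0`, the columns `j` of degree `k - 1` are `y_j` with
`-(g0 *ᵥ (column j of J.d)) = C.d *ᵥ y_j` (the hypothesis, with the opposite sign; take the component of
`y_j` of degree `k - 1`), the others are `0`. The equation for the columns of degree `k`:
`C.d * g0 = 0`, and `f0 * J.d` has zero columns there (`J.deg ≤ k`). -/
def SpecLIF : Prop :=
  ∀ (S : Type) [Ring S] (C J : FC S) (k : ℤ) (g0 : Matrix C.I J.I S), C.ExBelow k →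
    (∀ j, J.deg j ≤ k) → (∀ i j, g0 i j ≠ 0 → C.deg i = k ∧ J.deg j = k) → C.d * g0 = 0 →
    (∀ x, (∀ j, x j ≠ 0 → J.deg j = k - 1) → ∃ y, g0 *ᵥ (J.d *ᵥ x) = C.d *ᵥ y) →
    ∃ g : Matrix C.I J.I S, (∀ i j, g i j ≠ 0 → C.deg i = J.deg j) ∧
      (∀ i j, J.deg j = k → g i j = g0 i j) ∧ C.d * g + g * J.d = 0

/-- **RSZ** (size 150, hypotheses `SpecNOE`, `SpecLIF`): the case `k = 0`.

PROOF. NOE: `Z = rng z`, `z : C.I × Fin r` (so the columns of `z` are cocycles of degree `0`). The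
submodule `K = {y : z *ᵥ y ∈ C.Bd 0}` of `S^r` is `rng M` (NOE). `ffr`: `J`, `q : Fin r × J.I` with
`J.Resolves (rng M) ⊤ q`. `g0 = z * q`: its columns of degree `≠ 0` vanish. Condition of LIF:
`q (J.d x) ∈ rng M = K`. `g` from LIF (`k = 0`). (g2): `g y = g0 y = z (q y)` is a coboundary, it has
degree `0`, so `q y ∈ K = rng M`, so `y ∈ im J.d` (`ker`). (g3) clear. (g3'): `z0 = z c`, `c - q y ∈ K`,
so `z c - z (q y) ∈ Bd 0`; replace `y` by its component of degree `0`. (g4): the degrees of `J.dual` are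
`≥ 0`, so `x = 0`. -/
def SpecRSZ : Prop :=
  ∀ (S : Type) [Ring S] [StarRing S], AuslanderRegular S → ∀ C : FC S, C.ExBelow 0 →
    ∀ Z : Submodule Sᵐᵒᵖ (C.I → S), C.Bd 0 ≤ Z → Z ≤ C.Cy 0 → ∃ J g, RD C 0 Z J g

/-- **TRU** (size 200): the truncation of `C^*` is a resolution `P` with `H^(k+q)(P^*) = H^q(C)`.

PROOF. `P.I = {i // - C.deg i ≤ k}`, `P.deg i = - C.deg i - k`, `P.d` the submatrix of `C.dᴴ`
(`P.d * P.d = 0`: the product over the subtype: if `(C.dᴴ) i l * (C.dᴴ) l j ≠ 0` with `i` in the subtype then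
`- C.deg l = - C.deg i - 1 ≤ k`, so the sum over all `l` is the sum over the subtype). `IsRes`: `x`
supported in degrees `< 0` extended by `0` is supported in the degrees `< k` of `C.dual`, and
`C.dᴴ x = 0` (its components have degree `≤ k`); `x = C.dᴴ y`; drop the components of `y` of
`C.dual`-degree `≥ k`. The equivalence for `P.dual`: `P.dual.deg i = C.deg i + k`, `P.dual.d` is the
submatrix of `C.d`. For `x` supported in degrees `≥ q ≥ -k` all the entries of `x` and of `C.d x` outside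
of the subtype `{i // -k ≤ C.deg i}` vanish, so sums over `C.I` are sums over `P.I`; if `x = C.d y` with
`q ≥ -k + 1` then `y` may be replaced by its components of degrees `≥ q - 1 ≥ -k`; conversely if
`x ∘ ρ = P.dual.d y'` then `x = C.d y`, `y` the extension of `y'` by zero (the entries of `C.d y` at the
`i` with `C.deg i < -k` vanish). -/
def SpecTRU : Prop :=
  ∀ (S : Type) [Ring S] [StarRing S] (C : FC S) (k : ℤ), C.dual.ExBelow k →
    ∃ (P : FC S) (ρ : P.I → C.I), P.IsRes ∧ Function.Injective ρ ∧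
      (∀ i, P.deg i = - C.deg (ρ i) - k) ∧ (∀ i, - C.deg i ≤ k → ∃ j, ρ j = i) ∧
      (P.dual.d = C.d.submatrix ρ ρ) ∧
      -- cocycles and coboundaries
      (∀ q : ℤ, -k ≤ q → ∀ x : C.I → S, (∀ i, x i ≠ 0 → q ≤ C.deg i) →
        (C.d *ᵥ x = 0 ↔ P.dual.d *ᵥ (x ∘ ρ) = 0)) ∧
      (∀ q : ℤ, -k + 1 ≤ q → ∀ x : C.I → S, (∀ i, x i ≠ 0 → q ≤ C.deg i) →
        ((∃ y, x = C.d *ᵥ y) ↔ ∃ y, x ∘ ρ = P.dual.d *ᵥ y))

/-- **RSP** (size 250, hypotheses `SpecLIF`, `SpecTRU`): the case `k ≥ 1`.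

PROOF. `P`, `ρ` from TRU. `c = 2 k`. `Z' = {x' : P.I → S | x' is the restriction `x ∘ ρ` of some `x ∈ Z`}`
(a submodule; as `Z` is in degree `k ≥ -k`, `x` is the extension by zero of `x ∘ ρ`). By TRU
(`q = k`): `P.dual.Bd c ≤ Z' ≤ P.dual.Cy c` (degree `P.dual.deg i = C.deg (ρ i) + k = 2 k`).
`auslander`: `Q`, `q`, `Q.Resolves (P.dual.Bd c) Z' q`, `Q.dual.ExBelow (2 k)`. `J` is `Q` with
`J.deg j = Q.deg j + k`. `g0 i j = q l j` if `i = ρ l`, `0` otherwise (rows of degree `k`: the columns of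
`q` are in `Z'`). LIF: `C.d g0 = 0` (the columns of `g0` are in `Z`), `g0 (J.d x)` is in `Bd` by TRU and
`im`. `g` from LIF. (g1), (g4): shift of degrees. (g2), (g3), (g3') from `ker`, `mem`, `onto` and TRU,
as in RSZ. -/
def SpecRSP : Prop :=
  ∀ (S : Type) [Ring S] [StarRing S], AuslanderRegular S → ∀ (C : FC S) (k : ℕ), 1 ≤ k →
    C.ExBelow k → C.dual.ExBelow k → ∀ Z : Submodule Sᵐᵒᵖ (C.I → S), C.Bd k ≤ Z → Z ≤ C.Cy k →
    ∃ J g, RD C k Z J g

/-- **ACY** (size 120, hypothesis `SpecTRU`): the end of the process.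

PROOF. `d` from `injdim`, `k = d + 1`. `P`, `ρ` from TRU. Let `C.d x = 0`, `x = x' + x''`, `x'` the part of
`x` in the degrees `< k`, `x''` the part in the degrees `≥ k`: both are cocycles (homogeneity). `x'` is a
coboundary by hypothesis. `x'' ∘ ρ` is a cocycle of `P.dual` (TRU, `q = k`) in degrees
`C.deg + k ≥ 2 k > d`, so by `injdim` a coboundary of `P.dual`, and by TRU (`k ≥ -k + 1`) `x''` is a
coboundary. -/
def SpecACY : Prop :=
  ∀ (S : Type) [Ring S] [StarRing S], AuslanderRegular S → ∃ k : ℕ, ∀ C : FC S, C.ExBelow k →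
    C.dual.ExBelow k → ∀ x : C.I → S, C.d *ᵥ x = 0 → ∃ y, x = C.d *ᵥ y

/-- **CTR** (size 120, hypothesis `SpecDES`): contraction of an exact complex.

PROOF. DES with `A = S`, `φ = id`, `V = ⊤`, `T = Q = C`, `M = 1`, `f0 = 0`, `s = -1`, `e = -1`, `q0` larger than
all degrees: `C.d * h' = 1 - h' * C.d`. `h = h' * C.d * h'`: `C.d * h + h * C.d = 1` and `h * h = 0`:
`e = d h'`, `1 - e = h' d` are idempotent, `d h = e e = e`, `h d = (1 - e)(1 - e) = 1 - e`, and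
`d h' h' d = e (1 - e) = 0`. -/
def SpecCTR : Prop :=
  ∀ (S : Type) [Ring S] (C : FC S), (∀ x : C.I → S, C.d *ᵥ x = 0 → ∃ y, x = C.d *ᵥ y) →
    ∃ h : Matrix C.I C.I S, (∀ i j, h i j ≠ 0 → C.deg i = C.deg j - 1) ∧
      C.d * h + h * C.d = 1 ∧ h * h = 0

/-- **STF** (size 250): the cocycles of degree `0` of a contractible complex are stably free.

PROOF. `D = d + h`, `D² = 1`. `e0` = the submatrix of `d h` of degree `0` (`d h` is homogeneous of degree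
`0`). First part: `Q = {deg < 0, odd}`, `P = {deg < 0, even}`; `α` = the submatrix of `D` with rows
`n ⊕ P`, columns `Q`; `β` = the submatrix of `D` with rows `Q`, columns `n ⊕ P`. `β α = 1`: for `x` of odd
degree `q < 0`, `D x = d x + h x` lives in the degrees `q + 1 ≤ 0`, `q - 1`, so in `n ⊕ P`, and
`D D x = x` has degree `q`. `α β`: for `y` of degree `q ≤ -2` even the same. For `y` of degree `0` the
restriction to `Q` of `D y = d y + h y` is `h y` (degree `-1`), and `D h y = d h y + h h y = e0 y`.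
(So as matrices: `(α β)` on `n ⊕ P` is `fromBlocks e0 0 0 1`.) Second part: the same for `deg > 0`, where
for `y` of degree `0` the restriction of `D y` is `d y` and `D d y = h d y = (1 - e0) y`. -/
def SpecSTF : Prop :=
  ∀ (S : Type) [Ring S] (C : FC S) (h : Matrix C.I C.I S),
    (∀ i j, h i j ≠ 0 → C.deg i = C.deg j - 1) → C.d * h + h * C.d = 1 → h * h = 0 →
    (∃ (P Q : Type) (_ : Fintype P) (_ : DecidableEq P) (_ : Fintype Q) (_ : DecidableEq Q)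
      (α : Matrix ({i // C.deg i = 0} ⊕ P) Q S) (β : Matrix Q ({i // C.deg i = 0} ⊕ P) S),
      α * β = fromBlocks ((C.d * h).submatrix Subtype.val Subtype.val) 0 0 1 ∧ β * α = 1) ∧
    (∃ (P Q : Type) (_ : Fintype P) (_ : DecidableEq P) (_ : Fintype Q) (_ : DecidableEq Q)
      (α : Matrix ({i // C.deg i = 0} ⊕ P) Q S) (β : Matrix Q ({i // C.deg i = 0} ⊕ P) S),
      α * β = fromBlocks ((h * C.d).submatrix Subtype.val Subtype.val) 0 0 1 ∧ β * α = 1)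

/-- **LAG** (size 300): a form with a stably free Lagrangian is stably hyperbolic.

PROOF. `Φ = Ψ + ε Ψ^*`. `Ψ' = Ψ ⊕ hyp P` on `N ⊕ (P ⊕ P)`, `Φ'` its polarization, invertible (`Φ` is, and
`(0,1;ε,0)` is). `i : (N ⊕ (P ⊕ P)) × Q`: the rows `N` and the first `P` are those of `α`, the rows of the
second `P` are `0`. `α = α β α = fromBlocks E 0 0 1 * α`, so `E α_N = α_N`, so
`i^* Ψ' i = α_N^* E^* Ψ E α_N` is even (`= Z - ε Z^*`), `i^* Φ' i = 0`. `j = (β_N, β_P, 0)`: `j i = β α = 1`.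
`k = Φ'⁻¹ j^*`: `i^* Φ' k = (j i)^* = 1`. `k' = k - i x`, `x^* = k^* Ψ' k`: still `i^* Φ' k' = 1`, and
`k'^* Ψ' k' = k^* Ψ' k - x^* i^* Ψ' k - k^* Ψ' i x + x^* (even) x ≡ k^* Ψ' k - x^* (i^* Ψ' k + ε i^* Ψ'^* k) =
k^* Ψ' k - x^* = 0` modulo even matrices (`k^* Ψ' i x ≡ ε (k^* Ψ' i x)^*`). `u = (i, k')`, columns `Q ⊕ Q`:
`u^* Ψ' u ≡ (0, 1; 0, 0)` modulo even matrices (`(0, b; c, 0) ≡ (0, b + ε c^*; 0, 0)`). `u` is invertible:
`v = (0,1;ε,0)⁻¹ u^* Φ'` is a left inverse; `u` is onto: for `x`, `x' = x - k' (i^* Φ' x)` satisfies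
`i^* Φ' x' = 0`; write `x' = (x_N; x1; x2)`: `i^* Φ' x' = α^* (Φ x_N; x2)`, apply `β^*`:
`E^* Φ x_N = 0`, `x2 = 0`, so `x_N = E x_N`, `(x_N; x1) = α β (x_N; x1)`, `x' = i (β (x_N; x1))`. So `u v = 1`.
Reindex `P`, `Q` by `Fin`. (`Isometric` is `Φ = u^* Ψ u + Z - ε Z^*`.) -/
def SpecLAG : Prop :=
  ∀ (A : Type) [Ring A] [StarRing A] (ε : ℤˣ) (N P Q : Type) [Fintype N] [DecidableEq N]
    [Fintype P] [DecidableEq P] [Fintype Q] [DecidableEq Q] (Ψ Φi E : Matrix N N A)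
    (α : Matrix (N ⊕ P) Q A) (β : Matrix Q (N ⊕ P) A),
    (Ψ + (ε : ℤ) • Ψᴴ) * Φi = 1 → Φi * (Ψ + (ε : ℤ) • Ψᴴ) = 1 → E * E = E →
    (∃ Z, Eᴴ * Ψ * E = Z - (ε : ℤ) • Zᴴ) →
    (∀ x : N → A, Eᴴ *ᵥ ((Ψ + (ε : ℤ) • Ψᴴ) *ᵥ x) = 0 → x = E *ᵥ x) →
    α * β = fromBlocks E 0 0 1 → β * α = 1 → StablyHyperbolic ε Ψ

/-! ### Group rings -/

/-- The vector `z` over `R[H]` as a vector over `R[G]`. -/
noncomputable def exv {R G : Type} [Ring R] [Group G] {H : Subgroup G} {n : Type}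
    (z : n → MonoidAlgebra R H) : n → MonoidAlgebra R G :=
  fun i => MonoidAlgebra.mapDomainRingHom R H.subtype (z i)

/-- All the entries of the vector `x` are supported in `X`. -/
def SuppV {R G : Type} [Ring R] {n : Type} (X : Set G) (x : n → MonoidAlgebra R G) : Prop :=
  ∀ i g, (x i).coeff g ≠ 0 → g ∈ X

/-- `T ⊗ R[G]` is exact in degrees `< k`, with supports in `X`. -/
def ExA {R G : Type} [Ring R] [Group G] {H : Subgroup G} (T : FC (MonoidAlgebra R H)) (k : ℤ)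
    (X : Set G) : Prop :=
  ∀ x : T.I → MonoidAlgebra R G, SuppV X x → (∀ i, x i ≠ 0 → T.deg i < k) →
    ext T.d *ᵥ x = 0 → ∃ y, SuppV X y ∧ x = ext T.d *ᵥ y

/-- **FLT** (size 120, may import `UV/RES`): flatness.

PROOF. Reindex `T.I` by `Fin m`; `specRES` (LF) with `p = T.d`, `M` the matrix with the one column `x`:
`lres H t` is left linear over `S`, so `T.d *ᵥ lres H t x = 0`, the degrees of `lres H t x` are `< k`, so
`lres H t x = T.d *ᵥ y_t`. -/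
def SpecFLT : Prop :=
  ∀ (R G : Type) [Ring R] [Group G] (H : Subgroup G) (X : Set G) (T : FC (MonoidAlgebra R H))
    (k : ℤ), (∀ h ∈ H, ∀ x ∈ X, h * x ∈ X) → T.ExBelow k → ExA T k X

/-- A nilpotent form on the complex `C` (paper: STATES). -/
structure NF {R G : Type} [Ring R] [StarRing R] [Group G] (H : Subgroup G) (X1 X2 X3 : Set G)
    (ε : ℤˣ) (C : FC (MonoidAlgebra R H)) (a μ b : Matrix C.I C.I (MonoidAlgebra R G)) :
    Prop where
  sa : SuppIn X1 a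
  sm : SuppIn X3 μ
  sb : SuppIn X2 b
  ga : ∀ i j, a i j ≠ 0 → C.deg i + C.deg j = 0
  gm : ∀ i j, μ i j ≠ 0 → C.deg i = C.deg j
  gb : ∀ i j, b i j ≠ 0 → C.deg i + C.deg j = 0
  ha : a = (ε : ℤ) • aᴴ
  hb : b = (ε : ℤ) • bᴴ
  ca : a * ext C.d = (ext C.d)ᴴ * a
  cm : μ * ext C.d = ext C.d * μ
  cb : b * (ext C.d)ᴴ = ext C.d * b
  nil : IsNilpotent (nu ε a μ b)

/-- The forms of degree `0` are stably hyperbolic. -/
def Good {R G : Type} [Ring R] [StarRing R] [Group G] {H : Subgroup G} (X1 X2 : Set G)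
    (ε : ℤˣ) (C : FC (MonoidAlgebra R H)) (a μ b : Matrix C.I C.I (MonoidAlgebra R G)) : Prop :=
  ∀ ψ χ : Matrix {i // C.deg i = 0} {i // C.deg i = 0} (MonoidAlgebra R G),
    SuppIn X1 ψ → SuppIn X2 χ →
    ψ + (ε : ℤ) • ψᴴ = a.submatrix Subtype.val Subtype.val →
    χ + (ε : ℤ) • χᴴ = b.submatrix Subtype.val Subtype.val →
    StablyHyperbolic ε (UF ψ (μ.submatrix Subtype.val Subtype.val) χ)

/-- The kernel of `(a, μ)` on `H^k(C)`, as a submodule of the cocycles. -/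
def Ker {R G : Type} [Ring R] [StarRing R] [Group G] {H : Subgroup G}
    (C : FC (MonoidAlgebra R H)) (a μ : Matrix C.I C.I (MonoidAlgebra R G)) (k : ℤ) :
    Submodule (MonoidAlgebra R H)ᵐᵒᵖ (C.I → MonoidAlgebra R H) where
  carrier := {x | x ∈ C.Cy k ∧ (∃ u, a *ᵥ exv x = (ext C.d)ᴴ *ᵥ u) ∧
    ∃ u, μ *ᵥ exv x = ext C.d *ᵥ u}
  zero_mem' := by
    have h0 : exv (G := G) (0 : C.I → MonoidAlgebra R H) = 0 := by
      funext i
      exact map_zero (MonoidAlgebra.mapDomainRingHom R H.subtype)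
    exact ⟨Submodule.zero_mem _, ⟨0, by rw [h0, mulVec_zero, mulVec_zero]⟩,
      ⟨0, by rw [h0, mulVec_zero, mulVec_zero]⟩⟩
  add_mem' := by
    rintro x y ⟨hx, ⟨u, hu⟩, ⟨v, hv⟩⟩ ⟨hy, ⟨u', hu'⟩, ⟨v', hv'⟩⟩
    have h0 : exv (G := G) (x + y) = exv x + exv y := by
      funext i
      exact map_add (MonoidAlgebra.mapDomainRingHom R H.subtype) (x i) (y i)
    exact ⟨Submodule.add_mem _ hx hy, ⟨u + u', by rw [h0, mulVec_add, mulVec_add, hu, hu']⟩,
      ⟨v + v', by rw [h0, mulVec_add, mulVec_add, hv, hv']⟩⟩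
  smul_mem' := by
    rintro s x ⟨hx, ⟨u, hu⟩, ⟨v, hv⟩⟩
    set c : (MonoidAlgebra R G)ᵐᵒᵖ :=
      MulOpposite.op (MonoidAlgebra.mapDomainRingHom R H.subtype s.unop) with hc
    have h0 : exv (G := G) (s • x) = c • exv x := by
      funext i
      change MonoidAlgebra.mapDomainRingHom R H.subtype (x i * s.unop) =
        MonoidAlgebra.mapDomainRingHom R H.subtype (x i) *
          MonoidAlgebra.mapDomainRingHom R H.subtype s.unop
      rw [map_mul]
    exact ⟨Submodule.smul_mem _ _ hx, ⟨c • u, by rw [h0, mulVec_smul, mulVec_smul, hu]⟩,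
      ⟨c • v, by rw [h0, mulVec_smul, mulVec_smul, hv]⟩⟩

/-- **SYM** (size 300, hypotheses `SpecDES`; may import `UV/TAT`): symmetric solutions.

PROOF. `γ = ext J.d`. Unsymmetric solution: DES with `T = J.dual`, `Q = J`, `φ = emb`, `V` = elements
supported in `X`, `M = w`, `f0 = 0`, `e = -s0 - 1`, `q0 = k` (no column has degree `> k`); exactness of
`J.dual` over `R[G]` below `q0 + e + 2 = k - s0 + 1 ≤ k`; get `t0` of total degree `s0 + 1` with
`γ^* t0 = w + s t0 γ` (`(ext J.d)ᴴ = ext (J.dᴴ)`). Descending induction on `s0` (for `s0 > 2 k` all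
entries of `w` vanish, `t = 0`; formally: induction on `n : ℕ` with `2 k - s0 < n`, for all `s`, `r`,
`w`). `u = t0 - r t0^*`: `γ^* t0^* - s t0^* γ = -s (γ^* t0 - s t0 γ)^* = -s w^* = r w`, so
`γ^* u - s u γ = w - r (r w) = 0`, and `u^* = -r u`, total degree `s0 + 1`. Induction hypothesis for
`s0 + 1`, sign `-s` (`γ^* u + (-s) u γ = 0`), `r' = -s r` (`u^* = -((-s) r') u = -r u`, because
`(-s)(-s r) = r`): `x` of total degree `s0 + 2`, `x = r' x^*`, `γ^* x + s x γ = u`. TAT (reindex; restrict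
to the entries of total degree `s0 + 2`): `x = y + r' y^*`, `supp y ⊆ X`. `t = t0 - (γ^* y + s y γ)`:
`γ^* t - s t γ = w - (γ^* γ^* y + s γ^* y γ - s γ^* y γ - y γ γ) = w`; and
`t - r t^* = u - (γ^* y + s y γ) + r (γ^* y + s y γ)^* = u - (γ^* y + s y γ) + r s (γ^* y^* + s y^* γ)
= u - (γ^* (y + r' y^*) + s (y + r' y^*) γ) = 0` as `(γ^* y + s y γ)^* = y^* γ + s γ^* y^* =
s (γ^* y^* + s y^* γ)` and `r s = -r'`. -/
def SpecSYM : Prop :=
  ∀ (R G : Type) [Ring R] [StarRing R] [Group G] (H : Subgroup G) (X : Set G)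
    (J : FC (MonoidAlgebra R H)) (k s0 : ℤ) (s r : ℤˣ) (w : Matrix J.I J.I (MonoidAlgebra R G)),
    (∀ h ∈ H, ∀ x ∈ X, x * h ∈ X) → (∀ h ∈ H, ∀ x ∈ X, h * x ∈ X) → (∀ x ∈ X, x⁻¹ ∈ X) →
    (∀ x ∈ X, x⁻¹ ≠ x) → (∀ j, J.deg j ≤ k) → ExA J.dual k X → 1 ≤ s0 → SuppIn X w →
    (∀ i j, w i j ≠ 0 → J.deg i + J.deg j = s0) →
    (ext J.d)ᴴ * w + (s : ℤ) • (w * ext J.d) = 0 → wᴴ = -(((s * r : ℤˣ) : ℤ) • w) →
    ∃ t : Matrix J.I J.I (MonoidAlgebra R G), SuppIn X t ∧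
      (∀ i j, t i j ≠ 0 → J.deg i + J.deg j = s0 + 1) ∧ t = (r : ℤ) • tᴴ ∧
      (ext J.d)ᴴ * t - (s : ℤ) • (t * ext J.d) = w

/-- The data of the extension of the forms to the cone. -/
structure EX {R G : Type} [Ring R] [StarRing R] [Group G] {H : Subgroup G} (X1 X3 : Set G)
    (ε : ℤˣ) (C J : FC (MonoidAlgebra R H)) (g : Matrix C.I J.I (MonoidAlgebra R H))
    (a μ : Matrix C.I C.I (MonoidAlgebra R G)) (f f' : Matrix C.I J.I (MonoidAlgebra R G))
    (t : Matrix J.I J.I (MonoidAlgebra R G)) : Prop where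
  sf : SuppIn X1 f
  sf' : SuppIn X3 f'
  st : SuppIn X1 t
  gf : ∀ i j, f i j ≠ 0 → C.deg i + J.deg j = 1
  gf' : ∀ i j, f' i j ≠ 0 → C.deg i = J.deg j - 1
  gt : ∀ i j, t i j ≠ 0 → J.deg i + J.deg j = 2
  ht : t = (ε : ℤ) • tᴴ
  cf : a * ext g + f * ext J.d = (ext C.d)ᴴ * f
  cf' : μ * ext g + f' * ext J.d = ext C.d * f'
  ct : (ext J.d)ᴴ * t - t * ext J.d = (ε : ℤ) • (fᴴ * ext g) - (ext g)ᴴ * f

/-- **EXF** (size 300, hypotheses `SpecDES`, `SpecFLT`, `SpecSYM`): extension of the forms.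

PROOF (paper: E1, E2, E3). `γ = ext J.d`, `δ = ext C.d`. (E1) DES with `T = C.dual`, `Q = J`, `V` =
elements supported in `X1`, `M = a g`, `s = 1`, `e = -1`, `q0 = k - 1`: `δ^* a g + a g γ = a (δ g + g γ) = 0`.
The columns `j` of `f0` of degree `k`: the column `j` of `g` is in `Ker C a μ k` (`g3` for the unit
vector), so `a g_j = δ^* u`; the part of `u` supported in `X1` (write `u` entrywise as sum of the parts
supported in `X1` and outside; `δ^*` preserves both, as `X1` is left `H`-invariant) and of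
`C.dual`-degree `k - 1` does it; other columns `0`. Exactness below `q0 + e + 2 = k`: FLT.
(E2) the same with `T = C`, `M = μ g`, `V`: `X3`. (E3) `w = ε f^* g - g^* f`: `w^* = -ε w`, total degree `1`;
`γ^* w + w γ = ε (f γ)^* ... = 0`: from (E1) `f γ = δ^* f - a g`, `γ^* f^* = f^* δ - g^* a^*`, and
`g γ = -δ g`, `γ^* g^* = -g^* δ^*`:
`γ^* w + w γ = ε f^* δ g - ε g^* a^* g + g^* δ^* f - ε f^* δ g - g^* δ^* f + g^* a g = 0` (`ε a^* = a`).
SYM with `s0 = 1`, `s = 1`, `r = ε`, FLT for `J.dual`. -/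
def SpecEXF : Prop :=
  ∀ (R G : Type) [Ring R] [StarRing R] [Group G] (H : Subgroup G) (X1 X2 X3 : Set G) (ε : ℤˣ)
    (C J : FC (MonoidAlgebra R H)) (a μ b : Matrix C.I C.I (MonoidAlgebra R G)) (k : ℤ)
    (g : Matrix C.I J.I (MonoidAlgebra R H)),
    (∀ h ∈ H, ∀ x ∈ X1, x * h ∈ X1) → (∀ h ∈ H, ∀ x ∈ X1, h * x ∈ X1) → (∀ x ∈ X1, x⁻¹ ∈ X1) →
    (∀ x ∈ X1, x⁻¹ ≠ x) → (∀ h ∈ H, ∀ x ∈ X3, x * h ∈ X3) → (∀ h ∈ H, ∀ x ∈ X3, h * x ∈ X3) →
    NF H X1 X2 X3 ε C a μ b → C.ExBelow k → C.dual.ExBelow k → RD C k (Ker C a μ k) J g →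
    ∃ f f' t, EX X1 X3 ε C J g a μ f f' t

/-- The cone of `g : J → C` (with `C.d * g + g * J.d = 0`). -/
def cone {S : Type} [Ring S] (C J : FC S) (g : Matrix C.I J.I S)
    (hg : ∀ i j, g i j ≠ 0 → C.deg i = J.deg j) (h : C.d * g + g * J.d = 0) : FC S where
  I := C.I ⊕ J.I
  deg := Sum.elim C.deg (fun j => J.deg j - 1)
  d := fromBlocks C.d g 0 J.d
  hd := by
    rintro (i | i) (j | j) hij
    · simpa using C.hd i j (by simpa using hij)
    · have := hg i j (by simpa using hij)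
      simp only [Sum.elim_inl, Sum.elim_inr]
      omega
    · simp at hij
    · have := J.hd i j (by simpa using hij)
      simp only [Sum.elim_inr]
      omega
  dd := by
    rw [fromBlocks_multiply, C.dd, J.dd, h]
    simp

/-- The matrices of the new form. -/
noncomputable def newa {R G : Type} [Ring R] [StarRing R] [Group G] {I J : Type} (ε : ℤˣ)
    (a : Matrix I I (MonoidAlgebra R G)) (f : Matrix I J (MonoidAlgebra R G))
    (t : Matrix J J (MonoidAlgebra R G)) : Matrix (I ⊕ J) (I ⊕ J) (MonoidAlgebra R G) :=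
  fromBlocks a f ((ε : ℤ) • fᴴ) t

/-- **CNE** (size 200): the cone is again exact below `k`, and so is its dual.

PROOF (paper: LEVEL k). (1) `(x; y)`: `C.d x + g y = 0`, `J.d y = 0`, degrees `< k`, so `J.deg ≤ k` on `y`.
The component of `y` of degree `k` is a cocycle `y_k` of `J` and `g y_k = -C.d x_(k-1)`: by `g2`
`y_k = J.d z`; the other components by `g1`. `y = J.d z`. `(x; y) - d'(0; z) = (x - g z; 0)`,
`C.d (x - g z) = C.d x + g J.d z = 0` (drop the components of `z` so that the degrees are right: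
`J.deg < k` on `z`, then `g z` has degree `< k`): `x - g z = C.d w`. (2) dual: `d'^* = (C.d^*, 0; g^*, J.d^*)`;
`C.d^* x = 0`, degree `< k`: `x = C.d^* x'`; `(x; y) - d'^*(x'; 0) = (0; y')`, `J.d^* y' = 0`, and
`-(J.deg j - 1) < k` on `y`, so (after dropping components of `x'`) `y'` has `J.dual`-degree `< k - 1`:
`g4`. (3) the same in degree `k` over `R[G]`, with `ExA J.dual k univ` (FLT): `y'` has
`J.dual`-degree `k - 1 < k`. -/
def SpecCNE : Prop :=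
  (∀ (S : Type) [Ring S] [StarRing S] (C J : FC S) (k : ℤ) (Z : Submodule Sᵐᵒᵖ (C.I → S))
    (g : Matrix C.I J.I S) (h : RD C k Z J g), C.ExBelow k → C.dual.ExBelow k →
    (cone C J g h.gg h.cg).ExBelow k ∧ (cone C J g h.gg h.cg).dual.ExBelow k) ∧
  (∀ (R G : Type) [Ring R] [StarRing R] [Group G] (H : Subgroup G)
    (C J : FC (MonoidAlgebra R H)) (k : ℤ)
    (Z : Submodule (MonoidAlgebra R H)ᵐᵒᵖ (C.I → MonoidAlgebra R H))
    (g : Matrix C.I J.I (MonoidAlgebra R H)), RD C k Z J g → ExA J.dual k Set.univ →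
    ∀ (x : C.I → MonoidAlgebra R G) (y : J.I → MonoidAlgebra R G),
      (∀ i, x i ≠ 0 → - C.deg i = k) → (∀ j, y j ≠ 0 → 1 - J.deg j = k) →
      (ext g)ᴴ *ᵥ x + (ext J.d)ᴴ *ᵥ y = 0 → (∃ u, x = (ext C.d)ᴴ *ᵥ u) →
      ∃ u v, x = (ext C.d)ᴴ *ᵥ u ∧ y = (ext g)ᴴ *ᵥ u + (ext J.d)ᴴ *ᵥ v)

/-- **CNF** (size 250; may import `UV/NIL`): the new form on the cone.

PROOF (paper: NEW STATE). Block computations: `a' d' = d'^* a'`: `(a δ, a g + f γ; ε f^* δ, ε f^* g + t γ)`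
and `(δ^* a, δ^* f; g^* a + ε γ^* f^*, g^* f + γ^* t)`: `cf`, its star times `ε` (`g^* a + ε γ^* f^* = ε f^* δ`,
as `a = ε a^*`), and `ct`. `(ext (fromBlocks ..) = fromBlocks (ext ..) ..` by `Matrix.fromBlocks_map`;
`(ext M)ᴴ = ext Mᴴ`.) Nilpotency: `p = (1; 0)` (rows `C.I ⊕ J.I`, columns `C.I`), `m' = (μ, f')`,
`τ = fromBlocks m' (ε b) (p^* a') μ^*`, `P = diag(p, 1)`, `Q = diag(1, p^*)`, `N = P τ`: `nu = τ P`,
`Q nu' = N Q`, `nu' = ρ Q` with `ρ = fromBlocks (p m') (ε p b) a' m'^*`; so if `nu^l = 0`: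
`N^(l+1) = P (τ P)^l τ = 0`, `Q nu'^(l+1) = N^(l+1) Q = 0`, `nu'^(l+2) = ρ Q nu'^(l+1) = 0`. -/
def SpecCNF : Prop :=
  ∀ (R G : Type) [Ring R] [StarRing R] [Group G] (H : Subgroup G) (X1 X2 X3 : Set G) (ε : ℤˣ)
    (C J : FC (MonoidAlgebra R H)) (a μ b : Matrix C.I C.I (MonoidAlgebra R G)) (k : ℤ)
    (Z : Submodule (MonoidAlgebra R H)ᵐᵒᵖ (C.I → MonoidAlgebra R H))
    (g : Matrix C.I J.I (MonoidAlgebra R H)) (f f' : Matrix C.I J.I (MonoidAlgebra R G))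
    (t : Matrix J.I J.I (MonoidAlgebra R G)) (h : RD C k Z J g), (∀ x ∈ X1, x⁻¹ ∈ X1) →
    NF H X1 X2 X3 ε C a μ b → EX X1 X3 ε C J g a μ f f' t →
    NF H X1 X2 X3 ε (cone C J g h.gg h.cg) (newa ε a f t) (fromBlocks μ f' 0 0)
      (fromBlocks b 0 0 0)

/-- **GDS** (size 300; may import `UV/EMV`, `UV/TAT`, `UV/SWP`): a surgery does not change the class.

PROOF. Let `ψ`, `χ` be given for `C`, `n = {i // C.deg i = 0}`, `n' = {i // cone.deg i = 0}` =
`n ⊕ {j // J.deg j - 1 = 0}` (an equivalence of types). TAT for the restriction of `a'` to `n'`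
(`a' = ε a'^*`, supported in `X1`): `ψ'` with `ψ' + ε ψ'^* = a'|`, supported in `X1`. `χ' = χ ⊕ 0`. By
hypothesis `UF ψ' μ'| χ'` is stably hyperbolic. EMV (reindex by `Fin`) with `p = (1; 0)`,
`m' = (μ|, f'|)`: `p m' = μ'|`, `p χ p^* = χ'`, `m' p = μ|`, `p^* ψ' p = ψ'_11`. So `UF ψ'_11 μ| χ` is
stably hyperbolic. `c0 = ψ - ψ'_11` satisfies `c0 + ε c0^* = 0`: TAT with `δ = -ε`: `c0 = c - ε c^*`: SWP.
One needs: `StablyHyperbolic ε Ψ → StablyHyperbolic ε (Ψ.submatrix e e)` for an equivalence `e`. -/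
def SpecGDS : Prop :=
  ∀ (R G : Type) [Ring R] [StarRing R] [Group G] (H : Subgroup G) (X1 X2 X3 : Set G) (ε : ℤˣ)
    (C J : FC (MonoidAlgebra R H)) (a μ b : Matrix C.I C.I (MonoidAlgebra R G)) (k : ℤ)
    (Z : Submodule (MonoidAlgebra R H)ᵐᵒᵖ (C.I → MonoidAlgebra R H))
    (g : Matrix C.I J.I (MonoidAlgebra R H)) (f f' : Matrix C.I J.I (MonoidAlgebra R G))
    (t : Matrix J.I J.I (MonoidAlgebra R G)) (h : RD C k Z J g), (∀ x ∈ X1, x⁻¹ ∈ X1) →
    (∀ x ∈ X1, x⁻¹ ≠ x) →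
    NF H X1 X2 X3 ε C a μ b → EX X1 X3 ε C J g a μ f f' t →
    Good X1 X2 ε (cone C J g h.gg h.cg) (newa ε a f t) (fromBlocks μ f' 0 0)
      (fromBlocks b 0 0 0) →
    Good X1 X2 ε C a μ b

/-- The first component of `ν^l (x; y)` is a coboundary, for all cocycles `x` of `C` and `y` of `C^*`
of degree `k`. -/
def Row1 {R G : Type} [Ring R] [StarRing R] [Group G] {H : Subgroup G} (ε : ℤˣ)
    (C : FC (MonoidAlgebra R H)) (a μ b : Matrix C.I C.I (MonoidAlgebra R G)) (k : ℤ) (l : ℕ) :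
    Prop :=
  ∀ x ∈ C.Cy k, ∀ y ∈ C.dual.Cy k, ∃ u : C.I → MonoidAlgebra R G,
    ∀ i, ((nu ε a μ b) ^ l *ᵥ Sum.elim (exv x) (exv y)) (Sum.inl i) = (ext C.d *ᵥ u) i

/-- The same for the second component. -/
def Row2 {R G : Type} [Ring R] [StarRing R] [Group G] {H : Subgroup G} (ε : ℤˣ)
    (C : FC (MonoidAlgebra R H)) (a μ b : Matrix C.I C.I (MonoidAlgebra R G)) (k : ℤ) (l : ℕ) :
    Prop :=
  ∀ x ∈ C.Cy k, ∀ y ∈ C.dual.Cy k, ∃ u : C.I → MonoidAlgebra R G,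
    ∀ i, ((nu ε a μ b) ^ l *ᵥ Sum.elim (exv x) (exv y)) (Sum.inr i) = ((ext C.d)ᴴ *ᵥ u) i

/-- **PRG** (size 300; may import `UV/RES`): progress. If `ν (x1; y1)` is a coboundary then `x1` is
in `Ker · R[G]` modulo coboundaries.

PROOF (paper: NIL LENGTH, Row1'). For a vector `x` over `R[G]` and `t ∈ G` let `x_t = lres H t x` (over
`S`): `x` is the finite sum of the `exv x_t · t` over a set of representatives `t` of right cosets `H t`,
and `x ∈ δ A^n` iff `x_t ∈ δ S^n` for all `t` (`lres` is left linear; conversely sum up). So for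
`x`, `y` with supports in disjoint left `H`-invariant sets, `x + y ∈ δ A^n` implies `x, y ∈ δ A^n` (same
for `δ^*`). `μ x1 + ε b y1 ∈ δ A`: supports in `X3 Yp`, `X2 Ym`: left `H`-invariant (`X3l`, `X2l`) and
disjoint (`d23`): `μ x1 ∈ δ A`. `a x1 + μ^* y1 ∈ δ^* A`: `X1 Yp`, `(Xinv X3) Ym`, `d13`: `a x1 ∈ δ^* A`.
`x1 = ∑_t exv(x_t) t`, `t ∈ Yp` if `x_t ≠ 0` (`Yp` is left `H`-invariant), `δ x_t = 0`, degree `k`.
`a x1 = ∑_t (a exv(x_t)) t`, the summands have their supports in `X1 t`, pairwise disjoint: if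
`x t = x' t'` with `x, x' ∈ X1` then `x⁻¹ x' = t t'⁻¹ ∈ H` by `u1` (`Disj`), so `H t = H t'`. These sets
are left `H`-invariant, so `(a exv(x_t)) t ∈ δ^* A`, so `a exv(x_t) ∈ δ^* A`. Same for `μ` with `u3`. So
`x_t ∈ Ker C a μ k` for all `t`. -/
def SpecPRG : Prop :=
  ∀ (R G : Type) [Ring R] [StarRing R] [Group G] (H : Subgroup G) (X1 X2 X3 Yp Ym : Set G)
    (_ : PingPong H X1 X2 X3 Yp Ym) (ε : ℤˣ) (C : FC (MonoidAlgebra R H))
    (a μ b : Matrix C.I C.I (MonoidAlgebra R G)) (k : ℤ) (x1 y1 : C.I → MonoidAlgebra R G),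
    NF H X1 X2 X3 ε C a μ b → SuppV Yp x1 → SuppV Ym y1 → (∀ i, x1 i ≠ 0 → C.deg i = k) →
    ext C.d *ᵥ x1 = 0 →
    (∃ u, μ *ᵥ x1 + (ε : ℤ) • (b *ᵥ y1) = ext C.d *ᵥ u) →
    (∃ u, a *ᵥ x1 + μᴴ *ᵥ y1 = (ext C.d)ᴴ *ᵥ u) →
    ∀ t : G, (fun i => lres H t (x1 i)) ∈ Ker C a μ k

/-- **NLK** (size 300, hypotheses `SpecFLT`, `SpecCNE`, `SpecPRG`): the nil length of `H^k`.

PROOF (paper: NIL LENGTH). A cocycle of the cone of degree `k` is `(x; 0)`, `x ∈ C.Cy k` (`J.deg ≤ k`, so no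
index of `J` has cone degree `k`), a cocycle of its dual is `(y; z)` with `y ∈ C.dual.Cy k`,
`g^* y + J.d^* z = 0`, `1 - J.deg j = k` on `z`. The `(C, C)`-part of `ν'^l ((x;0); (y;z))` is
`ν^l (x; y)` (induction: `ν' ((x;x'); (y;z)) = ((μ x + f' x' + ε b y; 0); (a x + f x' + μ^* y; ..))` and
`x' = 0` for all vectors of `C`-degree `k`, because of the degrees: `ν'` is homogeneous). All the
vectors `ν'^l (..)` are cocycles of degree `k` of cone and dual cone over `R[G]`. (1), (3): second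
components: CNE (2) (`x := ` the `C`-part, `y := ` the `J`-part). (2): `(x1; y1) = ν^l (exv x; exv y)`,
supports `Yp`, `Ym` by induction (`1 ∈ Yp`, `H ⊆ Yp`; `X3 Yp ⊆ Yp`, `X2 Ym ⊆ Yp`, `X1 Yp ⊆ Ym`,
`Xinv X3 Ym ⊆ Ym`), `ν (x1; y1)` is a coboundary: PRG, so `x1 = ∑_t exv(x_t) t` with `x_t ∈ Ker`, and by
`g3'` `x_t = g y_t + C.d w_t`, `J.d y_t = 0` (degree `k`), so `(x1; 0) = d' (w; y)`. -/
def SpecNLK : Prop :=
  ∀ (R G : Type) [Ring R] [StarRing R] [Group G] (H : Subgroup G) (X1 X2 X3 Yp Ym : Set G)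
    (_ : PingPong H X1 X2 X3 Yp Ym) (ε : ℤˣ)
    (C J : FC (MonoidAlgebra R H)) (a μ b : Matrix C.I C.I (MonoidAlgebra R G)) (k : ℤ)
    (g : Matrix C.I J.I (MonoidAlgebra R H)) (f f' : Matrix C.I J.I (MonoidAlgebra R G))
    (t : Matrix J.I J.I (MonoidAlgebra R G)) (h : RD C k (Ker C a μ k) J g),
    NF H X1 X2 X3 ε C a μ b → EX X1 X3 ε C J g a μ f f' t →
    NF H X1 X2 X3 ε (cone C J g h.gg h.cg) (newa ε a f t) (fromBlocks μ f' 0 0)
      (fromBlocks b 0 0 0) → ∀ l : ℕ,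
    Row1 ε C a μ b k (l + 1) → Row2 ε C a μ b k (l + 1) →
      (Row1 ε (cone C J g h.gg h.cg) (newa ε a f t) (fromBlocks μ f' 0 0)
        (fromBlocks b 0 0 0) k (l + 1) ∧
      Row2 ε (cone C J g h.gg h.cg) (newa ε a f t) (fromBlocks μ f' 0 0)
        (fromBlocks b 0 0 0) k (l + 1)) ∧
      Row1 ε (cone C J g h.gg h.cg) (newa ε a f t) (fromBlocks μ f' 0 0)
        (fromBlocks b 0 0 0) k l ∧
      (Row2 ε C a μ b k l → Row2 ε (cone C J g h.gg h.cg) (newa ε a f t) (fromBlocks μ f' 0 0)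
        (fromBlocks b 0 0 0) k l)

/-- One surgery. -/
def StepStmt : Prop :=
  ∀ (R G : Type) [Ring R] [StarRing R] [Group G] (H : Subgroup G) (X1 X2 X3 Yp Ym : Set G)
    (_ : PingPong H X1 X2 X3 Yp Ym) (ε : ℤˣ), AuslanderRegular (MonoidAlgebra R H) →
    ∀ (C : FC (MonoidAlgebra R H)) (a μ b : Matrix C.I C.I (MonoidAlgebra R G)) (k l : ℕ),
    NF H X1 X2 X3 ε C a μ b → C.ExBelow k → C.dual.ExBelow k →
    Row1 ε C a μ b k (l + 1) → Row2 ε C a μ b k (l + 1) →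
    ∃ (C' : FC (MonoidAlgebra R H)) (a' μ' b' : Matrix C'.I C'.I (MonoidAlgebra R G)),
      NF H X1 X2 X3 ε C' a' μ' b' ∧ C'.ExBelow k ∧ C'.dual.ExBelow k ∧
      Row1 ε C' a' μ' b' k (l + 1) ∧ Row2 ε C' a' μ' b' k (l + 1) ∧ Row1 ε C' a' μ' b' k l ∧
      (Row2 ε C a μ b k l → Row2 ε C' a' μ' b' k l) ∧
      (Good X1 X2 ε C' a' μ' b' → Good X1 X2 ε C a μ b)

/-- **STE** (size 100, hypotheses `SpecRSZ SpecRSP SpecEXF SpecCNE SpecCNF SpecGDS SpecNLK`).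

PROOF. `Z = Ker C a μ k`; `C.Bd k ≤ Z`: `x = C.d y`: `C.d x = 0`, `a x = a δ y = δ^* a y`, `μ x = δ μ y`. RSZ
(`k = 0`) or RSP, EXF, CNF, CNE (1), NLK, GDS. -/
def SpecSTE : Prop := StepStmt

/-- **SWA** (size 200; may import `UV/IND`, `UV/SWP`): the exchanged form.

PROOF. `(C.dual; b, μ^*, a)`, for the exchanged ping-pong data (see `INDAux.pp_swap`). `NF`: all clear
(`(ext C.dual.d)ᴴ = ext C.d`); `nil`: `INDAux.nu_swap` and friends (`nu ε b μᴴ a` is conjugate to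
`nu ε a μ b` by `(0, 1; ε, 0)`). Rows: the conjugation exchanges the rows: `Row1` for the exchanged
form is `Row2` for `C`, at all `x`, `y` (up to the sign `ε` of `x`; use `Cy` closed under sign) and
`C.dual.dual.Cy k = C.Cy k`. `Good`: reindex `{i // - C.deg i = 0} ≃ {i // C.deg i = 0}`, SWP (a). -/
def SpecSWA : Prop :=
  ∀ (R G : Type) [Ring R] [StarRing R] [Group G] (H : Subgroup G) (X1 X2 X3 : Set G) (ε : ℤˣ)
    (C : FC (MonoidAlgebra R H)) (a μ b : Matrix C.I C.I (MonoidAlgebra R G)),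
    NF H X1 X2 X3 ε C a μ b →
    NF H X2 X1 (Xinv X3) ε C.dual b μᴴ a ∧
    (∀ (k : ℤ) (l : ℕ), (Row2 ε C a μ b k l → Row1 ε C.dual b μᴴ a k l) ∧
      (Row1 ε C a μ b k l → Row2 ε C.dual b μᴴ a k l)) ∧
    (Good X2 X1 ε C.dual b μᴴ a → Good X1 X2 ε C a μ b)

/-- One level. -/
def LevelStmt : Prop :=
  ∀ (R G : Type) [Ring R] [StarRing R] [Group G] (H : Subgroup G) (X1 X2 X3 Yp Ym : Set G)
    (_ : PingPong H X1 X2 X3 Yp Ym) (ε : ℤˣ), AuslanderRegular (MonoidAlgebra R H) →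
    ∀ (C : FC (MonoidAlgebra R H)) (a μ b : Matrix C.I C.I (MonoidAlgebra R G)) (k : ℕ),
    NF H X1 X2 X3 ε C a μ b → C.ExBelow k → C.dual.ExBelow k →
    ∃ (C' : FC (MonoidAlgebra R H)) (a' μ' b' : Matrix C'.I C'.I (MonoidAlgebra R G)),
      NF H X1 X2 X3 ε C' a' μ' b' ∧ C'.ExBelow (k + 1 : ℕ) ∧ C'.dual.ExBelow (k + 1 : ℕ) ∧
      (Good X1 X2 ε C' a' μ' b' → Good X1 X2 ε C a μ b)

/-- **LVL** (size 250, hypotheses `SpecSTE`, `SpecSWA`; may import `UV/IND`, `UV/RES`).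

PROOF. `nil`: `ν^l = 0`, so `Row1`, `Row2` hold for this `l`. Induction on `l` (for all forms, and both
orientations of the ping-pong data are not needed): claim: if `Row1 k l`, `Row2 k l` and level `k` then
the conclusion. `l = 0`: `Row1 k 0` says that every cocycle `x` of degree `k` is `δ u` over `R[G]`; apply
`lres H 1` (`lres H 1 (exv x) = x`): `x = C.d u'`; so `C.ExBelow (k + 1)` (split `x` in its component of
degree `k` and the rest), the same for `C.dual` from `Row2 k 0`. `l + 1`: STE; exchange (SWA,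
`pp_swap`); STE for the exchanged form: `Row1 k l` holds for it, and `Row2 k l` (it was `Row1 k l`
before the exchange, and is preserved); exchange back: the form `(C'.dual; b', μ'^*, a')` again with
the original `X1, X2`, `Xinv (Xinv X3) = X3`, and the `Good`-implications compose as follows: SWA for
`(C, a, μ, b)`: `Good(exchanged) → Good(C)`; for the second surgery on the exchanged form `E1`:
`Good(E2) → Good(E1)`; SWA for `E2`: `Good(exchanged E2) → Good(E2)`. The result is exchanged `E2`. -/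
def SpecLVL : Prop := LevelStmt

/-- **ENV** (size 300, hypotheses `SpecCTR`, `SpecSTF`, `SpecLAG`; may import `UV/TAT`): exact complexes.

PROOF (paper: END). `h` from CTR (`δ h + h δ = 1`, `h² = 0`), `e = δ h`, `1 - e = h δ`. `n` = the indices of
degree `0`; all matrices restricted to `n`. For homogeneous matrices of (total) degree `0` restriction
is compatible with products; for `a = (total degree 0)`: `(e^* a e)| = e|^* a| e|`. Identities (on all of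
`C`): `e^* a e = h^* δ^* a δ h = h^* a δ δ h = 0`; `(1-e) b (1-e)^* = h δ b δ^* h^* = h b δ^* δ^* h^* = 0`;
`(1-e) μ e = h δ μ δ h = h μ δ δ h = 0`. `Ψ = UF ψ μ| χ`, `E = diag(e|, (1-e)|^*)`, `E² = E`.
`Φ = Ψ + ε Ψ^* = (0,1;ε,0) (1 + ν0)`, `ν0 = nu ε a| μ| b|` is nilpotent (`ν0^l` is the restriction of `ν^l`:
`ν` has no entry between degree `0` and degree `≠ 0`), so `Φ` is invertible.
`E^* Ψ E = (e^* ψ e, e^* (1 + μ^*) (1-e)^*; 0, (1-e) χ (1-e)^*)`; the entry `(1,2)` is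
`((1-e)(1+μ) e)^* = 0`; `ψ1 = e^* ψ e` satisfies `ψ1 + ε ψ1^* = e^* a e = 0` and is supported in `X1`: TAT
(`δ = -ε`): `ψ1 = c - ε c^*`; same for `(1-e) χ (1-e)^*`. Lagrangian: `E^* Φ x = 0`; `y = (1 + ν0) x`,
`E^* (0,1;ε,0) y = 0` says `y ∈ im E` (`(0,1;ε,0)`: `y = (y1; y2)`: `e^* y2 = 0`, `(1-e) y1 = 0`, so
`y1 = e y1`, `y2 = (1-e)^* y2`). `im E` is `ν0`-stable (identities), so `(1+ν0)⁻¹ y = ∑ (-ν0)^i y ∈ im E`.
STF: `α1, β1` for `e|`, `α2, β2` for `(1-e)|`; their stars `β2^*, α2^*` for `(1-e)|^*`; the direct sum (up to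
reordering `(n ⊕ n) ⊕ (P1 ⊕ P2)`), extended to `R[G]` by `ext`. LAG. -/
def SpecENV : Prop :=
  ∀ (R G : Type) [Ring R] [StarRing R] [Group G] (H : Subgroup G) (X1 X2 X3 : Set G) (ε : ℤˣ)
    (C : FC (MonoidAlgebra R H)) (a μ b : Matrix C.I C.I (MonoidAlgebra R G)),
    (∀ h ∈ H, ∀ x ∈ X1, x * h ∈ X1) → (∀ h ∈ H, ∀ x ∈ X1, h * x ∈ X1) → (∀ x ∈ X1, x⁻¹ ∈ X1) →
    (∀ x ∈ X1, x⁻¹ ≠ x) → (∀ h ∈ H, ∀ x ∈ X2, x * h ∈ X2) → (∀ h ∈ H, ∀ x ∈ X2, h * x ∈ X2) →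
    (∀ x ∈ X2, x⁻¹ ∈ X2) → (∀ x ∈ X2, x⁻¹ ≠ x) →
    NF H X1 X2 X3 ε C a μ b →
    (∀ x : C.I → MonoidAlgebra R H, C.d *ᵥ x = 0 → ∃ y, x = C.d *ᵥ y) →
    Good X1 X2 ε C a μ b

/-- **FNU** (size 200, hypotheses `SpecLVL`, `SpecACY`, `SpecENV`; may import `UV/TRE`): the theorem.

PROOF. `C0`: `I = Fin n`, `deg = 0`, `d = 0`; `a = ψ + ε ψ^*`, `b = χ + ε χ^*`; `NF` (PingPong from TRE), level
`0` is clear. LVL `k` times: level `k` with the `k` of ACY; ACY: exact; ENV: `Good`; back to `Good` for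
`C0`, apply to `ψ`, `χ` (reindex `{i // 0 = 0} ≃ Fin n`). -/
def SpecFNU : Prop :=
  ∀ (R G V : Type) [Ring R] [StarRing R] [Group G] [MulAction G V] (T : SimpleGraph V) (v w : V),
    T.IsTree → (∀ (g : G) (x y : V), T.Adj x y → T.Adj (g • x) (g • y)) → T.Adj v w →
    (∀ g : G, ¬ (g • v = w ∧ g • w = v)) →
    (∀ g : G, g * g = 1 → (g • v = v ↔ g • w = w)) →
    AuslanderRegular (MonoidAlgebra R ↥(MulAction.stabilizer G v ⊓ MulAction.stabilizer G w)) →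
    ∀ (ε : ℤˣ) (n : ℕ) (ψ μ χ : Matrix (Fin n) (Fin n) (MonoidAlgebra R G)),
      SuppIn {g | g • v = v ∧ g • w ≠ w} ψ → SuppIn {g | g • v = w} μ →
      SuppIn {g | g • w = w ∧ g • v ≠ v} χ →
      IsNilpotent (nu ε (ψ + (ε : ℤ) • ψᴴ) μ (χ + (ε : ℤ) • χᴴ)) →
      StablyHyperbolic ε (UF ψ μ χ)

end Pool.Agent.Lib.MP8a3537.AU
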